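import Pool.Agent.Q206.UE.Stm

/-! # Basic facts: isomorphisms, truth in the tree, bisimilar worlds -/

namespace Pool.Agent.Q206.UE

variable {k : ℕ}

theorem holds_iso {M N : Model k} (e : M.W ≃ N.W)
    (hr : ∀ i u v, M.rel i u v ↔ N.rel i (e u) (e v)) (hv : ∀ a u, M.val a u ↔ N.val a (e u))
    (φ : Fml k) : ∀ w, Holds M φ w ↔ Holds N φ (e w) := by
  induction φ with
  | atom p => exact fun w => hv p w
  | neg φ ih => exact fun w => not_congr (ih w)
  | and φ ψ ih1 ih2 => exact fun w => and_congr (ih1 w) (ih2 w)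
  | know i φ ih =>
    intro w
    constructor
    · intro h v hv'
      obtain ⟨u, rfl⟩ := e.surjective v
      exact (ih u).mp (h u ((hr i w u).mpr hv'))
    · intro h v hv'
      exact (ih v).mpr (h (e v) ((hr i w v).mp hv'))

theorem Iso.refl (M : Model k) : Iso M M := ⟨Equiv.refl _, fun _ _ _ => Iff.rfl, fun _ _ => Iff.rfl⟩

theorem Iso.trans {M N P : Model k} (h : Iso M N) (h' : Iso N P) : Iso M P := by
  obtain ⟨e, h1, h2⟩ := h
  obtain ⟨f, h3, h4⟩ := h'
  exact ⟨e.trans f, fun i u v => (h1 i u v).trans (h3 i _ _), fun a u => (h2 a u).trans (h4 a _)⟩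

theorem Iso.symm {M N : Model k} (h : Iso M N) : Iso N M := by
  obtain ⟨e, h1, h2⟩ := h
  refine ⟨e.symm, fun i u v => ?_, fun a u => ?_⟩
  · rw [h1, e.apply_symm_apply, e.apply_symm_apply]
  · rw [h2, e.apply_symm_apply]

theorem Iso.upd {M N : Model k} (h : Iso M N) (A : Action k) : Iso (upd M A) (upd N A) := by
  obtain ⟨e, h1, h2⟩ := h
  refine ⟨(Equiv.prodCongr e (Equiv.refl A.E)).subtypeEquiv fun p => ?_, fun i u v => ?_,
    fun a u => ?_⟩
  · exact holds_iso e h1 h2 (A.pre p.2) p.1
  · exact and_congr (h1 i _ _) Iff.rfl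
  · exact h2 a _

theorem layer_upd (M : Model k) (A : Action k) (n : ℕ) :
    layer (UE.upd M A) A n = layer M A (n + 1) := by
  induction n with
  | zero => rfl
  | succ n ih => change UE.upd (layer (UE.upd M A) A n) A = _; rw [ih]; rfl

theorem Iso.layer {M N : Model k} (h : Iso M N) (A : Action k) (n : ℕ) :
    Iso (layer M A n) (layer N A n) := by
  induction n with
  | zero => exact h
  | succ n ih => exact ih.upd A

theorem holds_tree (M : Model k) (A : Action k) (φ : Fml k) :
    ∀ (n : ℕ) (w : (layer M A n).W), Holds (tree M A) φ ⟨n, w⟩ ↔ Holds (layer M A n) φ w := by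
  induction φ with
  | atom p => exact fun n w => Iff.rfl
  | neg φ ih => exact fun n w => not_congr (ih n w)
  | and φ ψ ih1 ih2 => exact fun n w => and_congr (ih1 n w) (ih2 n w)
  | know i φ ih =>
    intro n w
    constructor
    · intro h v hv
      exact (ih n v).mp (h ⟨n, v⟩ (TreeRel.mk n w v hv))
    · intro h v hv
      cases hv with
      | mk _ _ v hv => exact (ih n v).mpr (h v hv)

theorem holds_bisim {M : Model k} {Z : M.W → M.W → Prop} (hZ : IsBisim M Z) (φ : Fml k) :
    ∀ w v, Z w v → (Holds M φ w ↔ Holds M φ v) := by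
  induction φ with
  | atom p => exact fun w v h => (hZ w v h).1 p
  | neg φ ih => exact fun w v h => not_congr (ih w v h)
  | and φ ψ ih1 ih2 => exact fun w v h => and_congr (ih1 w v h) (ih2 w v h)
  | know i φ ih =>
    intro w v h
    constructor
    · intro h1 v' hv'
      obtain ⟨w', hw', hz⟩ := (hZ w v h).2.2 i v' hv'
      exact (ih w' v' hz).mp (h1 w' hw')
    · intro h1 w' hw'
      obtain ⟨v', hv', hz⟩ := (hZ w v h).2.1 i w' hw'
      exact (ih w' v' hz).mpr (h1 v' hv')

theorem ag_num {K : ℕ} (i : Ag K) : ag (num i) = i := by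
  cases i with
  | V a =>
    have h1 : (a : ℕ) + 6 - 6 = a := by omega
    simp [ag, num]
  | _ => simp [ag, num]

theorem holds_top (M : Model k) (w : M.W) : Holds M top w := by
  simp [top, Holds]

theorem holds_dia (M : Model k) (i : Fin k) (φ : Fml k) (w : M.W) :
    Holds M (dia i φ) w ↔ ∃ v, M.rel i w v ∧ Holds M φ v := by
  simp [dia, Holds]

theorem not_T {K : ℕ} (c : ℕ → Fin K) (N p : ℕ) (v : LW) : ¬ LRel c N .T (.st p) v := by
  intro h
  cases h

/-- With the content `h` present no precondition holds. -/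
theorem no_pre {K : ℕ} (ρ : Option (Fin K) → Fin K → Fin K → Fin K) (q₀ h : Fin K)
    (c : ℕ → Fin K) (N p : ℕ) (hp : p < N) (hc : c p = h) (w : (Lay c N).W) (ev : Ev K) :
    ¬ Holds (Lay c N) ((act ρ q₀ h).pre ev) w := by
  have h1 : Holds (Lay c N) (HALT h) w := by
    rw [HALT, holds_dia]
    refine ⟨⟨.st p, hp⟩, ?_, ?_, ?_⟩
    · change LRel c N (ag (num .U)) _ _
      rw [ag_num]
      exact .U _ _
    · rw [holds_dia]
      refine ⟨⟨.res p, Nat.le_of_lt hp⟩, ?_, holds_top _ _⟩
      change LRel c N (ag (num (.V h))) _ _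
      rw [ag_num, ← hc]
      exact .Vsr p
    · change ¬ Holds _ (LIV K) _
      rw [LIV, holds_dia]
      rintro ⟨v, hv, -⟩
      change LRel c N (ag (num .T)) _ _ at hv
      rw [ag_num] at hv
      exact not_T c N p _ hv
  cases ev <;> intro h2
  · exact h2.2 h1
  · exact h2.2 h1
  · exact h2.2 h1
  · exact h2.1.2 h1

end Pool.Agent.Q206.UE
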