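import Mathlib

/-!
# Update evolution in dynamic epistemic logic: definitions
-/

namespace Pool.Agent.Q206.UE

/-- Epistemic formulas; the agents are the elements of `Fin k`, the atoms are numbered. -/
inductive Fml (k : ℕ) : Type
  | atom (p : ℕ) : Fml k
  | neg (φ : Fml k) : Fml k
  | and (φ ψ : Fml k) : Fml k
  | know (i : Fin k) (φ : Fml k) : Fml k

/-- Epistemic models with `k` agents: worlds, arbitrary accessibility relations, valuation. -/
structure Model (k : ℕ) where
  W : Type
  rel : Fin k → W → W → Prop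
  val : ℕ → W → Prop

/-- Action models: events, arbitrary relations, preconditions. -/
structure Action (k : ℕ) where
  E : Type
  rel : Fin k → E → E → Prop
  pre : E → Fml k

variable {k : ℕ}

/-- Truth of a formula in a world. -/
def Holds (M : Model k) : Fml k → M.W → Prop
  | .atom p, w => M.val p w
  | .neg φ, w => ¬ Holds M φ w
  | .and φ ψ, w => Holds M φ w ∧ Holds M ψ w
  | .know i φ, w => ∀ v, M.rel i w v → Holds M φ v

/-- The product update. -/
def upd (M : Model k) (A : Action k) : Model k where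
  W := {p : M.W × A.E // Holds M (A.pre p.2) p.1}
  rel i p q := M.rel i p.1.1 q.1.1 ∧ A.rel i p.1.2 q.1.2
  val a p := M.val a p.1.1

/-- The layers `M`, `M × A`, `(M × A) × A`, … -/
def layer (M : Model k) (A : Action k) : ℕ → Model k
  | 0 => M
  | n + 1 => upd (layer M A n) A

/-- The relations of the disjoint union of the layers. -/
inductive TreeRel (M : Model k) (A : Action k) (i : Fin k) :
    (Σ n, (layer M A n).W) → (Σ n, (layer M A n).W) → Prop
  | mk (n : ℕ) (u v : (layer M A n).W) : (layer M A n).rel i u v → TreeRel M A i ⟨n, u⟩ ⟨n, v⟩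

/-- `TREE(M, A)`, the disjoint union of the layers. -/
def tree (M : Model k) (A : Action k) : Model k where
  W := Σ n, (layer M A n).W
  rel i := TreeRel M A i
  val a x := (layer M A x.1).val a x.2

/-- Bisimulations on a model. -/
def IsBisim (M : Model k) (Z : M.W → M.W → Prop) : Prop :=
  ∀ w v, Z w v → (∀ a, M.val a w ↔ M.val a v) ∧
    (∀ i w', M.rel i w w' → ∃ v', M.rel i v v' ∧ Z w' v') ∧
    ∀ i v', M.rel i v v' → ∃ w', M.rel i w w' ∧ Z w' v'

/-- Bisimilar worlds. -/
def Bisimilar (M : Model k) (w v : M.W) : Prop := ∃ Z, IsBisim M Z ∧ Z w v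

/-- The model is finite modulo bisimulation: every world is bisimilar to one of finitely many. -/
def FinMod (M : Model k) : Prop := ∃ F : Finset M.W, ∀ w, ∃ v ∈ F, Bisimilar M w v

/-- Finite models as data: the number `n` of worlds `0, …, n - 1`, the list of the triples
`(agent, world, world)` of the accessibility relations, the list of the pairs `(world, atom)`. -/
abbrev FM (k : ℕ) : Type := ℕ × List (Fin k × ℕ × ℕ) × List (ℕ × ℕ)

/-- The model given by the data. -/
def toModel (D : FM k) : Model k where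
  W := Fin D.1
  rel i u v := (i, (u : ℕ), (v : ℕ)) ∈ D.2.1
  val a u := ((u : ℕ), a) ∈ D.2.2

/-- Isomorphic models. -/
def Iso (M N : Model k) : Prop :=
  ∃ e : M.W ≃ N.W, (∀ i u v, M.rel i u v ↔ N.rel i (e u) (e v)) ∧
    ∀ a u, M.val a u ↔ N.val a (e u)

/-! ### Derived formulas -/

/-- A tautology. -/
def top : Fml k := .neg (.and (.atom 0) (.neg (.atom 0)))

/-- The dual of `know`. -/
def dia (i : Fin k) (φ : Fml k) : Fml k := .neg (.know i (.neg φ))

/-- Disjunction. -/
def orF (φ ψ : Fml k) : Fml k := .neg (.and (.neg φ) (.neg ψ))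

/-- Disjunction of a list. -/
def disj : List (Fml k) → Fml k
  | [] => .neg top
  | φ :: l => orF φ (disj l)

/-! ### The array -/

/-- Kinds of agents. -/
inductive Ag (K : ℕ) : Type
  | C | L | R | X | T | U
  | V (a : Fin K)

/-- The number of an agent. -/
def num {K : ℕ} : Ag K → Fin (K + 6)
  | .C => ⟨0, by omega⟩
  | .L => ⟨1, by omega⟩
  | .R => ⟨2, by omega⟩
  | .X => ⟨3, by omega⟩
  | .T => ⟨4, by omega⟩
  | .U => ⟨5, by omega⟩
  | .V a => ⟨a + 6, by omega⟩

/-- The agent with the given number. -/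
def ag {K : ℕ} (i : Fin (K + 6)) : Ag K :=
  if (i : ℕ) = 0 then .C else if (i : ℕ) = 1 then .L else if (i : ℕ) = 2 then .R
  else if (i : ℕ) = 3 then .X else if (i : ℕ) = 4 then .T else if (i : ℕ) = 5 then .U
  else if h : (i : ℕ) - 6 < K then .V ⟨i - 6, h⟩ else .U

/-- Events: the tip stays (`x`), the tip creates a new cell (`f`), a cell stays (`y`), a cell
receives the content `a` (`q a`). -/
inductive Ev (K : ℕ) : Type
  | x | f | y
  | q (a : Fin K)

/-- The relations between the events. -/
inductive EvRel {K : ℕ} : Ag K → Ev K → Ev K → Prop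
  | Cxx : EvRel .C .x .x
  | Cff : EvRel .C .f .f
  | Cyy : EvRel .C .y .y
  | Cyq (a : Fin K) : EvRel .C .y (.q a)
  | Lxx : EvRel .L .x .x
  | Lxf : EvRel .L .x .f
  | Lfy : EvRel .L .f .y
  | Lfq (a : Fin K) : EvRel .L .f (.q a)
  | Lyy : EvRel .L .y .y
  | Lyq (a : Fin K) : EvRel .L .y (.q a)
  | Rxx : EvRel .R .x .x
  | Rfx : EvRel .R .f .x
  | Ryf : EvRel .R .y .f
  | Ryy : EvRel .R .y .y
  | Ryq (a : Fin K) : EvRel .R .y (.q a)
  | Xxx : EvRel .X .x .x
  | Txx : EvRel .T .x .x
  | Tff : EvRel .T .f .f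
  | Tyy : EvRel .T .y .y
  | U (e e' : Ev K) : EvRel .U e e'
  | Vxx (a : Fin K) : EvRel (.V a) .x .x
  | Vff (a : Fin K) : EvRel (.V a) .f .f
  | Vyy (a : Fin K) : EvRel (.V a) .y .y
  | Vqy (a : Fin K) : EvRel (.V a) (.q a) .y

section formulas

variable (K : ℕ)

/-- The tip. -/
def TIP : Fml (K + 6) := dia (num .X) top

/-- The tip or a cell. -/
def LIV : Fml (K + 6) := dia (num .T) top

variable {K}

/-- A mark with the content `a`. -/
def PHI (a : Fin K) : Fml (K + 6) := .and (dia (num (.V a)) top) (.neg (LIV K))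

/-- Some mark has the content `h`. -/
def HALT (h : Fin K) : Fml (K + 6) := dia (num .U) (PHI h)

/-- The content seen by the agent `i` is `l`. -/
def seen (i : Ag K) : Option (Fin K) → Fml (K + 6)
  | some a => dia (num i) (PHI a)
  | none => .neg (disj ((List.finRange K).map fun a => dia (num i) (PHI a)))

/-- The content seen by the agent `i` is `b`, where nothing counts as `q₀`. -/
def seen' (q₀ : Fin K) (i : Ag K) (b : Fin K) : Fml (K + 6) :=
  if b = q₀ then orF (seen i (some b)) (seen i none) else seen i (some b)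

/-- The new content is `a`. -/
def RULE (ρ : Option (Fin K) → Fin K → Fin K → Fin K) (q₀ a : Fin K) : Fml (K + 6) :=
  disj ((none :: (List.finRange K).map some).flatMap fun l =>
    (List.finRange K).flatMap fun b => (List.finRange K).flatMap fun d =>
      if ρ l b d = a then [.and (seen .L l) (.and (seen' q₀ .C b) (seen' q₀ .R d))] else [])

end formulas

/-- The action model. -/
def act {K : ℕ} (ρ : Option (Fin K) → Fin K → Fin K → Fin K) (q₀ h : Fin K) : Action (K + 6) where
  E := Ev K
  rel i := EvRel (ag i)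
  pre
    | .x => .and (TIP K) (.neg (HALT h))
    | .f => .and (TIP K) (.neg (HALT h))
    | .y => .and (.and (LIV K) (.neg (TIP K))) (.neg (HALT h))
    | .q a => .and (.and (.and (LIV K) (.neg (TIP K))) (.neg (HALT h))) (RULE ρ q₀ a)

/-- One step of the array: the new content of the cell `p` depends on the contents of the cells
`p - 1` (`none` if `p = 0`), `p` and `p + 1`. -/
def cstep {K : ℕ} (ρ : Option (Fin K) → Fin K → Fin K → Fin K) (c : ℕ → Fin K) : ℕ → Fin K :=
  fun p => ρ (if p = 0 then none else some (c (p - 1))) (c p) (c (p + 1))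

/-- Worlds of the explicit layers: the tip, the cell `p`, the mark of the cell `p`. -/
inductive LW : Type
  | tip
  | res (p : ℕ)
  | st (p : ℕ)

/-- The worlds of the layer with the cells `0, …, N`. -/
def ok (N : ℕ) : LW → Prop
  | .tip => True
  | .res p => p ≤ N
  | .st p => p < N

/-- The relations of the explicit layers. -/
inductive LRel {K : ℕ} (c : ℕ → Fin K) (N : ℕ) : Ag K → LW → LW → Prop
  | Ctt : LRel c N .C .tip .tip
  | Crr (p : ℕ) : LRel c N .C (.res p) (.res p)
  | Crs (p : ℕ) : LRel c N .C (.res p) (.st p)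
  | Ltt : LRel c N .L .tip .tip
  | Ltr : LRel c N .L .tip (.res N)
  | Lrr (p : ℕ) : LRel c N .L (.res (p + 1)) (.res p)
  | Lrs (p : ℕ) : LRel c N .L (.res (p + 1)) (.st p)
  | Rtt : LRel c N .R .tip .tip
  | Rrt : LRel c N .R (.res N) .tip
  | Rrr (p : ℕ) : LRel c N .R (.res p) (.res (p + 1))
  | Rrs (p : ℕ) : LRel c N .R (.res p) (.st (p + 1))
  | Xtt : LRel c N .X .tip .tip
  | Ttt : LRel c N .T .tip .tip
  | Trr (p : ℕ) : LRel c N .T (.res p) (.res p)
  | U (u v : LW) : LRel c N .U u v
  | Vtt (a : Fin K) : LRel c N (.V a) .tip .tip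
  | Vrr (a : Fin K) (p : ℕ) : LRel c N (.V a) (.res p) (.res p)
  | Vsr (p : ℕ) : LRel c N (.V (c p)) (.st p) (.res p)

/-- The explicit layer with the cells `0, …, N` and the contents `c p`, `p < N`. -/
def Lay {K : ℕ} (c : ℕ → Fin K) (N : ℕ) : Model (K + 6) where
  W := {w : LW // ok N w}
  rel i u v := LRel c N (ag i) u.1 v.1
  val _ _ := False

/-- The configuration given by a word. -/
def conf {K : ℕ} (q₀ : Fin K) (w : List (Fin K)) : ℕ → Fin K := fun p => w.getD p q₀

/-! ### Turing machines with absolute positions -/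

/-- Configurations: state, position of the head, contents of the tape. -/
structure ZC (Γ Λ : Type) where
  q : Λ
  pos : ℤ
  t : ℤ → Γ

/-- One step. -/
def znext {Γ Λ : Type} [Inhabited Γ] [Inhabited Λ] (M : Turing.TM0.Machine Γ Λ) (z : ZC Γ Λ) :
    Option (ZC Γ Λ) :=
  (M z.q (z.t z.pos)).map fun r => match r.2 with
    | .move .left => ⟨r.1, z.pos - 1, z.t⟩
    | .move .right => ⟨r.1, z.pos + 1, z.t⟩
    | .write a => ⟨r.1, z.pos, Function.update z.t z.pos a⟩

/-- The run; `none` after the machine has stopped. -/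
def zrun {Γ Λ : Type} [Inhabited Γ] [Inhabited Λ] (M : Turing.TM0.Machine Γ Λ) (z : ZC Γ Λ) :
    ℕ → Option (ZC Γ Λ)
  | 0 => some z
  | n + 1 => (zrun M z n).bind (znext M)

/-- The initial configuration. -/
def zinit {Γ Λ : Type} [Inhabited Γ] [Inhabited Λ] (l : List Γ) : ZC Γ Λ :=
  ⟨default, 0, fun i => if 0 ≤ i then l.getD i.toNat default else default⟩

end Pool.Agent.Q206.UE
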