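import Pool.Agent.Q206.UE.Base

/-! # Hardness: assembly -/

namespace Pool.Agent.Q206.UE

variable {k : ℕ}

theorem finite_upd (M : Model k) (A : Action k) [Finite M.W] [Finite A.E] : Finite (upd M A).W :=
  inferInstanceAs (Finite {p : M.W × A.E // Holds M (A.pre p.2) p.1})

theorem finite_layer (M : Model k) (A : Action k) [Finite M.W] [Finite A.E] (n : ℕ) :
    Finite (layer M A n).W := by
  induction n with
  | zero => exact ‹Finite M.W›
  | succ n ih => exact finite_upd (layer M A n) A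

theorem empty_upd (M : Model k) (A : Action k) [IsEmpty M.W] : IsEmpty (upd M A).W :=
  ⟨fun p => isEmptyElim p.1.1⟩

theorem empty_layer (M : Model k) (A : Action k) (n : ℕ) (h : IsEmpty (layer M A n).W) (j : ℕ) :
    IsEmpty (layer M A (n + j)).W := by
  induction j with
  | zero => exact h
  | succ j ih => exact empty_upd (layer M A (n + j)) A

theorem bisimilar_refl (M : Model k) (w : M.W) : Bisimilar M w w :=
  ⟨Eq, fun w v h => by
    subst h
    exact ⟨fun _ => Iff.rfl, fun i w' hw => ⟨w', hw, rfl⟩, fun i w' hw => ⟨w', hw, rfl⟩⟩, rfl⟩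

theorem finMod_of_empty (M : Model k) (A : Action k) [Finite M.W] [Finite A.E] (n : ℕ)
    (h : IsEmpty (layer M A n).W) : FinMod (tree M A) := by
  classical
  have hfin : Finite (tree M A).W := by
    have : ∀ j : Fin n, Finite (layer M A j).W := fun j => finite_layer M A j
    have hlt : ∀ x : (tree M A).W, x.1 < n := by
      rintro ⟨m, w⟩
      by_contra hcon
      obtain ⟨j, rfl⟩ := Nat.exists_eq_add_of_le (not_lt.mp hcon)
      exact (empty_layer M A n h j).false w
    refine Finite.of_injective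
      (fun x : (tree M A).W => (⟨⟨x.1, hlt x⟩, x.2⟩ : Σ j : Fin n, (layer M A j).W)) ?_
    rintro ⟨m, w⟩ ⟨m', w'⟩ hxy
    simp only [Sigma.mk.injEq, Fin.mk.injEq] at hxy
    obtain ⟨rfl, hxy⟩ := hxy
    rw [heq_eq_eq] at hxy
    rw [hxy]
  have := Fintype.ofFinite (tree M A).W
  exact ⟨Finset.univ, fun w => ⟨w, Finset.mem_univ w, bisimilar_refl _ w⟩⟩

instance {K : ℕ} : Finite (Ev K) := by
  refine Finite.of_injective (fun e : Ev K => (match e with
    | .x => Sum.inl 0
    | .f => Sum.inl 1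
    | .y => Sum.inl 2
    | .q a => Sum.inr a : Fin 3 ⊕ Fin K)) ?_
  intro a b hab
  cases a <;> cases b <;> simp_all

instance {K : ℕ} (ρ : Option (Fin K) → Fin K → Fin K → Fin K) (q₀ h : Fin K) :
    Finite (act ρ q₀ h).E := inferInstanceAs (Finite (Ev K))

instance (D : FM k) : Finite (toModel D).W := inferInstanceAs (Finite (Fin D.1))

theorem blank_step {K : ℕ} (ρ : Option (Fin K) → Fin K → Fin K → Fin K) (q₀ : Fin K)
    (hq : ρ (some q₀) q₀ q₀ = q₀) (c : ℕ → Fin K) (N : ℕ) (hc : ∀ p, N ≤ p → c p = q₀) :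
    ∀ p, N + 1 ≤ p → cstep ρ c p = q₀ := by
  intro p hp
  unfold cstep
  rw [if_neg (by omega), hc (p - 1) (by omega), hc p (by omega), hc (p + 1) (by omega), hq]

theorem blank_iter {K : ℕ} (ρ : Option (Fin K) → Fin K → Fin K → Fin K) (q₀ : Fin K)
    (hq : ρ (some q₀) q₀ q₀ = q₀) (c : ℕ → Fin K) (m : ℕ) (hc : ∀ p, m ≤ p → c p = q₀) (n : ℕ) :
    ∀ p, m + n ≤ p → (cstep ρ)^[n] c p = q₀ := by
  induction n with
  | zero => exact hc
  | succ n ih =>
    rw [Function.iterate_succ_apply']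
    exact blank_step ρ q₀ hq _ (m + n) ih

theorem layers (hpre : S_pre) (hstep : S_step) {K : ℕ}
    (ρ : Option (Fin K) → Fin K → Fin K → Fin K) (q₀ h : Fin K)
    (hq : ρ (some q₀) q₀ q₀ = q₀) (c : ℕ → Fin K) (m : ℕ) (hc : ∀ p, m ≤ p → c p = q₀)
    (M : Model (K + 6)) (hM : Iso M (Lay c m)) (n : ℕ)
    (hn : ∀ t < n, ∀ p, (cstep ρ)^[t] c p ≠ h) :
    Iso (layer M (act ρ q₀ h) n) (Lay ((cstep ρ)^[n] c) (m + n)) := by
  induction n with
  | zero => exact hM
  | succ n ih =>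
    have h1 := ih fun t ht => hn t (by omega)
    have h2 := hstep hpre K ρ q₀ h ((cstep ρ)^[n] c) (m + n) (blank_iter ρ q₀ hq c m hc n)
      (fun p _ => hn n (by omega) p)
    have h3 := (h1.upd (act ρ q₀ h)).trans h2
    rw [Function.iterate_succ_apply']
    exact h3

theorem conf_blank {K : ℕ} (q₀ : Fin K) (w : List (Fin K)) (p : ℕ) (hp : w.length ≤ p) :
    conf q₀ w p = q₀ := by
  unfold conf
  rw [List.getD_eq_default _ _ hp]

theorem equiv_halt (hpre : S_pre) (hstep : S_step) (hinf : S_inf) {K : ℕ}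
    (ρ : Option (Fin K) → Fin K → Fin K → Fin K) (q₀ h : Fin K) (hne : q₀ ≠ h)
    (hq : ρ (some q₀) q₀ q₀ = q₀) (w : List (Fin K)) (M : Model (K + 6)) [Finite M.W]
    (hM : Iso M (Lay (conf q₀ w) w.length)) :
    (∃ t p, (cstep ρ)^[t] (conf q₀ w) p = h) ↔ FinMod (tree M (act ρ q₀ h)) := by
  classical
  have hc := conf_blank q₀ w
  constructor
  · intro hex
    obtain ⟨p, hp⟩ := Nat.find_spec hex
    set t := Nat.find hex with ht
    have hmin : ∀ t' < t, ∀ p, (cstep ρ)^[t'] (conf q₀ w) p ≠ h := fun t' ht' p hp' =>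
      Nat.find_min hex ht' ⟨p, hp'⟩
    have h1 := layers hpre hstep ρ q₀ h hq (conf q₀ w) w.length hc M hM t hmin
    have hpN : p < w.length + t := by
      by_contra hcon
      have := blank_iter ρ q₀ hq (conf q₀ w) w.length hc t p (not_lt.mp hcon)
      exact hne (this.symm.trans hp)
    obtain ⟨e, -⟩ := h1.upd (act ρ q₀ h)
    refine finMod_of_empty M (act ρ q₀ h) (t + 1) ⟨fun x => ?_⟩
    have h2 := (e x).2
    exact no_pre ρ q₀ h _ _ p hpN hp _ _ h2
  · intro hfin
    by_contra hcon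
    push Not at hcon
    exact hinf K w.length (fun n => (cstep ρ)^[n] (conf q₀ w)) M (act ρ q₀ h)
      (fun n => layers hpre hstep ρ q₀ h hq (conf q₀ w) w.length hc M hM n
        fun t _ p => hcon t p) hfin

theorem hard (hpre : S_pre) (hstep : S_step) (hinf : S_inf) (henc : S_enc) (htmz : S_tmz)
    (hca : S_ca) (huniv : S_univ) :
    ∃ (k : ℕ) (A : Action k), Finite A.E ∧ ∀ S : ℕ → Prop, REPred S →
      ∃ f : ℕ → FM k, Computable f ∧ ∀ n, S n ↔ FinMod (tree (toModel (f n)) A) := by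
  obtain ⟨K, ρ, q₀, h, hne, hq, hS⟩ := huniv htmz hca
  obtain ⟨D, hD, hiso⟩ := henc K q₀
  refine ⟨K + 6, act ρ q₀ h, inferInstance, fun S hSre => ?_⟩
  obtain ⟨f, hf, hfS⟩ := hS S hSre
  refine ⟨fun n => D (f n), hD.comp hf, fun n => ?_⟩
  rw [hfS n]
  exact equiv_halt hpre hstep hinf ρ q₀ h hne hq (f n) (toModel (D (f n))) (hiso (f n))

end Pool.Agent.Q206.UE
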