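import Pool.Agent.Q206.UE.Stm

/-!
# Update evolution, job ca (helper299): a one-sided cellular array simulates a `TM0` machine
-/

set_option autoImplicit false
set_option linter.unusedSectionVars false

namespace Pool.Agent.Q206.UE

namespace Ca

open Turing

variable {Γ Λ : Type} [Inhabited Γ] [Inhabited Λ]

/-- contents: `none` is the halting content; otherwise the two symbols and the head, if present,
with its side -/
abbrev D (Γ Λ : Type) : Type := Option (Γ × Γ × Option (Λ × Bool))

/-- the move leads away from the origin -/
def isOut (σ : Bool) : Dir → Bool
  | .left => !σ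
  | .right => σ

/-- the content of a cell after its own action (nothing received); `first` says that the cell has no
left neighbour -/
def own (M : TM0.Machine Γ Λ) (first : Bool) : D Γ Λ → D Γ Λ
  | none => none
  | some (x, y, none) => some (x, y, none)
  | some (x, y, some (q, σ)) => match M q (if σ then x else y) with
    | none => none
    | some (q', .write a) => some (if σ then a else x, if σ then y else a, some (q', σ))
    | some (q', .move dir) =>
      if first && !isOut σ dir then some (x, y, some (q', !σ)) else some (x, y, none)

/-- the head sent away from the origin (`b = true`) or towards it (`b = false`) -/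
def emit (M : TM0.Machine Γ Λ) (b : Bool) : D Γ Λ → Option (Λ × Bool)
  | some (x, y, some (q, σ)) => match M q (if σ then x else y) with
    | some (q', .move dir) => if isOut σ dir = b then some (q', σ) else none
    | _ => none
  | _ => none

/-- the local rule -/
def rule (M : TM0.Machine Γ Λ) (l : Option (D Γ Λ)) (b d : D Γ Λ) : D Γ Λ :=
  match own M l.isNone b with
  | some (x, y, none) => some (x, y, (l.bind (emit M true)).or (emit M false d))
  | u => u

/-- the head seen in the cell `p` -/
def hs (z : ZC Γ Λ) (p : ℕ) : Option (Λ × Bool) :=
  if z.pos = p then some (z.q, true) else if z.pos = -p - 1 then some (z.q, false) else none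

/-- the content of the cell `p` -/
def enc (z : ZC Γ Λ) (p : ℕ) : D Γ Λ := some (z.t p, z.t (-p - 1), hs z p)

/-- the step of the array -/
def cs (M : TM0.Machine Γ Λ) (c : ℕ → D Γ Λ) : ℕ → D Γ Λ :=
  fun p => rule M (if p = 0 then none else some (c (p - 1))) (c p) (c (p + 1))

theorem znext_eq (M : TM0.Machine Γ Λ) (z : ZC Γ Λ) :
    znext M z = (M z.q (z.t z.pos)).map fun r => match r.2 with
    | .move .left => ⟨r.1, z.pos - 1, z.t⟩
    | .move .right => ⟨r.1, z.pos + 1, z.t⟩
    | .write a => ⟨r.1, z.pos, Function.update z.t z.pos a⟩ := rfl

theorem hs_true {z : ZC Γ Λ} {p : ℕ} (h : z.pos = p) : hs z p = some (z.q, true) := if_pos h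

theorem hs_false {z : ZC Γ Λ} {p : ℕ} (h : z.pos = -p - 1) : hs z p = some (z.q, false) := by
  unfold hs
  rw [if_neg (by omega), if_pos h]

theorem hs_none {z : ZC Γ Λ} {p : ℕ} (h : z.pos ≠ p) (h' : z.pos ≠ -p - 1) : hs z p = none := by
  unfold hs
  rw [if_neg h, if_neg h']

theorem emit_none (M : TM0.Machine Γ Λ) (b : Bool) (z : ZC Γ Λ) {p : ℕ} (h : z.pos ≠ p)
    (h' : z.pos ≠ -p - 1) : emit M b (enc z p) = none := by
  unfold enc
  rw [hs_none h h']
  rfl

theorem emit_write (M : TM0.Machine Γ Λ) (b : Bool) (z : ZC Γ Λ) {q' : Λ} {a : Γ}
    (hM : M z.q (z.t z.pos) = some (q', .write a)) (p : ℕ) : emit M b (enc z p) = none := by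
  by_cases h : z.pos = p
  · unfold enc
    rw [hs_true h]
    simp only [emit, if_true]
    rw [← h, hM]
  · by_cases h' : z.pos = -p - 1
    · unfold enc
      rw [hs_false h']
      simp only [emit]
      rw [← h']
      simp [hM]
    · exact emit_none M b z h h'

theorem emit_true (M : TM0.Machine Γ Λ) (b : Bool) (z : ZC Γ Λ) {q' : Λ} {dir : Dir}
    (hM : M z.q (z.t z.pos) = some (q', .move dir)) {p : ℕ} (h : z.pos = p) :
    emit M b (enc z p) = if isOut true dir = b then some (q', true) else none := by
  unfold enc
  rw [hs_true h]
  simp only [emit, if_true]
  rw [← h, hM]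

theorem emit_false (M : TM0.Machine Γ Λ) (b : Bool) (z : ZC Γ Λ) {q' : Λ} {dir : Dir}
    (hM : M z.q (z.t z.pos) = some (q', .move dir)) {p : ℕ} (h : z.pos = -p - 1) :
    emit M b (enc z p) = if isOut false dir = b then some (q', false) else none := by
  unfold enc
  rw [hs_false h]
  simp only [emit]
  rw [← h]
  simp [hM]

theorem rule_none (M : TM0.Machine Γ Λ) (l : Option (D Γ Λ)) (b d : D Γ Λ) {x y : Γ}
    (h : own M l.isNone b = some (x, y, none)) :
    rule M l b d = some (x, y, (l.bind (emit M true)).or (emit M false d)) := by
  unfold rule
  rw [h]

theorem rule_some (M : TM0.Machine Γ Λ) (l : Option (D Γ Λ)) (b d : D Γ Λ) {x y : Γ} {u : Λ × Bool}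
    (h : own M l.isNone b = some (x, y, some u)) : rule M l b d = some (x, y, some u) := by
  unfold rule
  rw [h]

theorem own_none (M : TM0.Machine Γ Λ) (first : Bool) (z : ZC Γ Λ) {p : ℕ} (h : z.pos ≠ p)
    (h' : z.pos ≠ -p - 1) : own M first (enc z p) = some (z.t p, z.t (-p - 1), none) := by
  unfold enc
  rw [hs_none h h']
  rfl

theorem own_true (M : TM0.Machine Γ Λ) (first : Bool) (z : ZC Γ Λ) {q' : Λ} {dir : Dir}
    (hM : M z.q (z.t z.pos) = some (q', .move dir)) {p : ℕ} (h : z.pos = p) :
    own M first (enc z p) = if first && !isOut true dir then
      some (z.t p, z.t (-p - 1), some (q', false)) else some (z.t p, z.t (-p - 1), none) := by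
  unfold enc
  rw [hs_true h]
  simp only [own, if_true]
  rw [← h, hM]
  rfl

theorem own_false (M : TM0.Machine Γ Λ) (first : Bool) (z : ZC Γ Λ) {q' : Λ} {dir : Dir}
    (hM : M z.q (z.t z.pos) = some (q', .move dir)) {p : ℕ} (h : z.pos = -p - 1) :
    own M first (enc z p) = if first && !isOut false dir then
      some (z.t p, z.t (-p - 1), some (q', true)) else some (z.t p, z.t (-p - 1), none) := by
  unfold enc
  rw [hs_false h]
  simp only [own]
  rw [← h]
  simp [hM]

/-- the array follows the machine, cell by cell -/
theorem step_move (M : TM0.Machine Γ Λ) (z : ZC Γ Λ) {q' : Λ} {dir : Dir}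
    (hM : M z.q (z.t z.pos) = some (q', .move dir)) (p : ℕ) :
    cs M (enc z) p =
      enc ⟨q', (match dir with | .left => z.pos - 1 | .right => z.pos + 1), z.t⟩ p := by
  set z' : ZC Γ Λ := ⟨q', (match dir with | .left => z.pos - 1 | .right => z.pos + 1), z.t⟩ with hz'
  have ht : z'.t = z.t := rfl
  have hq : z'.q = q' := rfl
  have hpl : dir = .left → z'.pos = z.pos - 1 := by rintro rfl; rfl
  have hpr : dir = .right → z'.pos = z.pos + 1 := by rintro rfl; rfl
  have hT : enc z' p = some (z.t p, z.t (-p - 1), hs z' p) := rfl
  rw [hT]
  show rule M (if p = 0 then none else some (enc z (p - 1))) (enc z p) (enc z (p + 1)) = _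
  by_cases h1 : z.pos = p
  · have e2 : emit M false (enc z (p + 1)) = none := emit_none M false z (by omega) (by omega)
    rcases p with _ | p
    · have h3 := own_true M true z hM h1
      rcases dir with _ | _
      · have h4 : hs z' 0 = some (q', false) := by
          have := hpl rfl
          rw [← hq]
          exact hs_false (by push_cast; omega)
        rw [h4]
        exact rule_some M none (enc z 0) _ (by simpa [isOut] using h3)
      · have h4 : hs z' 0 = none := by
          have := hpr rfl
          exact hs_none (by push_cast; omega) (by push_cast; omega)
        rw [h4]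
        have h5 := rule_none M none (enc z 0) (enc z (0 + 1)) (x := z.t (0 : ℕ))
          (y := z.t (-(0 : ℕ) - 1)) (by simpa [isOut] using h3)
        rw [e2] at h5
        exact h5
    · have h3 := own_true M false z hM h1
      have e1 : emit M true (enc z p) = none := emit_none M true z (by push_cast at h1; omega)
        (by push_cast at h1; omega)
      have h4 : hs z' (p + 1) = none := by
        rcases dir with _ | _
        · have := hpl rfl
          exact hs_none (by omega) (by omega)
        · have := hpr rfl
          exact hs_none (by omega) (by omega)
      rw [h4]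
      have h5 := rule_none M (some (enc z p)) (enc z (p + 1)) (enc z (p + 1 + 1))
        (x := z.t (p + 1 : ℕ)) (y := z.t (-(p + 1 : ℕ) - 1)) (by simpa using h3)
      rw [e2, Option.bind_some, e1] at h5
      exact h5
  · by_cases h1' : z.pos = -p - 1
    · have e2 : emit M false (enc z (p + 1)) = none := emit_none M false z (by omega) (by omega)
      rcases p with _ | p
      · have h3 := own_false M true z hM h1'
        rcases dir with _ | _
        · have h4 : hs z' 0 = none := by
            have := hpl rfl
            exact hs_none (by push_cast; omega) (by push_cast; omega)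
          rw [h4]
          have h5 := rule_none M none (enc z 0) (enc z (0 + 1)) (x := z.t (0 : ℕ))
            (y := z.t (-(0 : ℕ) - 1)) (by simpa [isOut] using h3)
          rw [e2] at h5
          exact h5
        · have h4 : hs z' 0 = some (q', true) := by
            have := hpr rfl
            rw [← hq]
            exact hs_true (by push_cast; omega)
          rw [h4]
          exact rule_some M none (enc z 0) _ (by simpa [isOut] using h3)
      · have h3 := own_false M false z hM h1'
        have e1 : emit M true (enc z p) = none := emit_none M true z (by push_cast at h1'; omega)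
          (by push_cast at h1'; omega)
        have h4 : hs z' (p + 1) = none := by
          rcases dir with _ | _
          · have := hpl rfl
            exact hs_none (by omega) (by omega)
          · have := hpr rfl
            exact hs_none (by omega) (by omega)
        rw [h4]
        have h5 := rule_none M (some (enc z p)) (enc z (p + 1)) (enc z (p + 1 + 1))
          (x := z.t (p + 1 : ℕ)) (y := z.t (-(p + 1 : ℕ) - 1)) (by simpa using h3)
        rw [e2, Option.bind_some, e1] at h5
        exact h5
    · rw [rule_none M _ (enc z p) (enc z (p + 1)) (own_none M _ z h1 h1')]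
      have key : ((if p = 0 then none else some (enc z (p - 1))).bind (emit M true)).or
          (emit M false (enc z (p + 1))) = hs z' p := by
        have hb : ((if p = 0 then none else some (enc z (p - 1))).bind (emit M true)) =
            if p = 0 then none else emit M true (enc z (p - 1)) := by
          split_ifs <;> rfl
        rw [hb]
        by_cases h2 : z.pos = (p + 1 : ℕ)
        · have a1 : (if p = 0 then none else emit M true (enc z (p - 1))) = none := by
            split_ifs with h0
            · rfl
            · exact emit_none M true z (by omega) (by omega)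
          rw [a1, emit_true M false z hM h2]
          rcases dir with _ | _
          · have := hpl rfl
            rw [hs_true (z := z') (p := p) (by omega)]
            simp [isOut, hq]
          · have := hpr rfl
            rw [hs_none (z := z') (p := p) (by omega) (by omega)]
            simp [isOut]
        · by_cases h3 : z.pos = -(p + 1 : ℕ) - 1
          · have a1 : (if p = 0 then none else emit M true (enc z (p - 1))) = none := by
              split_ifs with h0
              · rfl
              · exact emit_none M true z (by omega) (by omega)
            rw [a1, emit_false M false z hM h3]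
            rcases dir with _ | _
            · have := hpl rfl
              rw [hs_none (z := z') (p := p) (by omega) (by omega)]
              simp [isOut]
            · have := hpr rfl
              rw [hs_false (z := z') (p := p) (by omega)]
              simp [isOut, hq]
          · rw [emit_none M false z h2 h3, Option.or_none]
            split_ifs with h0
            · rcases dir with _ | _
              · have := hpl rfl
                rw [hs_none (z := z') (p := p) (by omega) (by omega)]
              · have := hpr rfl
                rw [hs_none (z := z') (p := p) (by omega) (by omega)]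
            · by_cases h4 : z.pos = (p - 1 : ℕ)
              · rw [emit_true M true z hM h4]
                rcases dir with _ | _
                · have := hpl rfl
                  rw [hs_none (z := z') (p := p) (by omega) (by omega)]
                  simp [isOut]
                · have := hpr rfl
                  rw [hs_true (z := z') (p := p) (by omega)]
                  simp [isOut, hq]
              · by_cases h5 : z.pos = -(p - 1 : ℕ) - 1
                · rw [emit_false M true z hM h5]
                  rcases dir with _ | _
                  · have := hpl rfl
                    rw [hs_false (z := z') (p := p) (by omega)]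
                    simp [isOut, hq]
                  · have := hpr rfl
                    rw [hs_none (z := z') (p := p) (by omega) (by omega)]
                    simp [isOut]
                · rw [emit_none M true z h4 h5]
                  rcases dir with _ | _
                  · have := hpl rfl
                    rw [hs_none (z := z') (p := p) (by omega) (by omega)]
                  · have := hpr rfl
                    rw [hs_none (z := z') (p := p) (by omega) (by omega)]
      rw [key]

theorem step_write (M : TM0.Machine Γ Λ) (z : ZC Γ Λ) {q' : Λ} {a : Γ}
    (hM : M z.q (z.t z.pos) = some (q', .write a)) (p : ℕ) :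
    cs M (enc z) p = enc ⟨q', z.pos, Function.update z.t z.pos a⟩ p := by
  set z' : ZC Γ Λ := ⟨q', z.pos, Function.update z.t z.pos a⟩ with hz'
  have hq : z'.q = q' := rfl
  have hp : z'.pos = z.pos := rfl
  have hT : enc z' p = some (Function.update z.t z.pos a p,
    Function.update z.t z.pos a (-p - 1), hs z' p) := rfl
  rw [hT]
  show rule M (if p = 0 then none else some (enc z (p - 1))) (enc z p) (enc z (p + 1)) = _
  by_cases h1 : z.pos = p
  · have h2 : ∀ f, own M f (enc z p) = some (a, z.t (-p - 1), some (q', true)) := by
      intro f
      unfold enc
      rw [hs_true h1]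
      simp only [own, if_true]
      rw [← h1, hM]
    rw [rule_some M _ (enc z p) _ (h2 _), hs_true (z := z') (p := p) (by omega), ← h1,
      Function.update_self, Function.update_of_ne (by omega)]
  · by_cases h1' : z.pos = -p - 1
    · have h2 : ∀ f, own M f (enc z p) = some (z.t p, a, some (q', false)) := by
        intro f
        unfold enc
        rw [hs_false h1']
        simp only [own]
        rw [← h1']
        simp [hM]
      rw [rule_some M _ (enc z p) _ (h2 _), hs_false (z := z') (p := p) (by omega), ← h1',
        Function.update_self, Function.update_of_ne (by omega)]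
    · rw [rule_none M _ (enc z p) (enc z (p + 1)) (own_none M _ z h1 h1'),
        hs_none (z := z') (p := p) (by omega) (by omega), emit_write M false z hM,
        Function.update_of_ne (by omega), Function.update_of_ne (by omega)]
      have hb : ((if p = 0 then none else some (enc z (p - 1))).bind (emit M true)) = none := by
        split_ifs
        · rfl
        · exact emit_write M true z hM _
      rw [hb]
      rfl

theorem step_some (M : TM0.Machine Γ Λ) (z z' : ZC Γ Λ) (h : znext M z = some z') :
    cs M (enc z) = enc z' := by
  rw [znext_eq] at h
  cases hM : M z.q (z.t z.pos) with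
  | none => rw [hM] at h; cases h
  | some r =>
    rw [hM] at h
    obtain ⟨q', s⟩ := r
    funext p
    rcases s with dir | a
    · rw [step_move M z hM]
      cases dir <;> (cases h; rfl)
    · rw [step_write M z hM]
      cases h
      rfl

/-- when the machine stops, the halting content appears -/
theorem step_none (M : TM0.Machine Γ Λ) (z : ZC Γ Λ) (h : znext M z = none) :
    ∃ p, cs M (enc z) p = none := by
  rw [znext_eq, Option.map_eq_none_iff] at h
  rcases le_or_gt 0 z.pos with h0 | h0
  · refine ⟨z.pos.toNat, ?_⟩
    have hp : z.pos = (z.pos.toNat : ℤ) := (Int.toNat_of_nonneg h0).symm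
    have h2 : ∀ f, own M f (enc z z.pos.toNat) = none := by
      intro f
      unfold enc
      rw [hs_true hp]
      simp only [own, if_true]
      rw [← hp, h]
    show rule M _ (enc z z.pos.toNat) _ = none
    unfold rule
    rw [h2]
  · refine ⟨(-z.pos - 1).toNat, ?_⟩
    have hp : z.pos = -((-z.pos - 1).toNat : ℤ) - 1 := by
      rw [Int.toNat_of_nonneg (by omega)]
      ring
    have h2 : ∀ f, own M f (enc z (-z.pos - 1).toNat) = none := by
      intro f
      unfold enc
      rw [hs_false hp]
      simp only [own]
      rw [← hp]
      simp [h]
    show rule M _ (enc z (-z.pos - 1).toNat) _ = none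
    unfold rule
    rw [h2]

theorem run_enc (M : TM0.Machine Γ Λ) (z : ZC Γ Λ) (n : ℕ) : ∀ z', zrun M z n = some z' →
    (cs M)^[n] (enc z) = enc z' := by
  induction n with
  | zero =>
    intro z' h
    cases h
    rfl
  | succ n ih =>
    intro z' h
    have h1 : (zrun M z n).bind (znext M) = some z' := h
    cases hc : zrun M z n with
    | none => rw [hc] at h1; cases h1
    | some c =>
      rw [hc] at h1
      rw [Function.iterate_succ_apply', ih c hc]
      exact step_some M c z' h1

theorem halts_iff (M : TM0.Machine Γ Λ) (z : ZC Γ Λ) :
    (∃ t p, (cs M)^[t] (enc z) p = none) ↔ ∃ n, zrun M z n = none := by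
  constructor
  · rintro ⟨t, p, h⟩
    refine ⟨t, ?_⟩
    cases hc : zrun M z t with
    | none => rfl
    | some c =>
      rw [run_enc M z t c hc] at h
      cases h
  · rintro ⟨n, hn⟩
    have h3 : ∀ n, zrun M z n = none → ∃ b m, zrun M z m = some b ∧ znext M b = none := by
      intro n
      induction n with
      | zero =>
        intro h
        cases h
      | succ n ih =>
        intro h
        have h1 : (zrun M z n).bind (znext M) = none := h
        cases hc : zrun M z n with
        | none => exact ih hc
        | some c =>
          rw [hc] at h1
          exact ⟨c, n, hc, h1⟩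
    obtain ⟨b, m, h1, h2⟩ := h3 n hn
    obtain ⟨p, hp⟩ := step_none M b h2
    refine ⟨m + 1, p, ?_⟩
    rw [Function.iterate_succ_apply', run_enc M z m b h1]
    exact hp

end Ca

theorem ca : S_ca := by
  intro Γ Λ _ _ _ _ M
  obtain ⟨K, ⟨e⟩⟩ := Finite.exists_equiv_fin (Ca.D Γ Λ)
  set ρ : Option (Fin K) → Fin K → Fin K → Fin K :=
    fun l b d => e (Ca.rule M (l.map e.symm) (e.symm b) (e.symm d)) with hρ
  set q₀ : Fin K := e (some (default, default, none)) with hq₀
  refine ⟨K, ρ, q₀, e none, fun γ => e (some (γ, default, some (default, true))),
    fun γ => e (some (γ, default, none)), ?_, ?_, fun l => ?_⟩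
  · exact e.injective.ne (by simp)
  · simp only [hρ, hq₀, Option.map_some, Equiv.symm_apply_apply]
    congr 1
  · have hstep : ∀ c : ℕ → Ca.D Γ Λ, cstep ρ (fun p => e (c p)) = fun p => e (Ca.cs M c p) := by
      intro c
      funext p
      unfold cstep Ca.cs
      simp only [hρ, Equiv.symm_apply_apply]
      congr 2
      split_ifs with h
      · rfl
      · simp
    have hit : ∀ (t : ℕ) (c : ℕ → Ca.D Γ Λ),
        (cstep ρ)^[t] (fun p => e (c p)) = fun p => e ((Ca.cs M)^[t] c p) := by
      intro t
      induction t with
      | zero => intro c; rfl
      | succ t ih =>
        intro c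
        rw [Function.iterate_succ_apply, hstep, ih, Function.iterate_succ_apply]
    have hconf : conf q₀ ((fun γ => e (some (γ, default, some (default, true))))
        (l.getD 0 default) :: l.tail.map (fun γ => e (some (γ, default, none)))) =
        fun p => e (Ca.enc (zinit l : ZC Γ Λ) p) := by
      funext p
      rcases p with _ | p
      · have h0 : Ca.enc (zinit l : ZC Γ Λ) 0 =
            some (l.getD 0 default, default, some (default, true)) := by
          unfold Ca.enc
          rw [Ca.hs_true (by rfl)]
          rfl
        rw [h0]
        rfl
      · show (l.tail.map (fun γ => e (some (γ, default, none)))).getD p q₀ = _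
        have h1 : Ca.enc (zinit l : ZC Γ Λ) (p + 1) = some (l.getD (p + 1) default, default, none) := by
          unfold Ca.enc
          rw [Ca.hs_none (by simp [zinit]; omega) (by simp [zinit]; omega)]
          have h2 : (0 : ℤ) ≤ ((p + 1 : ℕ) : ℤ) := Int.natCast_nonneg _
          have h3 : ¬ (0 : ℤ) ≤ -((p + 1 : ℕ) : ℤ) - 1 := by omega
          simp only [zinit, if_pos h2, if_neg h3, Int.toNat_natCast]
        rw [h1]
        rcases lt_or_ge p l.tail.length with hp | hp
        · rw [List.getD_eq_getElem _ _ (by simpa using hp), List.getElem_map, List.getElem_tail]
          rw [List.getD_eq_getElem _ _ (by rw [List.length_tail] at hp; omega)]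
        · rw [List.getD_eq_default _ _ (by simpa using hp)]
          rw [List.getD_eq_default _ _ (by rw [List.length_tail] at hp; omega)]
    rw [hconf, ← Ca.halts_iff]
    constructor
    · rintro ⟨t, p, h⟩
      rw [hit] at h
      exact ⟨t, p, e.injective h⟩
    · rintro ⟨t, p, h⟩
      refine ⟨t, p, ?_⟩
      rw [hit]
      exact congrArg e h

end Pool.Agent.Q206.UE
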