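import Pool.Agent.Q206.UE.Stm

/-!
# Update evolution, job enc (helper299): the initial layer as a computable list of triples
-/

set_option autoImplicit false

namespace Pool.Agent.Q206.UE

namespace Enc

variable {K : ℕ}

/-- the number of a world of the layer with the cells `0, …, m` -/
def en (m : ℕ) : LW → ℕ
  | .tip => 0
  | .res p => p + 1
  | .st p => m + 2 + p

/-- the world with the given number -/
def de (m u : ℕ) : LW := if u = 0 then .tip else if u ≤ m + 1 then .res (u - 1) else .st (u - (m + 2))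

theorem de_en {m : ℕ} {x : LW} (hx : ok m x) : de m (en m x) = x := by
  rcases x with _ | p | p
  · rfl
  · have : p ≤ m := hx
    show de m (p + 1) = .res p
    unfold de
    rw [if_neg (by omega), if_pos (by omega)]
    rfl
  · show de m (m + 2 + p) = .st p
    unfold de
    rw [if_neg (by omega), if_neg (by omega)]
    congr 1
    omega

theorem en_lt {m : ℕ} {x : LW} (hx : ok m x) : en m x < 2 * m + 2 := by
  rcases x with _ | p | p
  · show 0 < 2 * m + 2
    omega
  · have : p ≤ m := hx
    show p + 1 < 2 * m + 2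
    omega
  · have : p < m := hx
    show m + 2 + p < 2 * m + 2
    omega

theorem ok_de {m u : ℕ} (hu : u < 2 * m + 2) : ok m (de m u) := by
  unfold de
  split_ifs with h1 h2
  · trivial
  · show u - 1 ≤ m
    omega
  · show u - (m + 2) < m
    omega

theorem en_de {m u : ℕ} : en m (de m u) = u := by
  unfold de
  split_ifs with h1 h2
  · exact h1.symm
  · show u - 1 + 1 = u
    omega
  · show m + 2 + (u - (m + 2)) = u
    omega

theorem ag_num (a : Ag K) : ag (num a) = a := by
  rcases a with _ | _ | _ | _ | _ | _ | a <;> simp [ag, num]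

theorem num_ag (i : Fin (K + 6)) : num (ag i) = i := by
  apply Fin.ext
  unfold ag
  split_ifs with h1 h2 h3 h4 h5 h6 h7
  · simp [num, h1]
  · simp [num, h2]
  · simp [num, h3]
  · simp [num, h4]
  · simp [num, h5]
  · simp [num, h6]
  · simp only [num]
    omega
  · exfalso
    have := i.2
    omega

/-- a list of triples -/
abbrev TL (K : ℕ) : Type := List (Fin (K + 6) × ℕ × ℕ)

def P1 (_w : List (Fin K)) : TL K := [(num .C, 0, 0), (num .L, 0, 0), (num .R, 0, 0), (num .X, 0, 0), (num .T, 0, 0)]
def P2 (w : List (Fin K)) : TL K := (List.range (w.length + 1)).map fun p => (num .C, p + 1, p + 1)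
def P3 (w : List (Fin K)) : TL K := (List.range w.length).map fun p => (num .C, p + 1, w.length + 2 + p)
def P4 (w : List (Fin K)) : TL K := [(num .L, 0, w.length + 1)]
def P5 (w : List (Fin K)) : TL K := (List.range w.length).map fun p => (num .L, p + 2, p + 1)
def P6 (w : List (Fin K)) : TL K := (List.range w.length).map fun p => (num .L, p + 2, w.length + 2 + p)
def P7 (w : List (Fin K)) : TL K := [(num .R, w.length + 1, 0)]
def P8 (w : List (Fin K)) : TL K := (List.range w.length).map fun p => (num .R, p + 1, p + 2)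
def P9 (w : List (Fin K)) : TL K :=
  (List.range (w.length - 1)).map fun p => (num .R, p + 1, w.length + 2 + (p + 1))
def P10 (w : List (Fin K)) : TL K := (List.range (w.length + 1)).map fun p => (num .T, p + 1, p + 1)
def P11 (w : List (Fin K)) : TL K := (List.range (2 * w.length + 2)).flatMap fun u =>
  (List.range (2 * w.length + 2)).map fun v => (num .U, u, v)
def P12 (_w : List (Fin K)) : TL K := (List.finRange K).map fun a => (num (.V a), 0, 0)
def P13 (w : List (Fin K)) : TL K := (List.finRange K).flatMap fun a =>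
  (List.range (w.length + 1)).map fun p => (num (.V a), p + 1, p + 1)
def P14 (q₀ : Fin K) (w : List (Fin K)) : TL K :=
  (List.range w.length).map fun p => (num (.V (w.getD p q₀)), w.length + 2 + p, p + 1)

def T (q₀ : Fin K) (w : List (Fin K)) : TL K :=
  P1 w ++ (P2 w ++ (P3 w ++ (P4 w ++ (P5 w ++ (P6 w ++ (P7 w ++ (P8 w ++ (P9 w ++ (P10 w ++
    (P11 w ++ (P12 w ++ (P13 w ++ P14 q₀ w))))))))))))

theorem mem_T (q₀ : Fin K) (w : List (Fin K)) (i : Fin (K + 6)) (u v : ℕ) :
    (i, u, v) ∈ T q₀ w ↔ ∃ x y, ok w.length x ∧ ok w.length y ∧ u = en w.length x ∧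
      v = en w.length y ∧ LRel (conf q₀ w) w.length (ag i) x y := by
  constructor
  · intro h
    simp only [T, List.mem_append] at h
    rcases h with h | h | h | h | h | h | h | h | h | h | h | h | h | h
    · simp only [P1, List.mem_cons, Prod.mk.injEq, List.not_mem_nil, or_false] at h
      rcases h with ⟨rfl, rfl, rfl⟩ | ⟨rfl, rfl, rfl⟩ | ⟨rfl, rfl, rfl⟩ | ⟨rfl, rfl, rfl⟩ |
        ⟨rfl, rfl, rfl⟩
      · exact ⟨.tip, .tip, trivial, trivial, rfl, rfl, by rw [ag_num]; exact .Ctt⟩
      · exact ⟨.tip, .tip, trivial, trivial, rfl, rfl, by rw [ag_num]; exact .Ltt⟩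
      · exact ⟨.tip, .tip, trivial, trivial, rfl, rfl, by rw [ag_num]; exact .Rtt⟩
      · exact ⟨.tip, .tip, trivial, trivial, rfl, rfl, by rw [ag_num]; exact .Xtt⟩
      · exact ⟨.tip, .tip, trivial, trivial, rfl, rfl, by rw [ag_num]; exact .Ttt⟩
    · simp only [P2, List.mem_map, List.mem_range, Prod.mk.injEq] at h
      obtain ⟨p, hp, rfl, rfl, rfl⟩ := h
      exact ⟨.res p, .res p, Nat.lt_succ_iff.1 hp, Nat.lt_succ_iff.1 hp, rfl, rfl,
        by rw [ag_num]; exact .Crr p⟩
    · simp only [P3, List.mem_map, List.mem_range, Prod.mk.injEq] at h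
      obtain ⟨p, hp, rfl, rfl, rfl⟩ := h
      exact ⟨.res p, .st p, hp.le, hp, rfl, rfl, by rw [ag_num]; exact .Crs p⟩
    · simp only [P4, List.mem_singleton, Prod.mk.injEq] at h
      obtain ⟨rfl, rfl, rfl⟩ := h
      exact ⟨.tip, .res w.length, trivial, le_rfl, rfl, rfl, by rw [ag_num]; exact .Ltr⟩
    · simp only [P5, List.mem_map, List.mem_range, Prod.mk.injEq] at h
      obtain ⟨p, hp, rfl, rfl, rfl⟩ := h
      exact ⟨.res (p + 1), .res p, hp, hp.le, rfl, rfl, by rw [ag_num]; exact .Lrr p⟩
    · simp only [P6, List.mem_map, List.mem_range, Prod.mk.injEq] at h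
      obtain ⟨p, hp, rfl, rfl, rfl⟩ := h
      exact ⟨.res (p + 1), .st p, hp, hp, rfl, rfl, by rw [ag_num]; exact .Lrs p⟩
    · simp only [P7, List.mem_singleton, Prod.mk.injEq] at h
      obtain ⟨rfl, rfl, rfl⟩ := h
      exact ⟨.res w.length, .tip, le_rfl, trivial, rfl, rfl, by rw [ag_num]; exact .Rrt⟩
    · simp only [P8, List.mem_map, List.mem_range, Prod.mk.injEq] at h
      obtain ⟨p, hp, rfl, rfl, rfl⟩ := h
      exact ⟨.res p, .res (p + 1), hp.le, hp, rfl, rfl, by rw [ag_num]; exact .Rrr p⟩
    · simp only [P9, List.mem_map, List.mem_range, Prod.mk.injEq] at h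
      obtain ⟨p, hp, rfl, rfl, rfl⟩ := h
      exact ⟨.res p, .st (p + 1), (show p ≤ w.length by omega), (show p + 1 < w.length by omega),
        rfl, rfl, by rw [ag_num]; exact .Rrs p⟩
    · simp only [P10, List.mem_map, List.mem_range, Prod.mk.injEq] at h
      obtain ⟨p, hp, rfl, rfl, rfl⟩ := h
      exact ⟨.res p, .res p, Nat.lt_succ_iff.1 hp, Nat.lt_succ_iff.1 hp, rfl, rfl,
        by rw [ag_num]; exact .Trr p⟩
    · simp only [P11, List.mem_flatMap, List.mem_map, List.mem_range, Prod.mk.injEq] at h
      obtain ⟨a, ha, b, hb, rfl, rfl, rfl⟩ := h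
      exact ⟨de w.length a, de w.length b, ok_de ha, ok_de hb, en_de.symm, en_de.symm,
        by rw [ag_num]; exact .U _ _⟩
    · simp only [P12, List.mem_map, Prod.mk.injEq] at h
      obtain ⟨a, _, rfl, rfl, rfl⟩ := h
      exact ⟨.tip, .tip, trivial, trivial, rfl, rfl, by rw [ag_num]; exact .Vtt a⟩
    · simp only [P13, List.mem_flatMap, List.mem_map, List.mem_range, Prod.mk.injEq] at h
      obtain ⟨a, _, p, hp, rfl, rfl, rfl⟩ := h
      exact ⟨.res p, .res p, Nat.lt_succ_iff.1 hp, Nat.lt_succ_iff.1 hp, rfl, rfl,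
        by rw [ag_num]; exact .Vrr a p⟩
    · simp only [P14, List.mem_map, List.mem_range, Prod.mk.injEq] at h
      obtain ⟨p, hp, rfl, rfl, rfl⟩ := h
      exact ⟨.st p, .res p, hp, hp.le, rfl, rfl, by rw [ag_num]; exact .Vsr p⟩
  · rintro ⟨x, y, hx, hy, rfl, rfl, h⟩
    rw [← num_ag i]
    generalize ag i = a at h
    cases h with
    | Ctt => simp [T, P1, en]
    | Crr p =>
      have hm : (num .C, en w.length (.res p), en w.length (.res p)) ∈ P2 w :=
        List.mem_map.2 ⟨p, List.mem_range.2 (Nat.lt_succ_iff.2 hx), rfl⟩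
      simp only [T, List.mem_append, hm, true_or, or_true]
    | Crs p =>
      have hm : (num .C, en w.length (.res p), en w.length (.st p)) ∈ P3 w :=
        List.mem_map.2 ⟨p, List.mem_range.2 hy, rfl⟩
      simp only [T, List.mem_append, hm, true_or, or_true]
    | Ltt => simp [T, P1, en]
    | Ltr =>
      have hm : (num .L, en w.length .tip, en w.length (.res w.length)) ∈ P4 w :=
        List.mem_singleton.2 rfl
      simp only [T, List.mem_append, hm, true_or, or_true]
    | Lrr p =>
      have hm : (num .L, en w.length (.res (p + 1)), en w.length (.res p)) ∈ P5 w :=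
        List.mem_map.2 ⟨p, List.mem_range.2 hx, rfl⟩
      simp only [T, List.mem_append, hm, true_or, or_true]
    | Lrs p =>
      have hm : (num .L, en w.length (.res (p + 1)), en w.length (.st p)) ∈ P6 w :=
        List.mem_map.2 ⟨p, List.mem_range.2 hy, rfl⟩
      simp only [T, List.mem_append, hm, true_or, or_true]
    | Rtt => simp [T, P1, en]
    | Rrt =>
      have hm : (num .R, en w.length (.res w.length), en w.length .tip) ∈ P7 w :=
        List.mem_singleton.2 rfl
      simp only [T, List.mem_append, hm, true_or, or_true]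
    | Rrr p =>
      have hm : (num .R, en w.length (.res p), en w.length (.res (p + 1))) ∈ P8 w :=
        List.mem_map.2 ⟨p, List.mem_range.2 hy, rfl⟩
      simp only [T, List.mem_append, hm, true_or, or_true]
    | Rrs p =>
      have hy' : p + 1 < w.length := hy
      have hm : (num .R, en w.length (.res p), en w.length (.st (p + 1))) ∈ P9 w :=
        List.mem_map.2 ⟨p, List.mem_range.2 (by omega), rfl⟩
      simp only [T, List.mem_append, hm, true_or, or_true]
    | Xtt => simp [T, P1, en]
    | Ttt => simp [T, P1, en]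
    | Trr p =>
      have hm : (num .T, en w.length (.res p), en w.length (.res p)) ∈ P10 w :=
        List.mem_map.2 ⟨p, List.mem_range.2 (Nat.lt_succ_iff.2 hx), rfl⟩
      simp only [T, List.mem_append, hm, true_or, or_true]
    | U =>
      have hm : (num .U, en w.length x, en w.length y) ∈ P11 w :=
        List.mem_flatMap.2 ⟨en w.length x, List.mem_range.2 (en_lt hx),
          List.mem_map.2 ⟨en w.length y, List.mem_range.2 (en_lt hy), rfl⟩⟩
      simp only [T, List.mem_append, hm, true_or, or_true]
    | Vtt a =>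
      have hm : (num (.V a), en w.length .tip, en w.length .tip) ∈ P12 w :=
        List.mem_map.2 ⟨a, List.mem_finRange a, rfl⟩
      simp only [T, List.mem_append, hm, true_or, or_true]
    | Vrr a p =>
      have hm : (num (.V a), en w.length (.res p), en w.length (.res p)) ∈ P13 w :=
        List.mem_flatMap.2 ⟨a, List.mem_finRange a,
          List.mem_map.2 ⟨p, List.mem_range.2 (Nat.lt_succ_iff.2 hx), rfl⟩⟩
      simp only [T, List.mem_append, hm, true_or, or_true]
    | Vsr p =>
      have hm : (num (.V (conf q₀ w p)), en w.length (.st p), en w.length (.res p)) ∈ P14 q₀ w :=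
        List.mem_map.2 ⟨p, List.mem_range.2 hx, rfl⟩
      simp only [T, List.mem_append, hm, true_or, or_true]

/-- the data -/
def Dt (q₀ : Fin K) (w : List (Fin K)) : FM (K + 6) := (2 * w.length + 2, T q₀ w, [])

theorem iso (q₀ : Fin K) (w : List (Fin K)) :
    Iso (toModel (Dt q₀ w)) (Lay (conf q₀ w) w.length) := by
  let e : Fin (2 * w.length + 2) ≃ {x : LW // ok w.length x} :=
    { toFun := fun u => ⟨de w.length u, ok_de u.2⟩
      invFun := fun x => ⟨en w.length x.1, en_lt x.2⟩
      left_inv := fun u => Fin.ext en_de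
      right_inv := fun x => Subtype.ext (de_en x.2) }
  refine ⟨e, fun i (u : Fin (2 * w.length + 2)) (v : Fin (2 * w.length + 2)) => ?_,
    fun a (u : Fin (2 * w.length + 2)) => ?_⟩
  · show (i, (u : ℕ), (v : ℕ)) ∈ T q₀ w ↔ LRel (conf q₀ w) w.length (ag i) (de w.length u) (de w.length v)
    rw [mem_T]
    constructor
    · rintro ⟨x, y, hx, hy, h1, h2, h⟩
      rw [h1, h2, de_en hx, de_en hy]
      exact h
    · intro h
      exact ⟨_, _, ok_de u.2, ok_de v.2, en_de.symm, en_de.symm, h⟩
  · show ((u : ℕ), a) ∈ ([] : List (ℕ × ℕ)) ↔ False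
    simp

/-! ### computability -/

theorem pr_map {f : List (Fin K) → ℕ} (hf : Primrec f) (i : Fin (K + 6))
    {g h : List (Fin K) × ℕ → ℕ} (hg : Primrec g) (hh : Primrec h) :
    Primrec fun w => (List.range (f w)).map fun p => (i, g (w, p), h (w, p)) :=
  Primrec.list_map (Primrec.list_range.comp hf)
    ((Primrec.const i).pair (hg.pair hh) : Primrec fun x : List (Fin K) × ℕ => (i, g x, h x))

theorem pr_len : Primrec fun w : List (Fin K) => w.length := Primrec.list_length

theorem pr_len1 : Primrec fun w : List (Fin K) => w.length + 1 := Primrec.succ.comp pr_len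

theorem pr_n : Primrec fun w : List (Fin K) => 2 * w.length + 2 :=
  Primrec.nat_add.comp (Primrec.nat_mul.comp (Primrec.const 2) pr_len) (Primrec.const 2)

theorem pr_p1 : Primrec fun x : List (Fin K) × ℕ => x.2 + 1 := Primrec.succ.comp Primrec.snd

theorem pr_p2 : Primrec fun x : List (Fin K) × ℕ => x.2 + 2 :=
  Primrec.nat_add.comp Primrec.snd (Primrec.const 2)

theorem pr_s : Primrec fun x : List (Fin K) × ℕ => x.1.length + 2 + x.2 :=
  Primrec.nat_add.comp (Primrec.nat_add.comp (pr_len.comp Primrec.fst) (Primrec.const 2)) Primrec.snd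

theorem pr_s1 : Primrec fun x : List (Fin K) × ℕ => x.1.length + 2 + (x.2 + 1) :=
  Primrec.nat_add.comp (Primrec.nat_add.comp (pr_len.comp Primrec.fst) (Primrec.const 2)) pr_p1

theorem pr_V : Primrec fun a : Fin K => (num (.V a) : Fin (K + 6)) := Primrec.dom_finite _

theorem pr_T (q₀ : Fin K) : Primrec (T q₀) := by
  have h1 : Primrec (P1 (K := K)) := Primrec.const _
  have h2 : Primrec (P2 (K := K)) := pr_map pr_len1 _ pr_p1 pr_p1
  have h3 : Primrec (P3 (K := K)) := pr_map pr_len _ pr_p1 pr_s
  have h4 : Primrec (P4 (K := K)) :=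
    Primrec.list_cons.comp ((Primrec.const _).pair ((Primrec.const 0).pair pr_len1)) (Primrec.const [])
  have h5 : Primrec (P5 (K := K)) := pr_map pr_len _ pr_p2 pr_p1
  have h6 : Primrec (P6 (K := K)) := pr_map pr_len _ pr_p2 pr_s
  have h7 : Primrec (P7 (K := K)) :=
    Primrec.list_cons.comp ((Primrec.const _).pair (pr_len1.pair (Primrec.const 0))) (Primrec.const [])
  have h8 : Primrec (P8 (K := K)) := pr_map pr_len _ pr_p1 pr_p2
  have h9 : Primrec (P9 (K := K)) :=
    pr_map (Primrec.nat_sub.comp pr_len (Primrec.const 1)) _ pr_p1 pr_s1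
  have h10 : Primrec (P10 (K := K)) := pr_map pr_len1 _ pr_p1 pr_p1
  have h11 : Primrec (P11 (K := K)) := by
    refine Primrec.list_flatMap (Primrec.list_range.comp pr_n) (?_ : Primrec fun x : List (Fin K) × ℕ =>
      (List.range (2 * x.1.length + 2)).map fun v => ((num .U : Fin (K + 6)), x.2, v))
    exact Primrec.list_map (Primrec.list_range.comp (pr_n.comp Primrec.fst))
      ((Primrec.const _).pair ((Primrec.snd.comp Primrec.fst).pair Primrec.snd) :
        Primrec fun y : (List (Fin K) × ℕ) × ℕ => ((num .U : Fin (K + 6)), y.1.2, y.2))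
  have h12 : Primrec (P12 (K := K)) := Primrec.const _
  have h13 : Primrec (P13 (K := K)) := by
    refine Primrec.list_flatMap (Primrec.const _) (?_ : Primrec fun x : List (Fin K) × Fin K =>
      (List.range (x.1.length + 1)).map fun p => ((num (.V x.2) : Fin (K + 6)), p + 1, p + 1))
    exact Primrec.list_map (Primrec.list_range.comp (pr_len1.comp Primrec.fst))
      ((pr_V.comp (Primrec.snd.comp Primrec.fst)).pair
        ((Primrec.succ.comp Primrec.snd).pair (Primrec.succ.comp Primrec.snd)) :
        Primrec fun y : (List (Fin K) × Fin K) × ℕ =>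
          ((num (.V y.1.2) : Fin (K + 6)), y.2 + 1, y.2 + 1))
  have h14 : Primrec (P14 q₀) :=
    Primrec.list_map (Primrec.list_range.comp pr_len)
      ((pr_V.comp ((Primrec.list_getD q₀).comp Primrec.fst Primrec.snd)).pair (pr_s.pair pr_p1) :
        Primrec fun x : List (Fin K) × ℕ =>
          ((num (.V (x.1.getD x.2 q₀)) : Fin (K + 6)), x.1.length + 2 + x.2, x.2 + 1))
  have ap : ∀ {f g : List (Fin K) → TL K}, Primrec f → Primrec g → Primrec fun w => f w ++ g w :=
    fun hf hg => Primrec.list_append.comp hf hg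
  exact ap h1 (ap h2 (ap h3 (ap h4 (ap h5 (ap h6 (ap h7 (ap h8 (ap h9 (ap h10 (ap h11
    (ap h12 (ap h13 h14))))))))))))

end Enc

theorem enc : S_enc := by
  intro K q₀
  refine ⟨Enc.Dt q₀, ?_, Enc.iso q₀⟩
  have h : Primrec (Enc.Dt q₀) := Enc.pr_n.pair ((Enc.pr_T q₀).pair (Primrec.const []))
  exact h.to_comp

end Pool.Agent.Q206.UE
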