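import Pool.Agent.Q206.UE.Stm

/-!
# Project UE (helper206), job inf (helper184): the tree is infinite modulo bisimulation
-/

set_option autoImplicit false

namespace Pool.Agent.Q206.UE

namespace JInf

variable {K : ℕ}

/-- there is an `R`-path of length `j` to a world with an `X`-successor -/
def Path (M : Model (K + 6)) : ℕ → M.W → Prop
  | 0, w => ∃ v, M.rel (num (.X : Ag K)) w v
  | j + 1, w => ∃ v, M.rel (num (.R : Ag K)) w v ∧ Path M j v

lemma ag_X : ag (num (.X : Ag K)) = .X := by simp [ag, num]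
lemma ag_R : ag (num (.R : Ag K)) = .R := by simp [ag, num]

lemma path_bisim (M : Model (K + 6)) (Z : M.W → M.W → Prop) (hZ : IsBisim M Z) :
    ∀ (j : ℕ) (w v : M.W), Z w v → (Path M j w ↔ Path M j v) := by
  intro j
  induction j with
  | zero =>
    intro w v h
    obtain ⟨-, h1, h2⟩ := hZ w v h
    constructor
    · rintro ⟨w', hw'⟩
      obtain ⟨v', hv', -⟩ := h1 _ w' hw'
      exact ⟨v', hv'⟩
    · rintro ⟨v', hv'⟩
      obtain ⟨w', hw', -⟩ := h2 _ v' hv'
      exact ⟨w', hw'⟩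
  | succ j ih =>
    intro w v h
    obtain ⟨-, h1, h2⟩ := hZ w v h
    constructor
    · rintro ⟨w', hw', hp⟩
      obtain ⟨v', hv', hz⟩ := h1 _ w' hw'
      exact ⟨v', hv', (ih w' v' hz).1 hp⟩
    · rintro ⟨v', hv', hp⟩
      obtain ⟨w', hw', hz⟩ := h2 _ v' hv'
      exact ⟨w', hw', (ih w' v' hz).2 hp⟩

lemma path_iso (M N : Model (K + 6)) (e : M.W ≃ N.W)
    (he : ∀ i u v, M.rel i u v ↔ N.rel i (e u) (e v)) :
    ∀ (j : ℕ) (w : M.W), Path M j w ↔ Path N j (e w) := by
  intro j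
  induction j with
  | zero =>
    intro w
    constructor
    · rintro ⟨v, hv⟩
      exact ⟨e v, (he _ w v).1 hv⟩
    · rintro ⟨v, hv⟩
      refine ⟨e.symm v, (he _ w _).2 ?_⟩
      rw [Equiv.apply_symm_apply]
      exact hv
  | succ j ih =>
    intro w
    constructor
    · rintro ⟨v, hv, hp⟩
      exact ⟨e v, (he _ w v).1 hv, (ih v).1 hp⟩
    · rintro ⟨v, hv, hp⟩
      refine ⟨e.symm v, (he _ w _).2 ?_, (ih _).2 ?_⟩
      · rw [Equiv.apply_symm_apply]
        exact hv
      · rw [Equiv.apply_symm_apply]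
        exact hp

lemma path_tree (M : Model (K + 6)) (A : Action (K + 6)) :
    ∀ (j n : ℕ) (u : (layer M A n).W),
      Path (tree M A) j (⟨n, u⟩ : Σ n, (layer M A n).W) ↔ Path (layer M A n) j u := by
  intro j
  induction j with
  | zero =>
    intro n u
    constructor
    · rintro ⟨y, hy⟩
      cases hy with
      | mk _ _ v h => exact ⟨v, h⟩
    · rintro ⟨v, hv⟩
      exact ⟨⟨n, v⟩, TreeRel.mk n u v hv⟩
  | succ j ih =>
    intro n u
    constructor
    · rintro ⟨y, hy, hp⟩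
      cases hy with
      | mk _ _ v h => exact ⟨v, h, (ih n v).1 hp⟩
    · rintro ⟨v, hv, hp⟩
      exact ⟨⟨n, v⟩, TreeRel.mk n u v hv, (ih n v).2 hp⟩

lemma path_st (c : ℕ → Fin K) (N : ℕ) : ∀ (j p : ℕ) (h : ok N (.st p)),
    ¬ Path (Lay c N) j ⟨.st p, h⟩ := by
  intro j p h hp
  cases j with
  | zero =>
    obtain ⟨v, hv⟩ := hp
    have hv' : LRel c N (ag (num (.X : Ag K))) (.st p) v.1 := hv
    rw [ag_X] at hv'
    cases hv'
  | succ j =>
    obtain ⟨v, hv, -⟩ := hp
    have hv' : LRel c N (ag (num (.R : Ag K))) (.st p) v.1 := hv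
    rw [ag_R] at hv'
    cases hv'

lemma path_res (c : ℕ → Fin K) (N : ℕ) : ∀ (j p : ℕ) (h : ok N (.res p)),
    Path (Lay c N) j ⟨.res p, h⟩ → N + 1 ≤ j + p := by
  intro j
  induction j with
  | zero =>
    rintro p h ⟨v, hv⟩
    have hv' : LRel c N (ag (num (.X : Ag K))) (.res p) v.1 := hv
    rw [ag_X] at hv'
    cases hv'
  | succ j ih =>
    rintro p h ⟨⟨v, hvo⟩, hv, hp⟩
    have hv' : LRel c N (ag (num (.R : Ag K))) (.res p) v := hv
    rw [ag_R] at hv'
    cases hv' with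
    | Rrt => omega
    | Rrr =>
      have := ih (p + 1) hvo hp
      omega
    | Rrs => exact absurd hp (path_st c N j (p + 1) hvo)

lemma path_exists (c : ℕ → Fin K) (N : ℕ) : ∀ (k : ℕ) (hk : k ≤ N) (h : ok N (.res (N - k))),
    Path (Lay c N) (k + 1) ⟨.res (N - k), h⟩ := by
  intro k
  induction k with
  | zero =>
    intro _ h
    refine ⟨⟨.tip, trivial⟩, ?_, ⟨.tip, trivial⟩, ?_⟩
    · show LRel c N (ag (num (.R : Ag K))) (.res N) .tip
      rw [ag_R]
      exact LRel.Rrt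
    · show LRel c N (ag (num (.X : Ag K))) .tip .tip
      rw [ag_X]
      exact LRel.Xtt
  | succ k ih =>
    intro hk h
    have h1 : ok N (.res (N - k)) := by
      show N - k ≤ N
      omega
    refine ⟨⟨.res (N - k), h1⟩, ?_, ih (by omega) h1⟩
    show LRel c N (ag (num (.R : Ag K))) (.res (N - (k + 1))) (.res (N - k))
    rw [ag_R, show N - k = N - (k + 1) + 1 by omega]
    exact LRel.Rrr _

lemma path_zero (c : ℕ → Fin K) (N : ℕ) (h : ok N (.res 0)) :
    Path (Lay c N) (N + 1) ⟨.res 0, h⟩ := by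
  have h1 : ok N (.res (N - N)) := by
    show N - N ≤ N
    omega
  have h2 := path_exists c N N le_rfl h1
  have h3 : (⟨.res (N - N), h1⟩ : (Lay c N).W) = ⟨.res 0, h⟩ := by
    refine Subtype.ext ?_
    show LW.res (N - N) = LW.res 0
    rw [Nat.sub_self]
  rw [h3] at h2
  exact h2

end JInf

open JInf in
/-- JOB inf. -/
theorem t_inf : S_inf := by
  intro K m c M A hiso hfin
  obtain ⟨F, hF⟩ := hfin
  choose e he _ using hiso
  let x : ℕ → (tree M A).W := fun n => (⟨n, (e n).symm ⟨.res 0, Nat.zero_le _⟩⟩ : Σ n, (layer M A n).W)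
  have hx : ∀ n j, Path (tree M A) j (x n) ↔
      Path (Lay (c n) (m + n)) j ⟨.res 0, Nat.zero_le _⟩ := by
    intro n j
    have h1 := path_tree M A j n ((e n).symm ⟨.res 0, Nat.zero_le _⟩)
    have h2 := path_iso _ _ (e n) (he n) j ((e n).symm ⟨.res 0, Nat.zero_le _⟩)
    rw [Equiv.apply_symm_apply] at h2
    exact h1.trans h2
  choose v hv hb using hF
  have hinj : ∀ n n', v (x n) = v (x n') → n = n' := by
    intro n n' h
    obtain ⟨Z, hZ, hz⟩ := hb (x n)
    obtain ⟨Z', hZ', hz'⟩ := hb (x n')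
    have key : ∀ j, Path (Lay (c n) (m + n)) j ⟨.res 0, Nat.zero_le _⟩ ↔
        Path (Lay (c n') (m + n')) j ⟨.res 0, Nat.zero_le _⟩ := by
      intro j
      rw [← hx, ← hx, path_bisim _ Z hZ j _ _ hz, path_bisim _ Z' hZ' j _ _ hz', h]
    have h1 := path_res _ _ _ _ _ ((key _).1 (path_zero (c n) (m + n) (Nat.zero_le _)))
    have h2 := path_res _ _ _ _ _ ((key _).2 (path_zero (c n') (m + n') (Nat.zero_le _)))
    omega
  have hinj' : Function.Injective fun n : ℕ => (⟨v (x n), hv (x n)⟩ : F) := by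
    intro n n' h
    exact hinj n n' (congrArg Subtype.val h)
  exact not_injective_infinite_finite _ hinj'

end Pool.Agent.Q206.UE
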