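import Pool.Agent.Q206.UE.Stm

/-! # Job pre (helper151): the truth of the preconditions in the explicit layers -/

set_option autoImplicit false

namespace Pool.Agent.Q206.UE.JPre

open Pool.Agent.Q206.UE

theorem ag_num {K : ℕ} (i : Ag K) : ag (num i) = i := by
  cases i with
  | C => simp [ag, num]
  | L => simp [ag, num]
  | R => simp [ag, num]
  | X => simp [ag, num]
  | T => simp [ag, num]
  | U => simp [ag, num]
  | V a => simp [ag, num]

section

variable {k : ℕ} (M : Model k)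

theorem holds_top (w : M.W) : Holds M top w := by
  intro h
  exact h.2 h.1

theorem holds_dia (i : Fin k) (φ : Fml k) (w : M.W) :
    Holds M (dia i φ) w ↔ ∃ v, M.rel i w v ∧ Holds M φ v := by
  show (¬ ∀ v, M.rel i w v → ¬ Holds M φ v) ↔ _
  push Not
  rfl

theorem holds_orF (φ ψ : Fml k) (w : M.W) : Holds M (orF φ ψ) w ↔ Holds M φ w ∨ Holds M ψ w := by
  show (¬ (¬ Holds M φ w ∧ ¬ Holds M ψ w)) ↔ _
  tauto

theorem holds_disj (l : List (Fml k)) (w : M.W) : Holds M (disj l) w ↔ ∃ φ ∈ l, Holds M φ w := by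
  induction l with
  | nil =>
    refine ⟨fun h => absurd (holds_top M w) h, ?_⟩
    rintro ⟨φ, h, -⟩
    exact absurd h (List.not_mem_nil)
  | cons φ l ih =>
    show Holds M (orF φ (disj l)) w ↔ _
    rw [holds_orF, ih]
    simp

end

section

variable {K : ℕ} {c : ℕ → Fin K} {N : ℕ}

theorem holds_TIP (w : (Lay c N).W) : Holds (Lay c N) (TIP K) w ↔ w.1 = .tip := by
  unfold TIP
  rw [holds_dia]
  constructor
  · rintro ⟨v, h, -⟩
    change LRel c N (ag (num .X)) w.1 v.1 at h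
    rw [ag_num] at h
    cases h' : w.1 with
    | tip => rfl
    | res p => rw [h'] at h; cases h
    | st p => rw [h'] at h; cases h
  · intro h
    refine ⟨⟨.tip, trivial⟩, ?_, holds_top _ _⟩
    change LRel c N (ag (num .X)) w.1 .tip
    rw [ag_num, h]
    exact LRel.Xtt

theorem holds_LIV (w : (Lay c N).W) : Holds (Lay c N) (LIV K) w ↔ w.1 = .tip ∨ ∃ p, w.1 = .res p := by
  unfold LIV
  rw [holds_dia]
  constructor
  · rintro ⟨v, h, -⟩
    change LRel c N (ag (num .T)) w.1 v.1 at h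
    rw [ag_num] at h
    cases h' : w.1 with
    | tip => exact Or.inl rfl
    | res p => exact Or.inr ⟨p, rfl⟩
    | st p => rw [h'] at h; cases h
  · intro h
    refine ⟨w, ?_, holds_top _ _⟩
    change LRel c N (ag (num .T)) w.1 w.1
    rw [ag_num]
    rcases h with h | ⟨p, h⟩
    · rw [h]; exact LRel.Ttt
    · rw [h]; exact LRel.Trr p

theorem holds_PHI (a : Fin K) (w : (Lay c N).W) :
    Holds (Lay c N) (PHI a) w ↔ ∃ p, w.1 = .st p ∧ a = c p := by
  show Holds (Lay c N) (dia (num (.V a)) top) w ∧ ¬ Holds (Lay c N) (LIV K) w ↔ _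
  rw [holds_dia, holds_LIV]
  constructor
  · rintro ⟨⟨v, h, -⟩, hn⟩
    push Not at hn
    change LRel c N (ag (num (.V a))) w.1 v.1 at h
    rw [ag_num] at h
    cases h' : w.1 with
    | tip => exact absurd h' hn.1
    | res p => exact absurd h' (hn.2 p)
    | st p =>
      rw [h'] at h
      generalize v.1 = x at h
      cases h
      exact ⟨p, rfl, rfl⟩
  · rintro ⟨p, h, rfl⟩
    have hw := w.2
    rw [h] at hw
    have hp : p < N := hw
    refine ⟨⟨⟨.res p, hp.le⟩, ?_, holds_top _ _⟩, ?_⟩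
    · change LRel c N (ag (num (.V (c p)))) w.1 (.res p)
      rw [ag_num, h]
      exact LRel.Vsr p
    · rw [h]
      simp

theorem not_HALT {h : Fin K} (hh : ∀ p < N, c p ≠ h) (w : (Lay c N).W) : ¬ Holds (Lay c N) (HALT h) w := by
  unfold HALT
  rw [holds_dia]
  rintro ⟨v, -, hv⟩
  rw [holds_PHI] at hv
  obtain ⟨p, h1, h2⟩ := hv
  have hw := v.2
  rw [h1] at hw
  exact hh p hw h2.symm

/-- left -/
theorem see_L (a : Fin K) (w : (Lay c N).W) (p : ℕ) (hw : w.1 = .res p) :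
    Holds (Lay c N) (dia (num .L) (PHI a)) w ↔ p ≠ 0 ∧ a = c (p - 1) := by
  rw [holds_dia]
  constructor
  · rintro ⟨v, h, hv⟩
    change LRel c N (ag (num .L)) w.1 v.1 at h
    rw [ag_num, hw] at h
    rw [holds_PHI] at hv
    obtain ⟨q, h1, h2⟩ := hv
    rw [h1] at h
    cases h
    exact ⟨Nat.succ_ne_zero _, by rw [Nat.add_sub_cancel]; exact h2⟩
  · rintro ⟨h0, h⟩
    obtain ⟨q, rfl⟩ := Nat.exists_eq_succ_of_ne_zero h0
    have hw2 := w.2
    rw [hw] at hw2
    have hq : q < N := hw2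
    refine ⟨⟨.st q, hq⟩, ?_, ?_⟩
    · change LRel c N (ag (num .L)) w.1 (.st q)
      rw [ag_num, hw]
      exact LRel.Lrs q
    · rw [holds_PHI]
      exact ⟨q, rfl, h⟩

/-- center -/
theorem see_C (a : Fin K) (w : (Lay c N).W) (p : ℕ) (hw : w.1 = .res p) :
    Holds (Lay c N) (dia (num .C) (PHI a)) w ↔ p < N ∧ a = c p := by
  rw [holds_dia]
  constructor
  · rintro ⟨v, h, hv⟩
    change LRel c N (ag (num .C)) w.1 v.1 at h
    rw [ag_num, hw] at h
    rw [holds_PHI] at hv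
    obtain ⟨q, h1, h2⟩ := hv
    have hv2 := v.2
    rw [h1] at h hv2
    cases h
    exact ⟨hv2, h2⟩
  · rintro ⟨h0, h⟩
    refine ⟨⟨.st p, h0⟩, ?_, ?_⟩
    · change LRel c N (ag (num .C)) w.1 (.st p)
      rw [ag_num, hw]
      exact LRel.Crs p
    · rw [holds_PHI]
      exact ⟨p, rfl, h⟩

/-- right -/
theorem see_R (a : Fin K) (w : (Lay c N).W) (p : ℕ) (hw : w.1 = .res p) :
    Holds (Lay c N) (dia (num .R) (PHI a)) w ↔ p + 1 < N ∧ a = c (p + 1) := by
  rw [holds_dia]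
  constructor
  · rintro ⟨v, h, hv⟩
    change LRel c N (ag (num .R)) w.1 v.1 at h
    rw [ag_num, hw] at h
    rw [holds_PHI] at hv
    obtain ⟨q, h1, h2⟩ := hv
    have hv2 := v.2
    rw [h1] at h hv2
    cases h
    exact ⟨hv2, h2⟩
  · rintro ⟨h0, h⟩
    refine ⟨⟨.st (p + 1), h0⟩, ?_, ?_⟩
    · change LRel c N (ag (num .R)) w.1 (.st (p + 1))
      rw [ag_num, hw]
      exact LRel.Rrs p
    · rw [holds_PHI]
      exact ⟨p + 1, rfl, h⟩

theorem seen_none (i : Ag K) (w : (Lay c N).W) :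
    Holds (Lay c N) (seen i none) w ↔ ∀ a, ¬ Holds (Lay c N) (dia (num i) (PHI a)) w := by
  show (¬ Holds (Lay c N) (disj ((List.finRange K).map fun a => dia (num i) (PHI a))) w) ↔ _
  rw [holds_disj]
  simp

theorem seen_L (l : Option (Fin K)) (w : (Lay c N).W) (p : ℕ) (hw : w.1 = .res p) :
    Holds (Lay c N) (seen .L l) w ↔ l = if p = 0 then none else some (c (p - 1)) := by
  cases l with
  | none =>
    rw [seen_none]
    by_cases hp : p = 0
    · rw [if_pos hp]
      refine ⟨fun _ => rfl, fun _ a => ?_⟩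
      rw [see_L a w p hw]
      exact fun h => h.1 hp
    · rw [if_neg hp]
      refine ⟨fun h => absurd ((see_L (c (p - 1)) w p hw).2 ⟨hp, rfl⟩) (h _), fun h => by simp at h⟩
  | some a =>
    show Holds (Lay c N) (dia (num .L) (PHI a)) w ↔ _
    rw [see_L a w p hw]
    by_cases hp : p = 0
    · simp [hp]
    · simp [hp]

theorem seen'_iff {q₀ : Fin K} (hc : ∀ p, N ≤ p → c p = q₀) (i : Ag K) (w : (Lay c N).W) (r : ℕ)
    (hr : ∀ a, Holds (Lay c N) (dia (num i) (PHI a)) w ↔ r < N ∧ a = c r) (b : Fin K) :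
    Holds (Lay c N) (seen' q₀ i b) w ↔ b = c r := by
  have h1 : Holds (Lay c N) (seen i (some b)) w ↔ r < N ∧ b = c r := hr b
  have h2 : Holds (Lay c N) (seen i none) w ↔ ¬ r < N := by
    rw [seen_none]
    constructor
    · intro h h3
      exact h (c r) ((hr _).2 ⟨h3, rfl⟩)
    · intro h a ha
      exact h ((hr a).1 ha).1
  unfold seen'
  by_cases hb : b = q₀
  · rw [if_pos hb, holds_orF, h1, h2]
    by_cases hN : r < N
    · simp [hN]
    · have h3 := hc r (not_lt.1 hN)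
      simp [hN, h3, hb]
  · rw [if_neg hb, h1]
    constructor
    · exact fun h => h.2
    · intro h
      refine ⟨?_, h⟩
      by_contra hN
      exact hb (h.trans (hc r (not_lt.1 hN)))

theorem holds_RULE (ρ : Option (Fin K) → Fin K → Fin K → Fin K) {q₀ : Fin K} (hc : ∀ p, N ≤ p → c p = q₀)
    (a : Fin K) (w : (Lay c N).W) (p : ℕ) (hw : w.1 = .res p) :
    Holds (Lay c N) (RULE ρ q₀ a) w ↔ a = cstep ρ c p := by
  have e1 := fun l => seen_L l w p hw
  have e2 := seen'_iff hc .C w p (fun a => see_C a w p hw)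
  have e3 := seen'_iff hc .R w (p + 1) (fun a => see_R a w p hw)
  unfold RULE
  rw [holds_disj]
  constructor
  · rintro ⟨φ, hφ, hh⟩
    rw [List.mem_flatMap] at hφ
    obtain ⟨l, -, hφ⟩ := hφ
    rw [List.mem_flatMap] at hφ
    obtain ⟨b, -, hφ⟩ := hφ
    rw [List.mem_flatMap] at hφ
    obtain ⟨d, -, hφ⟩ := hφ
    split_ifs at hφ with h1
    · rw [List.mem_singleton] at hφ
      rw [hφ] at hh
      obtain ⟨h2, h3, h4⟩ := hh
      rw [e1] at h2
      rw [e2] at h3
      rw [e3] at h4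
      rw [← h1, h2, h3, h4]
      rfl
    · exact absurd hφ (List.not_mem_nil)
  · intro h
    refine ⟨.and (seen .L (if p = 0 then none else some (c (p - 1))))
      (.and (seen' q₀ .C (c p)) (seen' q₀ .R (c (p + 1)))), ?_, (e1 _).2 rfl, (e2 _).2 rfl, (e3 _).2 rfl⟩
    rw [List.mem_flatMap]
    refine ⟨if p = 0 then none else some (c (p - 1)), ?_, ?_⟩
    · by_cases hp : p = 0
      · simp [hp]
      · simp [hp]
    · rw [List.mem_flatMap]
      refine ⟨c p, List.mem_finRange _, ?_⟩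
      rw [List.mem_flatMap]
      refine ⟨c (p + 1), List.mem_finRange _, ?_⟩
      have h' : ρ (if p = 0 then none else some (c (p - 1))) (c p) (c (p + 1)) = a := h.symm
      rw [if_pos h', List.mem_singleton]

end

/-- **JOB pre** -/
theorem pre : S_pre := by
  intro K ρ q₀ h c N hc hh w
  have hT := holds_TIP w
  have hL := holds_LIV w
  have hH := not_HALT hh w
  have hx : Holds (Lay c N) ((act ρ q₀ h).pre .x) w ↔ w.1 = .tip := by
    show Holds (Lay c N) (TIP K) w ∧ ¬ Holds (Lay c N) (HALT h) w ↔ _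
    rw [hT]
    exact ⟨fun h => h.1, fun h => ⟨h, hH⟩⟩
  have hy : Holds (Lay c N) ((act ρ q₀ h).pre .y) w ↔ ∃ p, w.1 = .res p := by
    show (Holds (Lay c N) (LIV K) w ∧ ¬ Holds (Lay c N) (TIP K) w) ∧ ¬ Holds (Lay c N) (HALT h) w ↔ _
    rw [hT, hL]
    constructor
    · rintro ⟨⟨h1 | h1, h2⟩, -⟩
      · exact absurd h1 h2
      · exact h1
    · rintro ⟨p, h1⟩
      exact ⟨⟨Or.inr ⟨p, h1⟩, by rw [h1]; simp⟩, hH⟩
  refine ⟨hx, hx, hy, fun a => ?_⟩
  show Holds (Lay c N) ((act ρ q₀ h).pre .y) w ∧ Holds (Lay c N) (RULE ρ q₀ a) w ↔ _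
  rw [hy]
  constructor
  · rintro ⟨⟨p, h1⟩, h2⟩
    exact ⟨p, h1, (holds_RULE ρ hc a w p h1).1 h2⟩
  · rintro ⟨p, h1, h2⟩
    exact ⟨⟨p, h1⟩, (holds_RULE ρ hc a w p h1).2 h2⟩

end Pool.Agent.Q206.UE.JPre
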