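import Pool.Agent.Q206.UE.Stm

/-! # Job step (helper151): the product update of an explicit layer -/

set_option autoImplicit false

namespace Pool.Agent.Q206.UE.JStep

open Pool.Agent.Q206.UE

/-- the world of the new layer -/
def g {K : ℕ} (N : ℕ) : LW → Ev K → LW
  | .tip, .f => .res (N + 1)
  | .res p, .y => .res p
  | .res p, .q _ => .st p
  | _, _ => .tip

/-- the four kinds of pairs -/
inductive Kd {K : ℕ} (c' : ℕ → Fin K) (N : ℕ) : LW → Ev K → Prop
  | tx : Kd c' N .tip .x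
  | tf : Kd c' N .tip .f
  | ry (p : ℕ) (hp : p ≤ N) : Kd c' N (.res p) .y
  | rq (p : ℕ) (hp : p ≤ N) : Kd c' N (.res p) (.q (c' p))

theorem g_ok {K : ℕ} {c' : ℕ → Fin K} {N : ℕ} {u : LW} {e : Ev K} (h : Kd c' N u e) : ok (N + 1) (g N u e) := by
  cases h with
  | tx => trivial
  | tf => exact le_refl _
  | ry p hp => exact Nat.le_succ_of_le hp
  | rq p hp => exact Nat.lt_succ_of_le hp

theorem g_inj {K : ℕ} {c' : ℕ → Fin K} {N : ℕ} {u v : LW} {e e' : Ev K} (h : Kd c' N u e) (h' : Kd c' N v e')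
    (hg : g N u e = g N v e') : u = v ∧ e = e' := by
  cases h <;> cases h' <;> simp only [g, LW.res.injEq, LW.st.injEq, reduceCtorEq] at hg <;>
    first
    | exact ⟨rfl, rfl⟩
    | (subst hg; exact ⟨rfl, rfl⟩)
    | (exfalso; omega)

theorem g_fwd {K : ℕ} {c : ℕ → Fin K} {c' : ℕ → Fin K} {N : ℕ} {u v : LW} {e e' : Ev K} (h : Kd c' N u e)
    (h' : Kd c' N v e') (j : Ag K) (h1 : LRel c N j u v) (h2 : EvRel j e e') :
    LRel c' (N + 1) j (g N u e) (g N v e') := by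
  cases h <;> cases h' <;> simp only [g] <;> cases h1 <;> cases h2 <;> constructor

theorem g_bwd {K : ℕ} {c : ℕ → Fin K} {c' : ℕ → Fin K} {N : ℕ} {u v : LW} {e e' : Ev K} (h : Kd c' N u e)
    (h' : Kd c' N v e') (j : Ag K) (hh : LRel c' (N + 1) j (g N u e) (g N v e')) :
    LRel c N j u v ∧ EvRel j e e' := by
  cases h <;> cases h' <;> simp only [g] at hh <;> cases hh <;>
    first | (refine ⟨?_, ?_⟩ <;> constructor) | (exfalso; omega)

/-- **JOB step** -/
theorem step : S_step := by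
  intro hpre K ρ q₀ h c N hc hh
  have hP := hpre K ρ q₀ h c N hc hh
  have hkd : ∀ w : (upd (Lay c N) (act ρ q₀ h)).W, Kd (cstep ρ c) N w.1.1.1 w.1.2 := by
    rintro ⟨⟨u, e⟩, hw⟩
    have hu := hP u
    have huo := u.2
    show Kd (cstep ρ c) N u.1 e
    cases e with
    | x =>
      have h1 := hu.1.1 hw
      rw [h1]
      exact Kd.tx
    | f =>
      have h1 := hu.2.1.1 hw
      rw [h1]
      exact Kd.tf
    | y =>
      obtain ⟨p, h1⟩ := hu.2.2.1.1 hw
      rw [h1] at huo ⊢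
      exact Kd.ry p huo
    | q a =>
      obtain ⟨p, h1, h2⟩ := (hu.2.2.2 a).1 hw
      rw [h1] at huo ⊢
      rw [h2]
      exact Kd.rq p huo
  let e : (upd (Lay c N) (act ρ q₀ h)).W → (Lay (cstep ρ c) (N + 1)).W :=
    fun w => ⟨g N w.1.1.1 w.1.2, g_ok (hkd w)⟩
  have hinj : Function.Injective e := by
    intro w w' hw
    have h1 := congrArg Subtype.val hw
    obtain ⟨h2, h3⟩ := g_inj (hkd w) (hkd w') h1
    exact Subtype.ext (Prod.ext (Subtype.ext h2) h3)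
  have hsur : Function.Surjective e := by
    rintro ⟨v, hv⟩
    cases v with
    | tip =>
      refine ⟨⟨(⟨.tip, trivial⟩, .x), (hP ⟨.tip, trivial⟩).1.2 rfl⟩, ?_⟩
      rfl
    | res p =>
      by_cases hp : p = N + 1
      · subst hp
        refine ⟨⟨(⟨.tip, trivial⟩, .f), (hP ⟨.tip, trivial⟩).2.1.2 rfl⟩, ?_⟩
        rfl
      · have hv' : p ≤ N + 1 := hv
        have hp' : p ≤ N := by omega
        refine ⟨⟨(⟨.res p, hp'⟩, .y), (hP ⟨.res p, hp'⟩).2.2.1.2 ⟨p, rfl⟩⟩, ?_⟩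
        rfl
    | st p =>
      have hv' : p < N + 1 := hv
      have hp' : p ≤ N := by omega
      refine ⟨⟨(⟨.res p, hp'⟩, .q (cstep ρ c p)), ((hP ⟨.res p, hp'⟩).2.2.2 _).2 ⟨p, rfl, rfl⟩⟩, ?_⟩
      rfl
  refine ⟨Equiv.ofBijective e ⟨hinj, hsur⟩, fun i u v => ?_, fun a u => Iff.rfl⟩
  exact ⟨fun h => g_fwd (hkd u) (hkd v) (ag i) h.1 h.2, g_bwd (hkd u) (hkd v) (ag i)⟩

end Pool.Agent.Q206.UE.JStep
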