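import Pool.Agent.Q206.UE.Stm

/-!
# Update evolution, job tmz (helper299): `TM0` machines with absolute head positions
-/

set_option autoImplicit false

namespace Pool.Agent.Q206.UE

namespace Tmz

open Turing StateTransition

/-- A state transition halts iff some iterate is `none`. -/
theorem dom_iff {σ : Type} (f : σ → Option σ) (a : σ) (run : ℕ → Option σ) (h0 : run 0 = some a)
    (hs : ∀ n, run (n + 1) = (run n).bind f) : (eval f a).Dom ↔ ∃ n, run n = none := by
  have hr : ∀ n b, run n = some b → Reaches f a b := by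
    intro n
    induction n with
    | zero =>
      intro b hb
      rw [h0] at hb
      cases hb
      exact Relation.ReflTransGen.refl
    | succ n ih =>
      intro b hb
      rw [hs] at hb
      cases hc : run n with
      | none => rw [hc] at hb; cases hb
      | some c =>
        rw [hc] at hb
        exact (ih c hc).tail hb
  constructor
  · intro h
    obtain ⟨h1, h2⟩ := mem_eval.1 (Part.get_mem h)
    have h3 : ∀ b, Reaches f a b → ∃ n, run n = some b := by
      intro b hb
      induction hb with
      | refl => exact ⟨0, h0⟩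
      | tail _ hcd ih =>
        obtain ⟨n, hn⟩ := ih
        refine ⟨n + 1, ?_⟩
        rw [hs, hn]
        exact hcd
    obtain ⟨n, hn⟩ := h3 _ h1
    refine ⟨n + 1, ?_⟩
    rw [hs, hn]
    exact h2
  · rintro ⟨n, hn⟩
    have h3 : ∀ n, run n = none → ∃ b m, run m = some b ∧ f b = none := by
      intro n
      induction n with
      | zero =>
        intro h
        rw [h0] at h
        cases h
      | succ n ih =>
        intro h
        rw [hs] at h
        cases hc : run n with
        | none => exact ih hc
        | some c =>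
          rw [hc] at h
          exact ⟨c, n, hc, h⟩
    obtain ⟨b, m, h1, h2⟩ := h3 n hn
    exact Part.dom_iff_mem.2 ⟨b, mem_eval.2 ⟨hr m b h1, h2⟩⟩

variable {Γ Λ : Type} [Inhabited Γ] [Inhabited Λ]

/-- Corresponding configurations. -/
def rel (c : TM0.Cfg Γ Λ) (z : ZC Γ Λ) : Prop :=
  c.q = z.q ∧ ∀ i : ℤ, c.Tape.nth i = z.t (z.pos + i)

theorem resp (M : TM0.Machine Γ Λ) : Respects (TM0.step M) (znext M) rel := by
  rintro ⟨q, T⟩ ⟨q', pos, t⟩ ⟨h1, h2⟩
  dsimp only at h1 h2
  subst h1
  have h0 : T.head = t pos := by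
    have := h2 0
    rwa [Tape.nth_zero, add_zero] at this
  have e1 : TM0.step M ⟨q, T⟩ = (M q T.head).map fun r => ⟨r.1, match r.2 with
    | TM0.Stmt.move d => T.move d
    | TM0.Stmt.write a => T.write a⟩ := rfl
  have e2 : znext M ⟨q, pos, t⟩ = (M q (t pos)).map fun r => match r.2 with
    | .move .left => ⟨r.1, pos - 1, t⟩
    | .move .right => ⟨r.1, pos + 1, t⟩
    | .write a => ⟨r.1, pos, Function.update t pos a⟩ := rfl
  rw [e1, h0]
  cases hM : M q (t pos) with
  | none =>
    rw [hM] at e2
    exact e2
  | some r =>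
    rw [hM] at e2
    obtain ⟨q', s⟩ := r
    rcases s with (_ | _) | a
    · refine ⟨⟨q', pos - 1, t⟩, ⟨rfl, fun i => ?_⟩, Relation.TransGen.single e2⟩
      dsimp only
      rw [Tape.move_left_nth, h2]
      congr 1
      ring
    · refine ⟨⟨q', pos + 1, t⟩, ⟨rfl, fun i => ?_⟩, Relation.TransGen.single e2⟩
      dsimp only
      rw [Tape.move_right_nth, h2]
      congr 1
      ring
    · refine ⟨⟨q', pos, Function.update t pos a⟩, ⟨rfl, fun i => ?_⟩, Relation.TransGen.single e2⟩
      dsimp only
      rw [Tape.write_nth, h2]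
      by_cases hi : i = 0
      · subst hi
        simp
      · have : pos + i ≠ pos := by omega
        rw [if_neg hi, Function.update_of_ne this]

theorem init_rel (l : List Γ) : rel (TM0.init l : TM0.Cfg Γ Λ) (zinit l) := by
  refine ⟨rfl, fun i => ?_⟩
  show (Tape.mk₁ l).nth i = if 0 ≤ (0 : ℤ) + i then l.getD ((0 : ℤ) + i).toNat default else default
  rw [zero_add]
  have e : Tape.mk₁ l = Tape.mk' (ListBlank.mk []) (ListBlank.mk l) := rfl
  rcases i with n | n
  · have : (0 : ℤ) ≤ Int.ofNat n := Int.natCast_nonneg n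
    rw [if_pos this, e]
    have h2 : (Tape.mk' (ListBlank.mk []) (ListBlank.mk l)).nth (Int.ofNat n) =
        (ListBlank.mk l).nth n := Tape.mk'_nth_nat _ _ n
    rw [h2, ListBlank.nth_mk, ← List.getD_default_eq_getI]
    rfl
  · rw [if_neg (by omega), e]
    show (ListBlank.mk ([] : List Γ)).nth n = default
    rw [ListBlank.nth_mk]
    simp [List.getI]

end Tmz

theorem tmz : S_tmz := by
  intro Γ Λ _ _ M l
  rw [← StateTransition.tr_eval_dom (Tmz.resp M) (Tmz.init_rel l)]
  exact Tmz.dom_iff (znext M) (zinit l) (zrun M (zinit l)) rfl fun _ => rfl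

end Pool.Agent.Q206.UE
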