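import Pool.Agent.Q206.UE.Stm

/-!
JOB ub1: model checking a fixed formula on finite models given as lists is primitive recursive.
-/

namespace Pool.Agent.Q206.UE.JUb1

theorem i0 {C : Type} [Primcodable C] : Primrec fun c : C => c := Primrec.id

theorem f1 {C A B : Type} [Primcodable C] [Primcodable A] [Primcodable B] {F : C → A × B}
    (h : Primrec F) : Primrec fun c => (F c).1 := Primrec.fst.comp h

theorem f2 {C A B : Type} [Primcodable C] [Primcodable A] [Primcodable B] {F : C → A × B}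
    (h : Primrec F) : Primrec fun c => (F c).2 := Primrec.snd.comp h

theorem allM {C α : Type} [Primcodable C] [Primcodable α] {L : C → List α} {P : α × C → Prop}
    (hP : PrimrecPred P) (hL : Primrec L) : PrimrecPred fun c => ∀ a ∈ L c, P (a, c) := by
  have h : PrimrecRel (fun (a : α) (c : C) => P (a, c)) :=
    hP.comp (Primrec.pair Primrec.fst Primrec.snd)
  exact h.forall_mem_list.comp hL Primrec.id

theorem exM {C α : Type} [Primcodable C] [Primcodable α] {L : C → List α} {P : α × C → Prop}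
    (hP : PrimrecPred P) (hL : Primrec L) : PrimrecPred fun c => ∃ a ∈ L c, P (a, c) := by
  have h : PrimrecRel (fun (a : α) (c : C) => P (a, c)) :=
    hP.comp (Primrec.pair Primrec.fst Primrec.snd)
  exact h.exists_mem_list.comp hL Primrec.id

theorem mem' {C α : Type} [Primcodable C] [Primcodable α] {L : C → List α} {f : C → α}
    (hf : Primrec f) (hL : Primrec L) : PrimrecPred fun c => f c ∈ L c := by
  have h : PrimrecRel (fun (a b : α) => a = b) := Primrec.eq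
  exact (h.exists_mem_list.comp hL hf).of_eq (fun c => by simp)

theorem eq' {C α : Type} [Primcodable C] [Primcodable α] {f g : C → α}
    (hf : Primrec f) (hg : Primrec g) : PrimrecPred fun c => f c = g c :=
  Primrec.eq.comp hf hg

theorem lt' {C : Type} [Primcodable C] {f g : C → ℕ}
    (hf : Primrec f) (hg : Primrec g) : PrimrecPred fun c => f c < g c :=
  Primrec.nat_lt.comp hf hg

theorem imp' {C : Type} [Primcodable C] {p q : C → Prop}
    (hp : PrimrecPred p) (hq : PrimrecPred q) : PrimrecPred fun c => p c → q c :=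
  (hp.not.or hq).of_eq (fun c => by tauto)

theorem ub1 : S_ub1 := by
  intro k φ
  induction φ with
  | atom p =>
    have h : PrimrecPred fun x : FM k × ℕ => x.2 < x.1.1 ∧ (x.2, p) ∈ x.1.2.2 :=
      (lt' (f2 i0) (f1 (f1 i0))).and
        (mem' (Primrec.pair (f2 i0) (Primrec.const p)) (f2 (f2 (f1 i0))))
    exact h.of_eq (fun x => ⟨fun ⟨h1, h2⟩ => ⟨h1, h2⟩, fun ⟨h1, h2⟩ => ⟨h1, h2⟩⟩)
  | neg φ ih =>
    have h : PrimrecPred fun x : FM k × ℕ => x.2 < x.1.1 ∧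
        ¬ ∃ hx : x.2 < x.1.1, Holds (toModel x.1) φ ⟨x.2, hx⟩ :=
      (lt' (f2 i0) (f1 (f1 i0))).and ih.not
    refine h.of_eq (fun x => ⟨fun ⟨h1, h2⟩ => ⟨h1, fun h3 => h2 ⟨h1, h3⟩⟩, fun ⟨h1, h2⟩ =>
      ⟨h1, fun ⟨h3, h4⟩ => h2 h4⟩⟩)
  | and φ ψ ih1 ih2 =>
    refine (ih1.and ih2).of_eq (fun x => ⟨?_, ?_⟩)
    · rintro ⟨⟨h1, h2⟩, ⟨h3, h4⟩⟩
      exact ⟨h1, h2, h4⟩
    · rintro ⟨h1, h2, h3⟩
      exact ⟨⟨h1, h2⟩, ⟨h1, h3⟩⟩
  | know i φ ih =>
    have hc : PrimrecPred fun c : (Fin k × ℕ × ℕ) × (FM k × ℕ) => c.1.1 = i → c.1.2.1 = c.2.2 →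
        c.1.2.2 < c.2.1.1 → ∃ hx : c.1.2.2 < c.2.1.1, Holds (toModel c.2.1) φ ⟨c.1.2.2, hx⟩ :=
      imp' (eq' (f1 (f1 i0)) (Primrec.const i)) (imp' (eq' (f1 (f2 (f1 i0))) (f2 (f2 i0)))
        (imp' (lt' (f2 (f2 (f1 i0))) (f1 (f1 (f2 i0)))) (ih.comp (Primrec.pair (f1 (f2 i0)) (f2 (f2 (f1 i0)))))))
    have h : PrimrecPred fun x : FM k × ℕ => x.2 < x.1.1 ∧ ∀ t ∈ x.1.2.1, t.1 = i → t.2.1 = x.2 →
        t.2.2 < x.1.1 → ∃ hx : t.2.2 < x.1.1, Holds (toModel x.1) φ ⟨t.2.2, hx⟩ :=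
      (lt' (f2 i0) (f1 (f1 i0))).and
        (allM (L := fun x : FM k × ℕ => x.1.2.1) hc (f1 (f2 (f1 i0))))
    refine h.of_eq (fun x => ⟨?_, ?_⟩)
    · rintro ⟨h1, h2⟩
      refine ⟨h1, fun v hv => ?_⟩
      obtain ⟨h3, h4⟩ := h2 (i, x.2, (v : Fin x.1.1).1) hv rfl rfl v.2
      exact h4
    · rintro ⟨h1, h2⟩
      refine ⟨h1, fun t ht e1 e2 e3 => ⟨e3, h2 ⟨t.2.2, e3⟩ ?_⟩⟩
      change (i, x.2, t.2.2) ∈ x.1.2.1
      have : t = (i, x.2, t.2.2) := by
        rw [← e1, ← e2]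
      rw [← this]
      exact ht

end Pool.Agent.Q206.UE.JUb1
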