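import Pool.Agent.Q206.UE.Stm

/-!
# Update evolution, job ub2: the product update with a fixed action model on data
-/

set_option autoImplicit false

namespace Pool.Agent.Q206.UE

namespace Ub2

variable {α : Type} [Primcodable α]

lemma prim_false : PrimrecPred fun _ : α => False :=
  ⟨fun _ => instDecidableFalse, Primrec.const false⟩

lemma prim_exists {β : Type} [Finite β] {P : β → α → Prop} (h : ∀ b, PrimrecPred (P b)) :
    PrimrecPred fun x => ∃ b, P b x := by
  classical
  haveI : Fintype β := Fintype.ofFinite β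
  have hl : ∀ l : List β, PrimrecPred fun x => ∃ b ∈ l, P b x := by
    intro l
    induction l with
    | nil => exact prim_false.of_eq fun x => by simp
    | cons b l ih => exact ((h b).or ih).of_eq fun x => by simp
  exact (hl (Finset.univ : Finset β).toList).of_eq fun x => by simp

lemma prim_mem {β : Type} [Primcodable β] {f : α → β} {l : α → List β}
    (hf : Primrec f) (hl : Primrec l) : PrimrecPred fun x => f x ∈ l x := by
  have h : PrimrecRel fun (L : List β) (b : β) => ∃ a ∈ L, a = b :=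
    PrimrecRel.exists_mem_list (R := fun a b => a = b) Primrec.eq
  exact (h.comp hl hf).of_eq fun x => by simp

lemma prim_product {β γ : Type} [Primcodable β] [Primcodable γ] {f : α → List β} {g : α → List γ}
    (hf : Primrec f) (hg : Primrec g) : Primrec fun x => List.product (f x) (g x) := by
  refine Primrec.list_flatMap hf ?_
  refine Primrec.list_map (hg.comp Primrec.fst) ?_
  exact Primrec.pair (Primrec.snd.comp Primrec.fst) Primrec.snd

/-- the truth value of a proposition -/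
noncomputable def cd (p : Prop) : Bool := @decide p (Classical.propDecidable p)

lemma cd_iff {p : Prop} : cd p = true ↔ p := by
  unfold cd
  exact @decide_eq_true_iff p (Classical.propDecidable p)

lemma prim_filter {β : Type} [Primcodable β] {f : α → List β} {R : β → α → Prop}
    (hf : Primrec f) (hR : PrimrecRel R) :
    Primrec fun x => (f x).filter (fun b => cd (R b x)) := by
  have h : Primrec₂ fun (L : List β) (x : α) => L.filter (fun b => cd (R b x)) :=
    @PrimrecRel.listFilter β α R _ _ hR (fun _ _ => Classical.propDecidable _)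
  have h' : Primrec fun p : List β × α => p.1.filter (fun b => cd (R b p.2)) := h
  exact h'.comp (hf.pair Primrec.id)

variable {k : ℕ}

/-- the event number `j` is possible in the world `x.2` of the model `x.1` -/
def okp (A : Action k) {r : ℕ} (ν : A.E ≃ Fin r) (x : FM k × ℕ) (j : ℕ) : Prop :=
  ∃ a : A.E, ((ν a : ℕ) = j) ∧ ∃ hx : x.2 < x.1.1, Holds (toModel x.1) (A.pre a) ⟨x.2, hx⟩

/-- the list of the worlds of the update -/
noncomputable def VV (A : Action k) {r : ℕ} (ν : A.E ≃ Fin r) (D : FM k) : List (ℕ × ℕ) :=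
  (List.product (List.range D.1) (List.range r)).filter
    (fun x => cd (okp A ν (D, x.1) x.2))

/-- the triples of the update -/
noncomputable def tri (A : Action k) {r : ℕ} (ν : A.E ≃ Fin r) (T : List (Fin k × ℕ × ℕ))
    (D : FM k) : List (Fin k × ℕ × ℕ) :=
  (List.product (List.finRange k) (List.product (List.range (VV A ν D).length)
    (List.range (VV A ν D).length))).filter (fun x => cd
      ((x.1, ((VV A ν D).getD x.2.1 (0, 0)).1, ((VV A ν D).getD x.2.2 (0, 0)).1) ∈ D.2.1 ∧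
        (x.1, ((VV A ν D).getD x.2.1 (0, 0)).2, ((VV A ν D).getD x.2.2 (0, 0)).2) ∈ T))

/-- the atoms of the update -/
noncomputable def atm (A : Action k) {r : ℕ} (ν : A.E ≃ Fin r) (D : FM k) : List (ℕ × ℕ) :=
  ((List.product (List.range (VV A ν D).length) D.2.2).filter
    (fun y => cd (y.2.1 = ((VV A ν D).getD y.1 (0, 0)).1))).map fun y => (y.1, y.2.2)

lemma prim_VV (h1 : S_ub1) (A : Action k) [Finite A.E] {r : ℕ} (ν : A.E ≃ Fin r) :
    Primrec (VV A ν) := by
  refine prim_filter (R := fun (x : ℕ × ℕ) (D : FM k) => okp A ν (D, x.1) x.2)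
    (prim_product (Primrec.list_range.comp Primrec.fst) (Primrec.const _)) ?_
  have h : PrimrecPred fun p : (FM k × ℕ) × ℕ => okp A ν p.1 p.2 :=
    prim_exists fun a => (Primrec.eq.comp (Primrec.const _) Primrec.snd).and
      ((h1 k (A.pre a)).comp Primrec.fst)
  exact h.comp (f := fun p : (ℕ × ℕ) × FM k => ((p.2, p.1.1), p.1.2))
    ((Primrec.snd.pair (Primrec.fst.comp Primrec.fst)).pair (Primrec.snd.comp Primrec.fst))

lemma prim_tri (h1 : S_ub1) (A : Action k) [Finite A.E] {r : ℕ} (ν : A.E ≃ Fin r)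
    (T : List (Fin k × ℕ × ℕ)) : Primrec (tri A ν T) := by
  have hV := prim_VV h1 A ν
  have hlen : Primrec fun D : FM k => List.range (VV A ν D).length :=
    Primrec.list_range.comp (Primrec.list_length.comp hV)
  refine prim_filter (R := fun (x : Fin k × ℕ × ℕ) (D : FM k) =>
      (x.1, ((VV A ν D).getD x.2.1 (0, 0)).1, ((VV A ν D).getD x.2.2 (0, 0)).1) ∈ D.2.1 ∧
        (x.1, ((VV A ν D).getD x.2.1 (0, 0)).2, ((VV A ν D).getD x.2.2 (0, 0)).2) ∈ T)
    (prim_product (Primrec.const _) (prim_product hlen hlen)) ?_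
  have hg1 : Primrec fun p : (Fin k × ℕ × ℕ) × FM k => (VV A ν p.2).getD p.1.2.1 (0, 0) :=
    (Primrec.list_getD (0, 0)).comp (hV.comp Primrec.snd)
      (Primrec.fst.comp (Primrec.snd.comp Primrec.fst))
  have hg2 : Primrec fun p : (Fin k × ℕ × ℕ) × FM k => (VV A ν p.2).getD p.1.2.2 (0, 0) :=
    (Primrec.list_getD (0, 0)).comp (hV.comp Primrec.snd)
      (Primrec.snd.comp (Primrec.snd.comp Primrec.fst))
  have hi : Primrec fun p : (Fin k × ℕ × ℕ) × FM k => p.1.1 := Primrec.fst.comp Primrec.fst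
  refine PrimrecPred.and ?_ ?_
  · exact prim_mem (hi.pair ((Primrec.fst.comp hg1).pair (Primrec.fst.comp hg2)))
      (Primrec.fst.comp (Primrec.snd.comp Primrec.snd))
  · exact prim_mem (hi.pair ((Primrec.snd.comp hg1).pair (Primrec.snd.comp hg2)))
      (Primrec.const T)

lemma prim_atm (h1 : S_ub1) (A : Action k) [Finite A.E] {r : ℕ} (ν : A.E ≃ Fin r) :
    Primrec (atm A ν) := by
  have hV := prim_VV h1 A ν
  have hlen : Primrec fun D : FM k => List.range (VV A ν D).length :=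
    Primrec.list_range.comp (Primrec.list_length.comp hV)
  refine Primrec.list_map (prim_filter (R := fun (y : ℕ × ℕ × ℕ) (D : FM k) =>
    y.2.1 = ((VV A ν D).getD y.1 (0, 0)).1)
    (prim_product hlen (Primrec.snd.comp Primrec.snd)) ?_) ?_
  · refine Primrec.eq.comp (Primrec.fst.comp (Primrec.snd.comp Primrec.fst)) ?_
    exact Primrec.fst.comp ((Primrec.list_getD (0, 0)).comp (hV.comp Primrec.snd)
      (Primrec.fst.comp Primrec.fst))
  · exact Primrec.pair (Primrec.fst.comp Primrec.snd)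
      (Primrec.snd.comp (Primrec.snd.comp Primrec.snd))

lemma mem_VV (A : Action k) {r : ℕ} (ν : A.E ≃ Fin r) (D : FM k) (x : ℕ × ℕ) :
    x ∈ VV A ν D ↔ x.1 < D.1 ∧ x.2 < r ∧ okp A ν (D, x.1) x.2 := by
  obtain ⟨w, j⟩ := x
  unfold VV
  rw [List.mem_filter, cd_iff]
  constructor
  · rintro ⟨h, h'⟩
    have h2 := List.mem_product.1 h
    exact ⟨List.mem_range.1 h2.1, List.mem_range.1 h2.2, h'⟩
  · rintro ⟨h, h', h2⟩
    exact ⟨List.mem_product.2 ⟨List.mem_range.2 h, List.mem_range.2 h'⟩, h2⟩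

lemma mem_prod {β γ : Type} {l : List β} {l' : List γ} {a : β} {b : γ} :
    (a, b) ∈ List.product l l' ↔ a ∈ l ∧ b ∈ l' := List.mem_product

lemma mem_tri (A : Action k) {r : ℕ} (ν : A.E ≃ Fin r) (T : List (Fin k × ℕ × ℕ)) (D : FM k)
    (i : Fin k) (u v : ℕ) : (i, u, v) ∈ tri A ν T D ↔
      (u < (VV A ν D).length ∧ v < (VV A ν D).length) ∧
      (i, ((VV A ν D).getD u (0, 0)).1, ((VV A ν D).getD v (0, 0)).1) ∈ D.2.1 ∧
        (i, ((VV A ν D).getD u (0, 0)).2, ((VV A ν D).getD v (0, 0)).2) ∈ T := by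
  unfold tri
  rw [List.mem_filter, cd_iff, mem_prod, mem_prod, List.mem_range, List.mem_range]
  exact ⟨fun h => ⟨h.1.2, h.2⟩, fun h => ⟨⟨List.mem_finRange _, h.1⟩, h.2⟩⟩

lemma mem_atm (A : Action k) {r : ℕ} (ν : A.E ≃ Fin r) (D : FM k) (u a : ℕ) :
    (u, a) ∈ atm A ν D ↔ u < (VV A ν D).length ∧ (((VV A ν D).getD u (0, 0)).1, a) ∈ D.2.2 := by
  unfold atm
  rw [List.mem_map]
  constructor
  · rintro ⟨⟨y, z, z'⟩, hy, hyz⟩
    rw [List.mem_filter, cd_iff, mem_prod, List.mem_range] at hy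
    simp only [Prod.mk.injEq] at hyz
    obtain ⟨rfl, rfl⟩ := hyz
    obtain ⟨⟨h1, hz⟩, hz1⟩ := hy
    have hz2 : z = ((VV A ν D).getD y (0, 0)).1 := hz1
    rw [← hz2]
    exact ⟨h1, hz⟩
  · rintro ⟨h1, h2⟩
    refine ⟨(u, (((VV A ν D).getD u (0, 0)).1, a)), ?_, rfl⟩
    rw [List.mem_filter, cd_iff, mem_prod, List.mem_range]
    exact ⟨⟨h1, h2⟩, rfl⟩

lemma nodup_VV (A : Action k) {r : ℕ} (ν : A.E ≃ Fin r) (D : FM k) : (VV A ν D).Nodup :=
  (List.nodup_range.product List.nodup_range).filter _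

/-- the number of a world -/
def wn {D : FM k} (w : (toModel D).W) : ℕ := Fin.val (n := D.1) w

lemma wn_lt {D : FM k} (w : (toModel D).W) : wn w < D.1 := Fin.isLt (n := D.1) w

lemma wn_inj {D : FM k} {w w' : (toModel D).W} (h : wn w = wn w') : w = w' :=
  Fin.ext (n := D.1) h

/-- a world of the update as an element of the list -/
def toV (A : Action k) {r : ℕ} (ν : A.E ≃ Fin r) (D : FM k) (p : (upd (toModel D) A).W) :
    {x // x ∈ VV A ν D} :=
  ⟨(wn p.1.1, (ν p.1.2 : ℕ)), (mem_VV A ν D _).2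
    ⟨wn_lt p.1.1, (ν p.1.2).2, p.1.2, rfl, wn_lt p.1.1, p.2⟩⟩

lemma toV_bij (A : Action k) {r : ℕ} (ν : A.E ≃ Fin r) (D : FM k) :
    Function.Bijective (toV A ν D) := by
  constructor
  · rintro ⟨⟨w, a⟩, hp⟩ ⟨⟨w', a'⟩, hp'⟩ h
    have h1 : (wn w, (ν a : ℕ)) = (wn w', (ν a' : ℕ)) := congrArg Subtype.val h
    rw [Prod.mk.injEq] at h1
    have h2 : w = w' := wn_inj h1.1
    have h3 : a = a' := ν.injective (Fin.ext h1.2)
    subst h2
    subst h3
    rfl
  · rintro ⟨⟨w, j⟩, hx⟩
    obtain ⟨hw, hj, a, haj, hw', hH⟩ := (mem_VV A ν D _).1 hx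
    refine ⟨⟨((⟨w, hw'⟩ : Fin D.1), a), hH⟩, Subtype.ext ?_⟩
    show (w, (ν a : ℕ)) = (w, j)
    rw [haj]

end Ub2

open Ub2 in
theorem ub2 : S_ub2 := by
  classical
  intro h1 k A _
  haveI : Fintype A.E := Fintype.ofFinite A.E
  set ν : A.E ≃ Fin (Nat.card A.E) := Finite.equivFin A.E with hν
  set T : List (Fin k × ℕ × ℕ) :=
    ((Finset.univ : Finset (Fin k × A.E × A.E)).filter
      (fun x => A.rel x.1 x.2.1 x.2.2)).toList.map
        (fun x => (x.1, (ν x.2.1 : ℕ), (ν x.2.2 : ℕ))) with hT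
  have hTmem : ∀ (i : Fin k) (a b : A.E), (i, (ν a : ℕ), (ν b : ℕ)) ∈ T ↔ A.rel i a b := by
    intro i a b
    rw [hT, List.mem_map]
    constructor
    · rintro ⟨⟨i', a', b'⟩, hx, he⟩
      rw [Finset.mem_toList, Finset.mem_filter] at hx
      simp only [Prod.mk.injEq] at he
      obtain ⟨rfl, h2, h3⟩ := he
      have h2' : a' = a := ν.injective (Fin.ext h2)
      have h3' : b' = b := ν.injective (Fin.ext h3)
      subst h2'
      subst h3'
      exact hx.2
    · intro h
      exact ⟨(i, a, b), by rw [Finset.mem_toList, Finset.mem_filter]; exact ⟨Finset.mem_univ _, h⟩,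
        rfl⟩
  refine ⟨fun D => ((VV A ν D).length, tri A ν T D, atm A ν D), ?_, ?_⟩
  · exact (Primrec.pair (Primrec.list_length.comp (prim_VV h1 A ν))
      ((prim_tri h1 A ν T).pair (prim_atm h1 A ν)))
  · intro D
    set e : Fin (VV A ν D).length ≃ (upd (toModel D) A).W :=
      (List.Nodup.getEquiv (VV A ν D) (nodup_VV A ν D)).trans
        (Equiv.ofBijective (toV A ν D) (toV_bij A ν D)).symm with he
    have hkey : ∀ u : Fin (VV A ν D).length, (VV A ν D).getD u (0, 0) =
        (wn (e u).1.1, (ν (e u).1.2 : ℕ)) := by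
      intro u
      have h2 : toV A ν D (e u) = List.Nodup.getEquiv (VV A ν D) (nodup_VV A ν D) u :=
        (Equiv.ofBijective (toV A ν D) (toV_bij A ν D)).apply_symm_apply _
      have h3 := congrArg Subtype.val h2
      rw [List.getD_eq_getElem _ _ u.2]
      exact h3.symm
    refine ⟨e, ?_, ?_⟩
    · intro i (u : Fin (VV A ν D).length) (v : Fin (VV A ν D).length)
      show (i, (u : ℕ), (v : ℕ)) ∈ tri A ν T D ↔
        ((i, wn (e u).1.1, wn (e v).1.1) ∈ D.2.1) ∧ A.rel i (e u).1.2 (e v).1.2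
      have hku := hkey u
      have hkv := hkey v
      rw [mem_tri, hku, hkv]
      exact ⟨fun h => ⟨h.2.1, (hTmem _ _ _).1 h.2.2⟩,
        fun h => ⟨⟨u.2, v.2⟩, h.1, (hTmem _ _ _).2 h.2⟩⟩
    · intro a (u : Fin (VV A ν D).length)
      show ((u : ℕ), a) ∈ atm A ν D ↔ (wn (e u).1.1, a) ∈ D.2.2
      have hku := hkey u
      rw [mem_atm, hku]
      exact ⟨fun h => h.2, fun h => ⟨u.2, h⟩⟩

end Pool.Agent.Q206.UE
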