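import Pool.Agent.Q206.UE.Stm

/-!
JOB ub3: the tree is finite modulo bisimulation iff some layer is covered by bisimulations with
the layers below it.
-/

namespace Pool.Agent.Q206.UE.JUb3

variable {k : ℕ} {M : Model k} {A : Action k}

theorem treeRel {i : Fin k} {x y : Σ n, (layer M A n).W} (h : TreeRel M A i x y) :
    ∃ v' : (layer M A x.1).W, y = ⟨x.1, v'⟩ ∧ (layer M A x.1).rel i x.2 v' := by
  cases h with
  | mk n u v h => exact ⟨v, rfl, h⟩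

theorem bisimilar_refl (x : (tree M A).W) : Bisimilar (tree M A) x x := by
  refine ⟨fun a b => a = b, ?_, rfl⟩
  rintro w v rfl
  exact ⟨fun a => Iff.rfl, fun i w' h => ⟨w', h, rfl⟩, fun i v' h => ⟨v', h, rfl⟩⟩

theorem bisimilar_trans {x y z : (tree M A).W} (h1 : Bisimilar (tree M A) x y)
    (h2 : Bisimilar (tree M A) y z) : Bisimilar (tree M A) x z := by
  obtain ⟨Z1, hb1, h1⟩ := h1
  obtain ⟨Z2, hb2, h2⟩ := h2
  refine ⟨fun a c => ∃ b, Z1 a b ∧ Z2 b c, ?_, y, h1, h2⟩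
  rintro w v ⟨b, hw, hv⟩
  obtain ⟨p1, p2, p3⟩ := hb1 w b hw
  obtain ⟨q1, q2, q3⟩ := hb2 b v hv
  refine ⟨fun a => (p1 a).trans (q1 a), ?_, ?_⟩
  · intro i w' hr
    obtain ⟨b', hr', hz⟩ := p2 i w' hr
    obtain ⟨v', hr'', hz'⟩ := q2 i b' hr'
    exact ⟨v', hr'', b', hz, hz'⟩
  · intro i v' hr
    obtain ⟨b', hr', hz⟩ := q3 i v' hr
    obtain ⟨w', hr'', hz'⟩ := p3 i b' hr'
    exact ⟨w', hr'', b', hz', hz⟩

/-- formulas are invariant under bisimulations of the tree -/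
theorem inv {Z : (tree M A).W → (tree M A).W → Prop} (hZ : IsBisim (tree M A) Z) (φ : Fml k) :
    ∀ (a b : ℕ) (w : (layer M A a).W) (v : (layer M A b).W), Z ⟨a, w⟩ ⟨b, v⟩ →
      (Holds (layer M A a) φ w ↔ Holds (layer M A b) φ v) := by
  induction φ with
  | atom p =>
    intro a b w v h
    exact (hZ _ _ h).1 p
  | neg φ ih =>
    intro a b w v h
    exact not_congr (ih a b w v h)
  | and φ ψ ih1 ih2 =>
    intro a b w v h
    exact and_congr (ih1 a b w v h) (ih2 a b w v h)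
  | know i φ ih =>
    intro a b w v h
    obtain ⟨-, h2, h3⟩ := hZ _ _ h
    constructor
    · intro hw v' hr
      obtain ⟨x, hx, hz⟩ := h3 i ⟨b, v'⟩ (TreeRel.mk b v v' hr)
      obtain ⟨w', rfl, hr'⟩ := treeRel hx
      exact (ih a b w' v' hz).mp (hw w' hr')
    · intro hv w' hr
      obtain ⟨x, hx, hz⟩ := h2 i ⟨a, w'⟩ (TreeRel.mk a w w' hr)
      obtain ⟨v', rfl, hr'⟩ := treeRel hx
      exact (ih a b w' v' hz).mpr (hv v' hr')

/-- the world `(w, e)` of the next layer -/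
def nx {a : ℕ} (w : (layer M A a).W) (e : A.E) (h : Holds (layer M A a) (A.pre e) w) :
    (tree M A).W := ⟨a + 1, (⟨(w, e), h⟩ : (upd (layer M A a) A).W)⟩

theorem next_bisim {a b : ℕ} {w : (layer M A a).W} {v : (layer M A b).W} {e : A.E}
    (hw : Holds (layer M A a) (A.pre e) w) (h : Bisimilar (tree M A) ⟨a, w⟩ ⟨b, v⟩) :
    ∃ hv : Holds (layer M A b) (A.pre e) v,
      Bisimilar (tree M A) (nx w e hw) (nx v e hv) := by
  obtain ⟨Z, hZ, hz⟩ := h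
  have hv := (inv hZ (A.pre e) a b w v hz).mp hw
  refine ⟨hv, fun x y => ∃ (a b : ℕ) (w : (layer M A a).W) (v : (layer M A b).W) (e : A.E)
    (hw : Holds (layer M A a) (A.pre e) w) (hv : Holds (layer M A b) (A.pre e) v),
    x = nx w e hw ∧ y = nx v e hv ∧ Z ⟨a, w⟩ ⟨b, v⟩, ?_, a, b, w, v, e, hw, hv, rfl, rfl, hz⟩
  rintro x y ⟨a, b, w, v, e, hw, hv, rfl, rfl, hz⟩
  obtain ⟨h1, h2, h3⟩ := hZ _ _ hz
  refine ⟨fun p => h1 p, ?_, ?_⟩
  · intro i x' hx'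
    obtain ⟨w1, rfl, hr⟩ := treeRel hx'
    obtain ⟨⟨w', e'⟩, hw'⟩ : (upd (layer M A a) A).W := w1
    obtain ⟨hr1, hr2⟩ := hr
    obtain ⟨y0, hy0, hz0⟩ := h2 i ⟨a, w'⟩ (TreeRel.mk a w w' hr1)
    obtain ⟨v', rfl, hr'⟩ := treeRel hy0
    have hv' := (inv hZ (A.pre e') a b w' v' hz0).mp hw'
    refine ⟨nx v' e' hv', TreeRel.mk (b + 1) _ _ ⟨hr', hr2⟩, a, b, w', v', e', hw', hv', rfl, rfl,
      hz0⟩
  · intro i y' hy'
    obtain ⟨v1, rfl, hr⟩ := treeRel hy'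
    obtain ⟨⟨v', e'⟩, hv'⟩ : (upd (layer M A b) A).W := v1
    obtain ⟨hr1, hr2⟩ := hr
    obtain ⟨x0, hx0, hz0⟩ := h3 i ⟨b, v'⟩ (TreeRel.mk b v v' hr1)
    obtain ⟨w', rfl, hr'⟩ := treeRel hx0
    have hw' := (inv hZ (A.pre e') a b w' v' hz0).mpr hv'
    refine ⟨nx w' e' hw', TreeRel.mk (a + 1) _ _ ⟨hr', hr2⟩, a, b, w', v', e', hw', hv', rfl, rfl,
      hz0⟩

theorem layer_finite [Finite M.W] [Finite A.E] (n : ℕ) : Finite (layer M A n).W := by
  induction n with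
  | zero =>
    change Finite M.W
    infer_instance
  | succ n ih =>
    change Finite {p : (layer M A n).W × A.E // Holds (layer M A n) (A.pre p.2) p.1}
    infer_instance

theorem ub3 : S_ub3 := by
  intro k M A _ _
  constructor
  · rintro ⟨F, hF⟩
    let N := F.sup (fun x : (tree M A).W => x.1)
    refine ⟨N, fun m w v => Bisimilar (tree M A) ⟨N + 1, w⟩ ⟨m, v⟩, ?_, ?_⟩
    · rintro m - w v ⟨Z, hZ, hz⟩
      obtain ⟨h1, h2, h3⟩ := hZ _ _ hz
      refine ⟨fun a => h1 a, ?_, ?_⟩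
      · intro i w' hr
        obtain ⟨y, hy, hz'⟩ := h2 i ⟨N + 1, w'⟩ (TreeRel.mk (N + 1) w w' hr)
        obtain ⟨v', rfl, hr'⟩ := treeRel hy
        exact ⟨v', hr', Z, hZ, hz'⟩
      · intro i v' hr
        obtain ⟨x, hx, hz'⟩ := h3 i ⟨m, v'⟩ (TreeRel.mk m v v' hr)
        obtain ⟨w', rfl, hr'⟩ := treeRel hx
        exact ⟨w', hr', Z, hZ, hz'⟩
    · intro w
      obtain ⟨⟨m, v⟩, hv, hb⟩ := hF ⟨N + 1, w⟩
      exact ⟨m, Finset.le_sup (f := fun x : (tree M A).W => x.1) hv, v, hb⟩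
  · rintro ⟨N, Z, hZ, hcov⟩
    have ha : ∀ m ≤ N, ∀ w v, Z m w v → Bisimilar (tree M A) ⟨N + 1, w⟩ ⟨m, v⟩ := by
      intro m hm w v hz
      refine ⟨fun x y => ∃ m ≤ N, ∃ (w : (layer M A (N + 1)).W) (v : (layer M A m).W),
        x = ⟨N + 1, w⟩ ∧ y = ⟨m, v⟩ ∧ Z m w v, ?_, m, hm, w, v, rfl, rfl, hz⟩
      rintro x y ⟨m, hm, w, v, rfl, rfl, hz⟩
      obtain ⟨h1, h2, h3⟩ := hZ m hm w v hz
      refine ⟨h1, ?_, ?_⟩
      · intro i x' hx'
        obtain ⟨w', rfl, hr⟩ := treeRel hx'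
        obtain ⟨v', hr', hz'⟩ := h2 i w' hr
        exact ⟨⟨m, v'⟩, TreeRel.mk m v v' hr', m, hm, w', v', rfl, rfl, hz'⟩
      · intro i y' hy'
        obtain ⟨v', rfl, hr⟩ := treeRel hy'
        obtain ⟨w', hr', hz'⟩ := h3 i v' hr
        exact ⟨⟨N + 1, w'⟩, TreeRel.mk (N + 1) w w' hr', m, hm, w', v', rfl, rfl, hz'⟩
    have hc : ∀ (n : ℕ) (x : (layer M A n).W), ∃ m ≤ N, ∃ v : (layer M A m).W,
        Bisimilar (tree M A) ⟨n, x⟩ ⟨m, v⟩ := by
      intro n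
      induction n with
      | zero =>
        intro x
        exact ⟨0, Nat.zero_le _, x, bisimilar_refl _⟩
      | succ n ih =>
        intro x
        obtain ⟨⟨w, e⟩, hw⟩ : (upd (layer M A n) A).W := x
        obtain ⟨m, hm, v, hb⟩ := ih w
        obtain ⟨hv, hb'⟩ := next_bisim (e := e) hw hb
        rcases Nat.lt_or_ge m N with h | h
        · exact ⟨m + 1, h, _, hb'⟩
        · obtain rfl : m = N := le_antisymm hm h
          obtain ⟨m', hm', v', hz⟩ := hcov (⟨(v, e), hv⟩ : (upd (layer M A m) A).W)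
          exact ⟨m', hm', v', bisimilar_trans hb' (ha m' hm' _ v' hz)⟩
    have hfin : Set.Finite {x : (tree M A).W | x.1 ≤ N} := by
      have h1 : Set.Finite (⋃ n ∈ Set.Iic N,
          Set.range (fun w : (layer M A n).W => (⟨n, w⟩ : (tree M A).W))) := by
        refine Set.Finite.biUnion (Set.finite_Iic N) (fun n _ => ?_)
        have := layer_finite (M := M) (A := A) n
        exact Set.finite_range _
      refine h1.subset ?_
      rintro ⟨n, w⟩ hx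
      exact Set.mem_biUnion (show n ∈ Set.Iic N from hx) ⟨w, rfl⟩
    refine ⟨hfin.toFinset, fun x => ?_⟩
    obtain ⟨n, w⟩ : Σ n, (layer M A n).W := x
    obtain ⟨m, hm, v, hb⟩ := hc n w
    exact ⟨⟨m, v⟩, hfin.mem_toFinset.mpr hm, hb⟩

end Pool.Agent.Q206.UE.JUb3
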