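import Pool.Agent.Q206.UE.Stm

/-!
JOB ub4: checking a bisimulation between finite models given as lists is primitive recursive.
-/

namespace Pool.Agent.Q206.UE.JUb4

theorem i0 {C : Type} [Primcodable C] : Primrec fun c : C => c := Primrec.id

theorem f1 {C A B : Type} [Primcodable C] [Primcodable A] [Primcodable B] {F : C → A × B}
    (h : Primrec F) : Primrec fun c => (F c).1 := Primrec.fst.comp h

theorem f2 {C A B : Type} [Primcodable C] [Primcodable A] [Primcodable B] {F : C → A × B}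
    (h : Primrec F) : Primrec fun c => (F c).2 := Primrec.snd.comp h

theorem allM {C α : Type} [Primcodable C] [Primcodable α] {L : C → List α} {P : α × C → Prop}
    (hP : PrimrecPred P) (hL : Primrec L) : PrimrecPred fun c => ∀ a ∈ L c, P (a, c) := by
  have h : PrimrecRel (fun (a : α) (c : C) => P (a, c)) :=
    hP.comp (Primrec.pair Primrec.fst Primrec.snd)
  exact h.forall_mem_list.comp hL Primrec.id

theorem exM {C α : Type} [Primcodable C] [Primcodable α] {L : C → List α} {P : α × C → Prop}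
    (hP : PrimrecPred P) (hL : Primrec L) : PrimrecPred fun c => ∃ a ∈ L c, P (a, c) := by
  have h : PrimrecRel (fun (a : α) (c : C) => P (a, c)) :=
    hP.comp (Primrec.pair Primrec.fst Primrec.snd)
  exact h.exists_mem_list.comp hL Primrec.id

theorem mem' {C α : Type} [Primcodable C] [Primcodable α] {L : C → List α} {f : C → α}
    (hf : Primrec f) (hL : Primrec L) : PrimrecPred fun c => f c ∈ L c := by
  have h : PrimrecRel (fun (a b : α) => a = b) := Primrec.eq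
  exact (h.exists_mem_list.comp hL hf).of_eq (fun c => by simp)

theorem eq' {C α : Type} [Primcodable C] [Primcodable α] {f g : C → α}
    (hf : Primrec f) (hg : Primrec g) : PrimrecPred fun c => f c = g c :=
  Primrec.eq.comp hf hg

theorem lt' {C : Type} [Primcodable C] {f g : C → ℕ}
    (hf : Primrec f) (hg : Primrec g) : PrimrecPred fun c => f c < g c :=
  Primrec.nat_lt.comp hf hg

theorem imp' {C : Type} [Primcodable C] {p q : C → Prop}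
    (hp : PrimrecPred p) (hq : PrimrecPred q) : PrimrecPred fun c => p c → q c :=
  (hp.not.or hq).of_eq (fun c => by tauto)

/-- the context: the two models and the list -/
abbrev C0 (k : ℕ) : Type := (FM k × FM k) × List (ℕ × ℕ)

theorem c3 (k : ℕ) : PrimrecPred fun c : (ℕ × ℕ) × C0 k =>
    ∀ x ∈ c.2.1.1.2.2, x.1 = c.1.1 → (c.1.2, x.2) ∈ c.2.1.2.2.2 :=
  allM (P := fun c : (ℕ × ℕ) × ((ℕ × ℕ) × C0 k) =>
    c.1.1 = c.2.1.1 → (c.2.1.2, c.1.2) ∈ c.2.2.1.2.2.2)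
    (imp' (eq' (f1 (f1 i0)) (f1 (f1 (f2 i0))))
      (mem' (Primrec.pair (f2 (f1 (f2 i0))) (f2 (f1 i0))) (f2 (f2 (f2 (f1 (f2 (f2 i0))))))))
    (f2 (f2 (f1 (f1 (f2 i0)))))

theorem c4 (k : ℕ) : PrimrecPred fun c : (ℕ × ℕ) × C0 k =>
    ∀ x ∈ c.2.1.2.2.2, x.1 = c.1.2 → (c.1.1, x.2) ∈ c.2.1.1.2.2 :=
  allM (P := fun c : (ℕ × ℕ) × ((ℕ × ℕ) × C0 k) =>
    c.1.1 = c.2.1.2 → (c.2.1.1, c.1.2) ∈ c.2.2.1.1.2.2)
    (imp' (eq' (f1 (f1 i0)) (f2 (f1 (f2 i0))))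
      (mem' (Primrec.pair (f1 (f1 (f2 i0))) (f2 (f1 i0))) (f2 (f2 (f1 (f1 (f2 (f2 i0))))))))
    (f2 (f2 (f2 (f1 (f2 i0)))))

theorem c5 (k : ℕ) : PrimrecPred fun c : (ℕ × ℕ) × C0 k =>
    ∀ x ∈ c.2.1.1.2.1, x.2.1 = c.1.1 → x.2.2 < c.2.1.1.1 →
      ∃ y ∈ c.2.1.2.2.1, y.1 = x.1 ∧ y.2.1 = c.1.2 ∧ (x.2.2, y.2.2) ∈ c.2.2 :=
  allM (P := fun c : (Fin k × ℕ × ℕ) × ((ℕ × ℕ) × C0 k) =>
    c.1.2.1 = c.2.1.1 → c.1.2.2 < c.2.2.1.1.1 →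
      ∃ y ∈ c.2.2.1.2.2.1, y.1 = c.1.1 ∧ y.2.1 = c.2.1.2 ∧ (c.1.2.2, y.2.2) ∈ c.2.2.2)
    (imp' (eq' (f1 (f2 (f1 i0))) (f1 (f1 (f2 i0))))
      (imp' (lt' (f2 (f2 (f1 i0))) (f1 (f1 (f1 (f2 (f2 i0))))))
        (exM (P := fun c : (Fin k × ℕ × ℕ) × ((Fin k × ℕ × ℕ) × ((ℕ × ℕ) × C0 k)) =>
          c.1.1 = c.2.1.1 ∧ c.1.2.1 = c.2.2.1.2 ∧ (c.2.1.2.2, c.1.2.2) ∈ c.2.2.2.2)
          ((eq' (f1 (f1 i0)) (f1 (f1 (f2 i0)))).and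
            ((eq' (f1 (f2 (f1 i0))) (f2 (f1 (f2 (f2 i0))))).and
              (mem' (Primrec.pair (f2 (f2 (f1 (f2 i0)))) (f2 (f2 (f1 i0)))) (f2 (f2 (f2 (f2 i0)))))))
          (f1 (f2 (f2 (f1 (f2 (f2 i0)))))))))
    (f1 (f2 (f1 (f1 (f2 i0)))))

theorem c6 (k : ℕ) : PrimrecPred fun c : (ℕ × ℕ) × C0 k =>
    ∀ y ∈ c.2.1.2.2.1, y.2.1 = c.1.2 → y.2.2 < c.2.1.2.1 →
      ∃ x ∈ c.2.1.1.2.1, x.1 = y.1 ∧ x.2.1 = c.1.1 ∧ (x.2.2, y.2.2) ∈ c.2.2 :=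
  allM (P := fun c : (Fin k × ℕ × ℕ) × ((ℕ × ℕ) × C0 k) =>
    c.1.2.1 = c.2.1.2 → c.1.2.2 < c.2.2.1.2.1 →
      ∃ x ∈ c.2.2.1.1.2.1, x.1 = c.1.1 ∧ x.2.1 = c.2.1.1 ∧ (x.2.2, c.1.2.2) ∈ c.2.2.2)
    (imp' (eq' (f1 (f2 (f1 i0))) (f2 (f1 (f2 i0))))
      (imp' (lt' (f2 (f2 (f1 i0))) (f1 (f2 (f1 (f2 (f2 i0))))))
        (exM (P := fun c : (Fin k × ℕ × ℕ) × ((Fin k × ℕ × ℕ) × ((ℕ × ℕ) × C0 k)) =>
          c.1.1 = c.2.1.1 ∧ c.1.2.1 = c.2.2.1.1 ∧ (c.1.2.2, c.2.1.2.2) ∈ c.2.2.2.2)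
          ((eq' (f1 (f1 i0)) (f1 (f1 (f2 i0)))).and
            ((eq' (f1 (f2 (f1 i0))) (f1 (f1 (f2 (f2 i0))))).and
              (mem' (Primrec.pair (f2 (f2 (f1 i0))) (f2 (f2 (f1 (f2 i0))))) (f2 (f2 (f2 (f2 i0)))))))
          (f1 (f2 (f1 (f1 (f2 (f2 i0)))))))))
    (f1 (f2 (f2 (f1 (f2 i0)))))

theorem ub4 : S_ub4 := by
  intro k
  have h : PrimrecPred fun c : (ℕ × ℕ) × C0 k =>
      c.1.1 < c.2.1.1.1 ∧ c.1.2 < c.2.1.2.1 ∧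
      (∀ x ∈ c.2.1.1.2.2, x.1 = c.1.1 → (c.1.2, x.2) ∈ c.2.1.2.2.2) ∧
      (∀ x ∈ c.2.1.2.2.2, x.1 = c.1.2 → (c.1.1, x.2) ∈ c.2.1.1.2.2) ∧
      (∀ x ∈ c.2.1.1.2.1, x.2.1 = c.1.1 → x.2.2 < c.2.1.1.1 →
        ∃ y ∈ c.2.1.2.2.1, y.1 = x.1 ∧ y.2.1 = c.1.2 ∧ (x.2.2, y.2.2) ∈ c.2.2) ∧
      (∀ y ∈ c.2.1.2.2.1, y.2.1 = c.1.2 → y.2.2 < c.2.1.2.1 →
        ∃ x ∈ c.2.1.1.2.1, x.1 = y.1 ∧ x.2.1 = c.1.1 ∧ (x.2.2, y.2.2) ∈ c.2.2) :=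
    (lt' (f1 (f1 i0)) (f1 (f1 (f1 (f2 i0))))).and ((lt' (f2 (f1 i0)) (f1 (f2 (f1 (f2 i0))))).and
      ((c3 k).and ((c4 k).and ((c5 k).and (c6 k)))))
  exact allM (L := fun c : C0 k => c.2) h (f2 i0)

end Pool.Agent.Q206.UE.JUb4
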