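import Pool.Agent.Q206.UE.Stm
import Pool.Agent.Helper450.NP.Univ

/-!
JOB univ: a fixed universal array for all r.e. sets.
-/

namespace Pool.Agent.Q206.UE.JUniv

open Turing Pool.Agent.Helper450.NPM.Univ
open Turing.PartrecToTM2 (trNat trList trNum trPosNum)

/-- every r.e. set is reducible to the domain of `u` -/
theorem red (S : ℕ → Prop) (hS : REPred S) :
    ∃ g : ℕ → ℕ, Computable g ∧ ∀ n, S n ↔ (u (g n)).Dom := by
  have h1 : Partrec fun n : ℕ => (Part.assert (S n) fun _ => Part.some ()).map (fun _ => (0 : ℕ)) :=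
    Partrec.map hS ((Computable.const (0 : ℕ)).comp Computable.fst).to₂
  obtain ⟨d, hd⟩ := Nat.Partrec.Code.exists_code.mp (Partrec.nat_iff.mp h1)
  let c' : Nat.Partrec.Code := Nat.Partrec.Code.comp d Nat.Partrec.Code.left
  refine ⟨fun n => Encodable.encode (Nat.Partrec.Code.curry c' n), ?_, fun n => ?_⟩
  · exact (Primrec.encode.comp (Nat.Partrec.Code.primrec₂_curry.comp (Primrec.const c')
      Primrec.id)).to_comp
  · unfold u
    rw [Denumerable.ofNat_encode, Nat.Partrec.Code.eval_curry]
    have e1 : Nat.Partrec.Code.eval c' (Nat.pair n 0) = Nat.Partrec.Code.eval d n := by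
      simp only [c', Nat.Partrec.Code.eval]
      simp only [PFun.coe_val, Nat.unpair_pair]
      exact Part.bind_some _ _
    rw [e1, hd]
    simp [Part.assert]

theorem finK : Finite PartrecToTM2.K' := by
  refine Finite.of_surjective (fun i : Fin 4 => match i with
    | 0 => PartrecToTM2.K'.main
    | 1 => PartrecToTM2.K'.rev
    | 2 => PartrecToTM2.K'.aux
    | 3 => PartrecToTM2.K'.stack) ?_
  intro k
  cases k
  · exact ⟨0, rfl⟩
  · exact ⟨1, rfl⟩
  · exact ⟨2, rfl⟩
  · exact ⟨3, rfl⟩

theorem finΓ : Finite (TM2to1.Γ' PartrecToTM2.K' (fun _ => PartrecToTM2.Γ')) := by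
  have := finK
  unfold TM2to1.Γ'
  infer_instance

theorem univ : S_univ := by
  intro htmz hca
  obtain ⟨Λ, i1, i2, M, hM⟩ := exists_machine
  have hf := finΓ
  obtain ⟨K, ρ, q₀, h, A, B, h1, h2, h3⟩ := hca (TM2to1.Γ' PartrecToTM2.K'
    (fun _ => PartrecToTM2.Γ')) Λ M
  refine ⟨K, ρ, q₀, h, h1, h2, fun S hS => ?_⟩
  obtain ⟨g, hg1, hg2⟩ := red S hS
  let a0 : Fin K := A (sym true .cons)
  let κ : PartrecToTM2.Γ' → ℕ := fun x => Encodable.encode (B (sym false x))
  let dec : ℕ → Fin K := fun j => (Encodable.decode (α := Fin K) j).getD a0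
  have hdec : Primrec dec := Primrec.option_getD.comp Primrec.decode (Primrec.const a0)
  let Wd : ℕ → List (Fin K) := fun n => a0 :: (((trNat n).map κ).map dec).reverse
  have hW : Computable Wd := by
    have p1 : Primrec fun l : List ℕ => a0 :: (l.map dec).reverse :=
      Primrec.list_cons.comp (Primrec.const a0) (Primrec.list_reverse.comp
        (Primrec.list_map Primrec.id (hdec.comp Primrec.snd).to₂))
    exact p1.to_comp.comp (digits_computable κ)
  refine ⟨fun n => Wd (g n), hW.comp hg1, fun n => ?_⟩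
  rw [hg2 n, ← hM (g n), htmz, ← h3]
  have e : A ((sym true PartrecToTM2.Γ'.cons :: (trNat (g n)).reverse.map (sym false)).getD 0
      default) :: ((sym true PartrecToTM2.Γ'.cons ::
        (trNat (g n)).reverse.map (sym false)).tail.map B) = Wd (g n) := by
    simp only [Wd, List.getD_cons_zero, List.tail_cons, List.map_map, a0]
    congr 1
    rw [← List.map_reverse]
    apply List.map_congr_left
    intro x _
    simp only [Function.comp_apply, dec, κ, Encodable.encodek, Option.getD_some]
  rw [e]

end Pool.Agent.Q206.UE.JUniv
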