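import Pool.Agent.Q206.UE.Uni
import Pool.Agent.Q206.UE.JUb1
import Pool.Agent.Q206.UE.JUb2

/-!
# Update evolution, job v1: evaluation of formulas in reverse Polish notation
-/

set_option autoImplicit false

namespace Pool.Agent.Q206.UE

namespace V1

open Ub2 JUb1

variable {k : ℕ}

/-- the first element of the stack -/
def hd (y : FM k × List (List ℕ)) : List ℕ := (y.2.head?).getD (List.range y.1.1)

/-- the second element of the stack -/
def hd2 (y : FM k × List (List ℕ)) : List ℕ := (y.2.tail.head?).getD (List.range y.1.1)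

/-- reading an atom -/
noncomputable def A1 (y : FM k × List (List ℕ)) (p : ℕ) : List (List ℕ) :=
  ((List.range y.1.1).filter fun w => cd ((w, p) ∈ y.1.2.2)) :: y.2

/-- reading a conjunction -/
noncomputable def A2a (y : FM k × List (List ℕ)) : List (List ℕ) :=
  ((List.range y.1.1).filter fun w => cd (w ∈ hd2 y ∧ w ∈ hd y)) :: y.2.tail.tail

/-- reading a negation -/
noncomputable def A2b (y : FM k × List (List ℕ)) : List (List ℕ) :=
  ((List.range y.1.1).filter fun w => cd (¬ w ∈ hd y)) :: y.2.tail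

/-- reading a knowledge operator -/
noncomputable def A3 (y : FM k × List (List ℕ)) (i : Fin k) : List (List ℕ) :=
  ((List.range y.1.1).filter fun w => cd (∀ x ∈ y.1.2.1, x.1 = i → x.2.1 = w →
    x.2.2 < y.1.1 → x.2.2 ∈ hd y)) :: y.2.tail

/-- reading a token which is not an atom -/
noncomputable def ev2 (y : FM k × List (List ℕ)) (c : Bool ⊕ Fin k) : List (List ℕ) :=
  Sum.casesOn c (fun b => bif b then A2a y else A2b y) (A3 y)

/-- reading a token -/
noncomputable def ev (y : FM k × List (List ℕ)) (t : Tok k) : List (List ℕ) :=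
  Sum.casesOn t (A1 y) (ev2 y)

theorem prim_hd : Primrec (hd (k := k)) :=
  Primrec.option_getD.comp (Primrec.list_head?.comp Primrec.snd)
    (Primrec.list_range.comp (f1 (f1 i0)))

theorem prim_hd2 : Primrec (hd2 (k := k)) :=
  Primrec.option_getD.comp (Primrec.list_head?.comp (Primrec.list_tail.comp Primrec.snd))
    (Primrec.list_range.comp (f1 (f1 i0)))

theorem prim_A1 : Primrec₂ (A1 (k := k)) := by
  have h : Primrec fun q : (FM k × List (List ℕ)) × ℕ =>
      (List.range q.1.1.1).filter fun w => cd ((w, q.2) ∈ q.1.1.2.2) :=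
    prim_filter (R := fun (w : ℕ) (q : (FM k × List (List ℕ)) × ℕ) => (w, q.2) ∈ q.1.1.2.2)
      (Primrec.list_range.comp (f1 (f1 (f1 i0))))
      (mem' (Primrec.pair (f1 i0) (f2 (f2 i0))) (f2 (f2 (f1 (f1 (f2 i0))))))
  exact Primrec.list_cons.comp h (f2 (f1 i0))

theorem prim_A2a : Primrec (A2a (k := k)) := by
  have h : Primrec fun y : FM k × List (List ℕ) =>
      (List.range y.1.1).filter fun w => cd (w ∈ hd2 y ∧ w ∈ hd y) :=
    prim_filter (R := fun (w : ℕ) (y : FM k × List (List ℕ)) => w ∈ hd2 y ∧ w ∈ hd y)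
      (Primrec.list_range.comp (f1 (f1 i0)))
      (PrimrecPred.and (mem' (f1 i0) (prim_hd2.comp (f2 i0))) (mem' (f1 i0) (prim_hd.comp (f2 i0))))
  exact Primrec.list_cons.comp h (Primrec.list_tail.comp (Primrec.list_tail.comp (f2 i0)))

theorem prim_A2b : Primrec (A2b (k := k)) := by
  have h : Primrec fun y : FM k × List (List ℕ) =>
      (List.range y.1.1).filter fun w => cd (¬ w ∈ hd y) :=
    prim_filter (R := fun (w : ℕ) (y : FM k × List (List ℕ)) => ¬ w ∈ hd y)
      (Primrec.list_range.comp (f1 (f1 i0)))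
      (PrimrecPred.not (mem' (f1 i0) (prim_hd.comp (f2 i0))))
  exact Primrec.list_cons.comp h (Primrec.list_tail.comp (f2 i0))

theorem prim_A3 : Primrec₂ (A3 (k := k)) := by
  have hc : PrimrecPred fun c : (Fin k × ℕ × ℕ) × (ℕ × ((FM k × List (List ℕ)) × Fin k)) =>
      c.1.1 = c.2.2.2 → c.1.2.1 = c.2.1 → c.1.2.2 < c.2.2.1.1.1 → c.1.2.2 ∈ hd c.2.2.1 :=
    imp' (eq' (f1 (f1 i0)) (f2 (f2 (f2 i0)))) (imp' (eq' (f1 (f2 (f1 i0))) (f1 (f2 i0)))
      (imp' (lt' (f2 (f2 (f1 i0))) (f1 (f1 (f1 (f2 (f2 i0))))))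
        (mem' (f2 (f2 (f1 i0))) (prim_hd.comp (f1 (f2 (f2 i0)))))))
  have hR : PrimrecPred fun c : ℕ × ((FM k × List (List ℕ)) × Fin k) =>
      ∀ x ∈ c.2.1.1.2.1, x.1 = c.2.2 → x.2.1 = c.1 → x.2.2 < c.2.1.1.1 → x.2.2 ∈ hd c.2.1 :=
    allM (L := fun c : ℕ × ((FM k × List (List ℕ)) × Fin k) => c.2.1.1.2.1) hc
      (f1 (f2 (f1 (f1 (f2 i0)))))
  have h : Primrec fun q : (FM k × List (List ℕ)) × Fin k =>
      (List.range q.1.1.1).filter fun w => cd (∀ x ∈ q.1.1.2.1, x.1 = q.2 → x.2.1 = w →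
        x.2.2 < q.1.1.1 → x.2.2 ∈ hd q.1) :=
    prim_filter (R := fun (w : ℕ) (q : (FM k × List (List ℕ)) × Fin k) =>
      ∀ x ∈ q.1.1.2.1, x.1 = q.2 → x.2.1 = w → x.2.2 < q.1.1.1 → x.2.2 ∈ hd q.1)
      (Primrec.list_range.comp (f1 (f1 (f1 i0)))) hR
  exact Primrec.list_cons.comp h (Primrec.list_tail.comp (f2 (f1 i0)))

theorem prim_cnd : Primrec₂ fun (p : (FM k × List (List ℕ)) × (Bool ⊕ Fin k)) (b : Bool) =>
    bif b then A2a p.1 else A2b p.1 := by
  have h1 : Primrec fun q : ((FM k × List (List ℕ)) × (Bool ⊕ Fin k)) × Bool => A2a q.1.1 :=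
    prim_A2a.comp (f1 (f1 i0))
  have h2 : Primrec fun q : ((FM k × List (List ℕ)) × (Bool ⊕ Fin k)) × Bool => A2b q.1.1 :=
    prim_A2b.comp (f1 (f1 i0))
  have h3 : Primrec fun q : ((FM k × List (List ℕ)) × (Bool ⊕ Fin k)) × Bool => q.2 := f2 i0
  exact Primrec.cond h3 h1 h2

theorem prim_k : Primrec₂ fun (p : (FM k × List (List ℕ)) × (Bool ⊕ Fin k)) (i : Fin k) =>
    A3 p.1 i := by
  have h1 : Primrec fun q : ((FM k × List (List ℕ)) × (Bool ⊕ Fin k)) × Fin k => q.1.1 :=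
    f1 (f1 i0)
  have h2 : Primrec fun q : ((FM k × List (List ℕ)) × (Bool ⊕ Fin k)) × Fin k => q.2 := f2 i0
  exact Primrec₂.comp (f := A3) prim_A3 h1 h2

theorem prim_ev2 : Primrec₂ (ev2 (k := k)) := by
  have h0 : Primrec fun q : (FM k × List (List ℕ)) × (Bool ⊕ Fin k) => q.2 := f2 i0
  exact Primrec.sumCasesOn h0 prim_cnd prim_k

theorem prim_a : Primrec₂ fun (p : (FM k × List (List ℕ)) × Tok k) (a : ℕ) =>
    A1 p.1 a := by
  have h1 : Primrec fun q : ((FM k × List (List ℕ)) × Tok k) × ℕ => q.1.1 := f1 (f1 i0)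
  have h2 : Primrec fun q : ((FM k × List (List ℕ)) × Tok k) × ℕ => q.2 := f2 i0
  exact Primrec₂.comp (f := A1) prim_A1 h1 h2

theorem prim_b : Primrec₂ fun (p : (FM k × List (List ℕ)) × Tok k) (c : Bool ⊕ Fin k) =>
    ev2 p.1 c := by
  have h1 : Primrec fun q : ((FM k × List (List ℕ)) × Tok k) × (Bool ⊕ Fin k) => q.1.1 :=
    f1 (f1 i0)
  have h2 : Primrec fun q : ((FM k × List (List ℕ)) × Tok k) × (Bool ⊕ Fin k) => q.2 := f2 i0
  exact Primrec₂.comp (f := ev2) prim_ev2 h1 h2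

theorem prim_ev : Primrec₂ (ev (k := k)) := by
  have h0 : Primrec fun q : (FM k × List (List ℕ)) × Tok k => q.2 := f2 i0
  exact Primrec.sumCasesOn h0 prim_a prim_b

/-- the list of the worlds where a formula holds -/
def Rl (D : FM k) (φ : Fml k) (X : List ℕ) : Prop :=
  ∀ w, w ∈ X ↔ ∃ hw : w < D.1, Holds (toModel D) φ ⟨w, hw⟩

theorem rl_top (D : FM k) : Rl D top (List.range D.1) := by
  intro w
  rw [List.mem_range]
  exact ⟨fun h => ⟨h, holds_top _ _⟩, fun h => h.1⟩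

theorem rl_head {D : FM k} {F : List (Fml k)} {s : List (List ℕ)} (h : List.Forall₂ (Rl D) F s) :
    Rl D (F.headD top) (hd (D, s)) := by
  cases h with
  | nil => exact rl_top D
  | cons h _ => exact h

theorem rl_tail {D : FM k} {F : List (Fml k)} {s : List (List ℕ)} (h : List.Forall₂ (Rl D) F s) :
    List.Forall₂ (Rl D) F.tail s.tail := by
  cases h with
  | nil => exact List.Forall₂.nil
  | cons _ h => exact h

theorem rl_head2 {D : FM k} {F : List (Fml k)} {s : List (List ℕ)}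
    (h : List.Forall₂ (Rl D) F s) : Rl D (F.tail.headD top) (hd2 (D, s)) := rl_head (rl_tail h)

theorem step {D : FM k} {F : List (Fml k)} {s : List (List ℕ)} (h : List.Forall₂ (Rl D) F s)
    (t : Tok k) : List.Forall₂ (Rl D) (rd F t) (ev (D, s) t) := by
  rcases t with p | b | i
  · refine List.Forall₂.cons (fun w => ?_) h
    rw [List.mem_filter, List.mem_range, cd_iff]
    exact ⟨fun h => ⟨h.1, h.2⟩, fun h => ⟨h.1, h.2⟩⟩
  · cases b with
    | false =>
      refine List.Forall₂.cons (fun w => ?_) (rl_tail h)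
      rw [List.mem_filter, List.mem_range, cd_iff, rl_head h w]
      constructor
      · rintro ⟨h1, h2⟩
        exact ⟨h1, fun h3 => h2 ⟨h1, h3⟩⟩
      · rintro ⟨h1, h2⟩
        exact ⟨h1, fun ⟨_, h3⟩ => h2 h3⟩
    | true =>
      refine List.Forall₂.cons (fun w => ?_) (rl_tail (rl_tail h))
      rw [List.mem_filter, List.mem_range, cd_iff, rl_head h w, rl_head2 h w]
      constructor
      · rintro ⟨h1, ⟨_, h2⟩, ⟨_, h3⟩⟩
        exact ⟨h1, h2, h3⟩
      · rintro ⟨h1, h2, h3⟩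
        exact ⟨h1, ⟨h1, h2⟩, ⟨h1, h3⟩⟩
  · refine List.Forall₂.cons (fun w => ?_) (rl_tail h)
    rw [List.mem_filter, List.mem_range, cd_iff]
    constructor
    · rintro ⟨h1, h2⟩
      refine ⟨h1, fun v hv => ?_⟩
      have h3 := h2 (i, w, (v : Fin D.1).1) hv rfl rfl v.2
      obtain ⟨_, h4⟩ := (rl_head h _).1 h3
      exact h4
    · rintro ⟨h1, h2⟩
      refine ⟨h1, fun t ht e1 e2 e3 => (rl_head h _).2 ⟨e3, h2 ⟨t.2.2, e3⟩ ?_⟩⟩
      change (i, w, t.2.2) ∈ D.2.1
      have : t = (i, w, t.2.2) := by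
        rw [← e1, ← e2]
      rw [← this]
      exact ht

theorem fold (D : FM k) (l : List (Tok k)) : ∀ (F : List (Fml k)) (s : List (List ℕ)),
    List.Forall₂ (Rl D) F s →
    List.Forall₂ (Rl D) (l.foldl rd F) (l.foldl (fun s t => ev (D, s) t) s) := by
  induction l with
  | nil => exact fun F s h => h
  | cons t l ih => exact fun F s h => ih _ _ (step h t)

end V1

open V1 JUb1 in
theorem v1 : S_v1 := by
  intro k
  have hf : Primrec fun x : FM k × List (Tok k) =>
      x.2.foldl (fun (s : List (List ℕ)) t => ev (x.1, s) t) [] :=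
    Primrec.list_foldl (α := FM k × List (Tok k)) (f := fun x => x.2) (g := fun _ => [])
      (h := fun x (p : List (List ℕ) × Tok k) => ev (x.1, p.1) p.2) (f2 i0) (Primrec.const [])
      (prim_ev.comp (Primrec.pair (f1 (f1 i0)) (f1 (f2 i0))) (f2 (f2 i0)))
  have h : PrimrecPred fun x : (FM k × List (Tok k)) × ℕ =>
      x.2 ∈ hd (x.1.1, x.1.2.foldl (fun (s : List (List ℕ)) t => ev (x.1.1, s) t) []) :=
    mem' (f2 i0) (prim_hd.comp (Primrec.pair (f1 (f1 i0)) (hf.comp (f1 i0))))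
  refine h.of_eq fun x => ?_
  exact rl_head (fold x.1.1 x.1.2 [] [] List.Forall₂.nil) x.2

end Pool.Agent.Q206.UE
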