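import Pool.Agent.Q206.UE.Base

/-!
# Action models as data: the upper bound uniformly in the action model
-/

namespace Pool.Agent.Q206.UE

/-- Tokens of formulas in reverse Polish notation: an atom, negation (`false`), conjunction
(`true`), a knowledge operator. -/
abbrev Tok (k : ℕ) : Type := ℕ ⊕ (Bool ⊕ Fin k)

/-- One token is read; the stack holds the formulas built so far (a missing argument counts as the
tautology `top`). -/
def rd {k : ℕ} (s : List (Fml k)) : Tok k → List (Fml k)
  | .inl p => .atom p :: s
  | .inr (.inl false) => .neg (s.headD top) :: s.tail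
  | .inr (.inl true) => .and (s.tail.headD top) (s.headD top) :: s.tail.tail
  | .inr (.inr i) => .know i (s.headD top) :: s.tail

/-- The formula written in reverse Polish notation. -/
def fm {k : ℕ} (l : List (Tok k)) : Fml k := (l.foldl rd []).headD top

/-- Finite action models as data: the list of the preconditions of the events `0, …, n - 1`, and
the list of the triples `(agent, event, event)` of the relations. -/
abbrev FA (k : ℕ) : Type := List (List (Tok k)) × List (Fin k × ℕ × ℕ)

/-- The action model given by the data. -/
def toAction {k : ℕ} (α : FA k) : Action k where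
  E := Fin α.1.length
  rel i e f := (i, (e : ℕ), (f : ℕ)) ∈ α.2
  pre e := fm (α.1.get e)

/-- JOB v1. Proof: evaluate on a stack of lists of worlds. For `D = (n, R, V)` let
`ev D : List (List ℕ) → Tok k → List (List ℕ)` be
`inl p ↦ ((range n).filter (fun w => (w, p) ∈ V)) :: s`,
`inr (inl false) ↦ ((range n).filter (fun w => w ∉ s.headD (range n))) :: s.tail`,
`inr (inl true) ↦ ((range n).filter (fun w => w ∈ s.tail.headD (range n) ∧ w ∈ s.headD (range n))) ::
s.tail.tail`, `inr (inr i) ↦ ((range n).filter (fun w => ∀ v ∈ range n, (i, w, v) ∈ R →
v ∈ s.headD (range n))) :: s.tail`. Invariant of the two folds (with `rd` and with `ev D`):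
`List.Forall₂ (fun φ X => ∀ w, w ∈ X ↔ ∃ hw : w < n, Holds (toModel D) φ ⟨w, hw⟩)`; the tautology
corresponds to `range n` (`holds_top` in `Base`). The fold is primitive recursive in `(D, l)`
(`Primrec.list_foldl`, `Primrec.sumCasesOn`/`Primrec.sumCasesOn`-like lemmas, `Primrec.ite`/`cond`,
filters as `flatMap`/`filterMap` of `if`; bounded quantifiers over lists as in
`Pool.Agent.Q206.UE.JUb1`, `JUb2`, `JUb4` of `helper295`/`helper192`). -/
def S_v1 : Prop :=
  ∀ k : ℕ, PrimrecPred fun x : (FM k × List (Tok k)) × ℕ =>
    ∃ hx : x.2 < x.1.1.1, Holds (toModel x.1.1) (fm x.1.2) ⟨x.2, hx⟩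

/-- JOB v2. The update, uniformly in the action model. Proof: as in `Pool.Agent.Q206.UE.JUb2`
(theorem `ub2`, for one fixed action model): list the pairs `(w, j)`, `w < n`,
`j < α.1.length`, for which `Holds (toModel D) (fm (α.1.getD j [])) w` (primitive recursive by
`S_v1`), number the worlds of the update by their places in this list, and write down the lists of
triples and atoms. -/
def S_v2 : Prop :=
  S_v1 → ∀ k : ℕ, ∃ U : FM k × FA k → FM k, Primrec U ∧
    ∀ D α, Iso (toModel (U (D, α))) (upd (toModel D) (toAction α))

/-- JOB v3. Every finite action model is given by data. Proof: every formula is `fm l` for some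
`l` (for the reverse Polish word `rp φ` of `φ`, `(rp φ).foldl rd s = φ :: s` by induction on `φ`);
number the events (`Finite.equivFin`), list all triples of the relations (classical filter of a
finite list). So `toAction α` is isomorphic to `A` (a bijection `ν` of the events which respects
relations and preconditions). Then `Iso (upd M (toAction α)) (upd M A)` for all `M`
(`(w, e) ↦ (w, ν e)`), with `Iso.upd`, `Iso.trans` (in `Base`) by induction
`Iso (layer M (toAction α) n) (layer M A n)` for all `n`, hence (choose an isomorphism for each
`n`) `Iso (tree M (toAction α)) (tree M A)`, and isomorphic models are both finite modulo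
bisimulation or both not (transport the finite set and the bisimulations). -/
def S_v3 : Prop :=
  ∀ (k : ℕ) (A : Action k) [Finite A.E], ∃ α : FA k, ∀ M : Model k,
    (FinMod (tree M (toAction α)) ↔ FinMod (tree M A))

end Pool.Agent.Q206.UE
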