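import Pool.Agent.Q206.UE.JUb2
import Pool.Agent.Q206.UE.Uni

/-! # The product update on data, uniformly in the action model -/

namespace Pool.Agent.Q206.UE

namespace V2

open Ub2

variable {k : ℕ}

/-- the event number `j` is possible in the world number `w` -/
def okp (D : FM k) (α : FA k) (w j : ℕ) : Prop :=
  ∃ hx : w < D.1, Holds (toModel D) (fm (α.1.getD j [])) ⟨w, hx⟩

/-- the list of the worlds of the update -/
noncomputable def VV (p : FM k × FA k) : List (ℕ × ℕ) :=
  (List.product (List.range p.1.1) (List.range p.2.1.length)).filter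
    (fun x => cd (okp p.1 p.2 x.1 x.2))

/-- the triples of the update -/
noncomputable def tri (p : FM k × FA k) : List (Fin k × ℕ × ℕ) :=
  (List.product (List.finRange k) (List.product (List.range (VV p).length)
    (List.range (VV p).length))).filter (fun x => cd
      ((x.1, ((VV p).getD x.2.1 (0, 0)).1, ((VV p).getD x.2.2 (0, 0)).1) ∈ p.1.2.1 ∧
        (x.1, ((VV p).getD x.2.1 (0, 0)).2, ((VV p).getD x.2.2 (0, 0)).2) ∈ p.2.2))

/-- the atoms of the update -/
noncomputable def atm (p : FM k × FA k) : List (ℕ × ℕ) :=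
  ((List.product (List.range (VV p).length) p.1.2.2).filter
    (fun y => cd (y.2.1 = ((VV p).getD y.1 (0, 0)).1))).map fun y => (y.1, y.2.2)

lemma prim_VV (h1 : S_v1) : Primrec (VV (k := k)) := by
  refine prim_filter (R := fun (x : ℕ × ℕ) (p : FM k × FA k) => okp p.1 p.2 x.1 x.2)
    (prim_product (Primrec.list_range.comp (Primrec.fst.comp Primrec.fst))
      (Primrec.list_range.comp (Primrec.list_length.comp (Primrec.fst.comp Primrec.snd)))) ?_
  have h : Primrec fun y : (ℕ × ℕ) × (FM k × FA k) =>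
      (((y.2.1, y.2.2.1.getD y.1.2 []), y.1.1) : (FM k × List (Tok k)) × ℕ) :=
    Primrec.pair (Primrec.pair (Primrec.fst.comp Primrec.snd)
      ((Primrec.list_getD []).comp (Primrec.fst.comp (Primrec.snd.comp Primrec.snd))
        (Primrec.snd.comp Primrec.fst))) (Primrec.fst.comp Primrec.fst)
  exact (h1 k).comp h

lemma prim_tri (h1 : S_v1) : Primrec (tri (k := k)) := by
  have hV := prim_VV (k := k) h1
  have hlen : Primrec fun p : FM k × FA k => List.range (VV p).length :=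
    Primrec.list_range.comp (Primrec.list_length.comp hV)
  refine prim_filter (R := fun (x : Fin k × ℕ × ℕ) (p : FM k × FA k) =>
      (x.1, ((VV p).getD x.2.1 (0, 0)).1, ((VV p).getD x.2.2 (0, 0)).1) ∈ p.1.2.1 ∧
        (x.1, ((VV p).getD x.2.1 (0, 0)).2, ((VV p).getD x.2.2 (0, 0)).2) ∈ p.2.2)
    (prim_product (Primrec.const _) (prim_product hlen hlen)) ?_
  have hg1 : Primrec fun p : (Fin k × ℕ × ℕ) × (FM k × FA k) => (VV p.2).getD p.1.2.1 (0, 0) :=
    (Primrec.list_getD (0, 0)).comp (hV.comp Primrec.snd)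
      (Primrec.fst.comp (Primrec.snd.comp Primrec.fst))
  have hg2 : Primrec fun p : (Fin k × ℕ × ℕ) × (FM k × FA k) => (VV p.2).getD p.1.2.2 (0, 0) :=
    (Primrec.list_getD (0, 0)).comp (hV.comp Primrec.snd)
      (Primrec.snd.comp (Primrec.snd.comp Primrec.fst))
  have hi : Primrec fun p : (Fin k × ℕ × ℕ) × (FM k × FA k) => p.1.1 :=
    Primrec.fst.comp Primrec.fst
  refine PrimrecPred.and ?_ ?_
  · exact prim_mem (hi.pair ((Primrec.fst.comp hg1).pair (Primrec.fst.comp hg2)))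
      (Primrec.fst.comp (Primrec.snd.comp (Primrec.fst.comp Primrec.snd)))
  · exact prim_mem (hi.pair ((Primrec.snd.comp hg1).pair (Primrec.snd.comp hg2)))
      (Primrec.snd.comp (Primrec.snd.comp Primrec.snd))

lemma prim_atm (h1 : S_v1) : Primrec (atm (k := k)) := by
  have hV := prim_VV (k := k) h1
  have hlen : Primrec fun p : FM k × FA k => List.range (VV p).length :=
    Primrec.list_range.comp (Primrec.list_length.comp hV)
  refine Primrec.list_map (prim_filter (R := fun (y : ℕ × ℕ × ℕ) (p : FM k × FA k) =>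
    y.2.1 = ((VV p).getD y.1 (0, 0)).1)
    (prim_product hlen (Primrec.snd.comp (Primrec.snd.comp Primrec.fst))) ?_) ?_
  · refine Primrec.eq.comp (Primrec.fst.comp (Primrec.snd.comp Primrec.fst)) ?_
    exact Primrec.fst.comp ((Primrec.list_getD (0, 0)).comp (hV.comp Primrec.snd)
      (Primrec.fst.comp Primrec.fst))
  · exact Primrec.pair (Primrec.fst.comp Primrec.snd)
      (Primrec.snd.comp (Primrec.snd.comp Primrec.snd))

lemma mem_VV (p : FM k × FA k) (x : ℕ × ℕ) :
    x ∈ VV p ↔ x.1 < p.1.1 ∧ x.2 < p.2.1.length ∧ okp p.1 p.2 x.1 x.2 := by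
  obtain ⟨w, j⟩ := x
  unfold VV
  rw [List.mem_filter, cd_iff]
  constructor
  · rintro ⟨h, h'⟩
    have h2 := List.mem_product.1 h
    exact ⟨List.mem_range.1 h2.1, List.mem_range.1 h2.2, h'⟩
  · rintro ⟨h, h', h2⟩
    exact ⟨List.mem_product.2 ⟨List.mem_range.2 h, List.mem_range.2 h'⟩, h2⟩

lemma mem_tri (p : FM k × FA k) (i : Fin k) (u v : ℕ) : (i, u, v) ∈ tri p ↔
      (u < (VV p).length ∧ v < (VV p).length) ∧
      (i, ((VV p).getD u (0, 0)).1, ((VV p).getD v (0, 0)).1) ∈ p.1.2.1 ∧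
        (i, ((VV p).getD u (0, 0)).2, ((VV p).getD v (0, 0)).2) ∈ p.2.2 := by
  unfold tri
  rw [List.mem_filter, cd_iff, mem_prod, mem_prod, List.mem_range, List.mem_range]
  exact ⟨fun h => ⟨h.1.2, h.2⟩, fun h => ⟨⟨List.mem_finRange _, h.1⟩, h.2⟩⟩

lemma mem_atm (p : FM k × FA k) (u a : ℕ) :
    (u, a) ∈ atm p ↔ u < (VV p).length ∧ (((VV p).getD u (0, 0)).1, a) ∈ p.1.2.2 := by
  unfold atm
  rw [List.mem_map]
  constructor
  · rintro ⟨⟨y, z, z'⟩, hy, hyz⟩
    rw [List.mem_filter, cd_iff, mem_prod, List.mem_range] at hy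
    simp only [Prod.mk.injEq] at hyz
    obtain ⟨rfl, rfl⟩ := hyz
    obtain ⟨⟨h1, hz⟩, hz1⟩ := hy
    have hz2 : z = ((VV p).getD y (0, 0)).1 := hz1
    rw [← hz2]
    exact ⟨h1, hz⟩
  · rintro ⟨h1, h2⟩
    refine ⟨(u, (((VV p).getD u (0, 0)).1, a)), ?_, rfl⟩
    rw [List.mem_filter, cd_iff, mem_prod, List.mem_range]
    exact ⟨⟨h1, h2⟩, rfl⟩

lemma nodup_VV (p : FM k × FA k) : (VV p).Nodup :=
  (List.nodup_range.product List.nodup_range).filter _

/-- the number of an event -/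
def en {α : FA k} (e : (toAction α).E) : ℕ := Fin.val (n := α.1.length) e

lemma en_lt {α : FA k} (e : (toAction α).E) : en e < α.1.length :=
  Fin.isLt (n := α.1.length) e

lemma en_inj {α : FA k} {e e' : (toAction α).E} (h : en e = en e') : e = e' :=
  Fin.ext (n := α.1.length) h

lemma pre_en {α : FA k} (e : (toAction α).E) :
    (toAction α).pre e = fm (α.1.getD (en e) []) := by
  rw [List.getD_eq_getElem _ _ (en_lt e)]
  rfl

/-- a world of the update as an element of the list -/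
def toV (D : FM k) (α : FA k) (p : (upd (toModel D) (toAction α)).W) :
    {x // x ∈ VV (D, α)} :=
  ⟨(wn p.1.1, en p.1.2), (mem_VV (D, α) _).2
    ⟨wn_lt p.1.1, en_lt p.1.2, wn_lt p.1.1, by
      rw [← pre_en]
      exact p.2⟩⟩

lemma toV_bij (D : FM k) (α : FA k) : Function.Bijective (toV D α) := by
  constructor
  · rintro ⟨⟨w, a⟩, hp⟩ ⟨⟨w', a'⟩, hp'⟩ h
    have h1 : (wn w, en a) = (wn w', en a') := congrArg Subtype.val h
    rw [Prod.mk.injEq] at h1
    have h2 : w = w' := wn_inj h1.1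
    have h3 : a = a' := en_inj h1.2
    subst h2
    subst h3
    rfl
  · rintro ⟨⟨w, j⟩, hx⟩
    obtain ⟨hw, hj, hw', hH⟩ := (mem_VV (D, α) _).1 hx
    refine ⟨⟨((⟨w, hw'⟩ : Fin D.1), (⟨j, hj⟩ : Fin α.1.length)), ?_⟩, rfl⟩
    rw [pre_en]
    exact hH

end V2

open Ub2 V2 in
theorem v2 : S_v2 := by
  classical
  intro h1 k
  refine ⟨fun p => ((V2.VV p).length, V2.tri p, V2.atm p), ?_, ?_⟩
  · exact (Primrec.pair (Primrec.list_length.comp (V2.prim_VV h1))
      ((V2.prim_tri h1).pair (V2.prim_atm h1)))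
  · intro D α
    set e : Fin (V2.VV (D, α)).length ≃ (upd (toModel D) (toAction α)).W :=
      (List.Nodup.getEquiv (V2.VV (D, α)) (V2.nodup_VV (D, α))).trans
        (Equiv.ofBijective (V2.toV D α) (V2.toV_bij D α)).symm with he
    have hkey : ∀ u : Fin (V2.VV (D, α)).length, (V2.VV (D, α)).getD u (0, 0) =
        (wn (e u).1.1, en (e u).1.2) := by
      intro u
      have h2 : V2.toV D α (e u) =
          List.Nodup.getEquiv (V2.VV (D, α)) (V2.nodup_VV (D, α)) u :=
        (Equiv.ofBijective (V2.toV D α) (V2.toV_bij D α)).apply_symm_apply _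
      have h3 := congrArg Subtype.val h2
      rw [List.getD_eq_getElem _ _ u.2]
      exact h3.symm
    refine ⟨e, ?_, ?_⟩
    · intro i (u : Fin (V2.VV (D, α)).length) (v : Fin (V2.VV (D, α)).length)
      show (i, (u : ℕ), (v : ℕ)) ∈ V2.tri (D, α) ↔
        ((i, wn (e u).1.1, wn (e v).1.1) ∈ D.2.1) ∧ (i, en (e u).1.2, en (e v).1.2) ∈ α.2
      have hku := hkey u
      have hkv := hkey v
      rw [V2.mem_tri, hku, hkv]
      exact ⟨fun h => h.2, fun h => ⟨⟨u.2, v.2⟩, h⟩⟩
    · intro a (u : Fin (V2.VV (D, α)).length)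
      show ((u : ℕ), a) ∈ V2.atm (D, α) ↔ (wn (e u).1.1, a) ∈ D.2.2
      have hku := hkey u
      rw [V2.mem_atm, hku]
      exact ⟨fun h => h.2, fun h => ⟨u.2, h⟩⟩

end Pool.Agent.Q206.UE
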