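import Pool.Agent.Q206.UE.Uni

/-! # Every finite action model is given by data -/

namespace Pool.Agent.Q206.UE

variable {k : ℕ}

/-- The reverse Polish word of a formula. -/
def rp : Fml k → List (Tok k)
  | .atom p => [.inl p]
  | .neg φ => rp φ ++ [.inr (.inl false)]
  | .and φ ψ => rp φ ++ rp ψ ++ [.inr (.inl true)]
  | .know i φ => rp φ ++ [.inr (.inr i)]

theorem rp_fold (φ : Fml k) : ∀ s : List (Fml k), (rp φ).foldl rd s = φ :: s := by
  induction φ with
  | atom p => intro s; rfl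
  | neg φ ih => intro s; rw [rp, List.foldl_append, ih]; rfl
  | and φ ψ ih1 ih2 => intro s; rw [rp, List.foldl_append, List.foldl_append, ih1, ih2]; rfl
  | know i φ ih => intro s; rw [rp, List.foldl_append, ih]; rfl

theorem fm_rp (φ : Fml k) : fm (rp φ) = φ := by
  rw [fm, rp_fold]
  rfl

/-- Isomorphic action models. -/
def AIso (A B : Action k) : Prop :=
  ∃ ν : A.E ≃ B.E, (∀ i e f, A.rel i e f ↔ B.rel i (ν e) (ν f)) ∧ ∀ e, A.pre e = B.pre (ν e)

theorem aiso_upd {A B : Action k} (h : AIso A B) (M : Model k) : Iso (upd M A) (upd M B) := by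
  obtain ⟨ν, h1, h2⟩ := h
  refine ⟨?_, ?_, ?_⟩
  · exact
      { toFun := fun p => ⟨(p.1.1, ν p.1.2), by rw [← h2]; exact p.2⟩
        invFun := fun p => ⟨(p.1.1, ν.symm p.1.2), by
          have := p.2
          rw [h2, Equiv.apply_symm_apply]
          exact this⟩
        left_inv := fun p => by
          apply Subtype.ext
          simp
        right_inv := fun p => by
          apply Subtype.ext
          simp }
  · intro i u v
    exact and_congr Iff.rfl (h1 i _ _)
  · intro a u
    exact Iff.rfl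

theorem aiso_layer {A B : Action k} (h : AIso A B) (M : Model k) (n : ℕ) :
    Iso (layer M A n) (layer M B n) := by
  induction n with
  | zero => exact Iso.refl _
  | succ n ih => exact (Iso.upd ih A).trans (aiso_upd h _)

theorem iso_finMod {M N : Model k} (h : Iso M N) (hM : FinMod M) : FinMod N := by
  classical
  obtain ⟨e, h1, h2⟩ := h
  obtain ⟨F, hF⟩ := hM
  refine ⟨F.image e, fun w => ?_⟩
  obtain ⟨v, hv, Z, hZ, hwv⟩ := hF (e.symm w)
  refine ⟨e v, Finset.mem_image_of_mem e hv, fun x y => Z (e.symm x) (e.symm y), ?_, ?_⟩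
  · intro x y hxy
    obtain ⟨x, rfl⟩ := e.surjective x
    obtain ⟨y, rfl⟩ := e.surjective y
    simp only [Equiv.symm_apply_apply] at hxy
    obtain ⟨h3, h4, h5⟩ := hZ _ _ hxy
    refine ⟨fun a => ?_, fun i x' hx' => ?_, fun i y' hy' => ?_⟩
    · rw [← h2, ← h2]
      exact h3 a
    · obtain ⟨x', rfl⟩ := e.surjective x'
      rw [← h1] at hx'
      obtain ⟨y', hy1, hy2⟩ := h4 i x' hx'
      refine ⟨e y', (h1 _ _ _).mp hy1, ?_⟩
      simp only [Equiv.symm_apply_apply]
      exact hy2
    · obtain ⟨y', rfl⟩ := e.surjective y'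
      rw [← h1] at hy'
      obtain ⟨x', hx1, hx2⟩ := h5 i y' hy'
      refine ⟨e x', (h1 _ _ _).mp hx1, ?_⟩
      simp only [Equiv.symm_apply_apply]
      exact hx2
  · simp only [Equiv.symm_apply_apply]
    exact hwv

theorem tree_iso {A B : Action k} {M N : Model k} (h : ∀ n, Iso (layer M A n) (layer N B n)) :
    Iso (tree M A) (tree N B) := by
  choose e he hv using h
  refine ⟨Equiv.sigmaCongrRight e, fun i u v => ⟨?_, ?_⟩, fun a u => hv u.1 a u.2⟩
  · rintro ⟨n, u, v, huv⟩
    exact TreeRel.mk n _ _ ((he n i u v).mp huv)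
  · obtain ⟨n, u⟩ := u
    obtain ⟨m, v⟩ := v
    intro huv
    generalize hx : (Equiv.sigmaCongrRight e) ⟨n, u⟩ = x at huv
    generalize hy : (Equiv.sigmaCongrRight e) ⟨m, v⟩ = y at huv
    obtain ⟨l, x, y, hxy⟩ := huv
    simp only [Equiv.sigmaCongrRight_apply] at hx hy
    obtain ⟨rfl, hx⟩ := Sigma.mk.inj_iff.mp hx
    obtain ⟨rfl, hy⟩ := Sigma.mk.inj_iff.mp hy
    rw [heq_eq_eq] at hx hy
    subst hx hy
    exact TreeRel.mk _ _ _ ((he _ i u v).mpr hxy)

theorem data_aiso (A : Action k) [Finite A.E] : ∃ α : FA k, AIso (toAction α) A := by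
  classical
  obtain ⟨r, ⟨ν⟩⟩ := Finite.exists_equiv_fin A.E
  obtain ⟨R, hR⟩ : ∃ R : List (Fin k × ℕ × ℕ), ∀ x, x ∈ R ↔
      ∃ (i : Fin k) (e f : Fin r), A.rel i (ν.symm e) (ν.symm f) ∧ x = (i, (e : ℕ), (f : ℕ)) := by
    refine ⟨((Finset.univ : Finset (Fin k × Fin r × Fin r)).filter fun x =>
      A.rel x.1 (ν.symm x.2.1) (ν.symm x.2.2)).toList.map
      fun x => (x.1, (x.2.1 : ℕ), (x.2.2 : ℕ)), fun x => ?_⟩
    rw [List.mem_map]
    constructor
    · rintro ⟨⟨i, e, f⟩, h1, rfl⟩
      rw [Finset.mem_toList, Finset.mem_filter] at h1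
      exact ⟨i, e, f, h1.2, rfl⟩
    · rintro ⟨i, e, f, h1, rfl⟩
      refine ⟨(i, e, f), ?_, rfl⟩
      rw [Finset.mem_toList, Finset.mem_filter]
      exact ⟨Finset.mem_univ _, h1⟩
  have hlen : ((List.finRange r).map fun j => rp (A.pre (ν.symm j))).length = r := by simp
  refine ⟨⟨(List.finRange r).map fun j => rp (A.pre (ν.symm j)), R⟩,
    (finCongr hlen).trans ν.symm, ?_, ?_⟩
  · intro i e f
    change (i, Fin.val (n := ((List.finRange r).map fun j => rp (A.pre (ν.symm j))).length) e,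
      Fin.val (n := ((List.finRange r).map fun j => rp (A.pre (ν.symm j))).length) f) ∈ R ↔ _
    rw [hR]
    constructor
    · rintro ⟨i', e', f', h1, h2⟩
      simp only [Prod.mk.injEq] at h2
      obtain ⟨rfl, h3, h4⟩ := h2
      have he : (finCongr hlen) e = e' := Fin.ext h3
      have hf : (finCongr hlen) f = f' := Fin.ext h4
      change A.rel i (ν.symm (finCongr hlen e)) (ν.symm (finCongr hlen f))
      rw [he, hf]
      exact h1
    · intro h
      exact ⟨i, finCongr hlen e, finCongr hlen f, h, rfl⟩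
  · intro e
    change fm (((List.finRange r).map fun j => rp (A.pre (ν.symm j))).get e) =
      A.pre (ν.symm (finCongr hlen e))
    rw [List.get_eq_getElem, List.getElem_map, fm_rp, List.getElem_finRange]
    rfl

theorem v3 : S_v3 := by
  intro k A hA
  obtain ⟨α, h⟩ := data_aiso A
  refine ⟨α, fun M => ?_⟩
  have h1 : Iso (tree M (toAction α)) (tree M A) := tree_iso fun n => aiso_layer h M n
  exact ⟨iso_finMod h1, iso_finMod h1.symm⟩

end Pool.Agent.Q206.UE
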