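import Pool.Agent.Q206.UE.JV3

/-! # Every finite epistemic model with finitely many atoms is given by data -/

namespace Pool.Agent.Q206.UE

variable {k : ℕ}

theorem data_iso (M : Model k) [Finite M.W] (m : ℕ) (hm : ∀ a, m ≤ a → ∀ w, ¬ M.val a w) :
    ∃ D : FM k, Iso (toModel D) M := by
  classical
  obtain ⟨r, ⟨ν⟩⟩ := Finite.exists_equiv_fin M.W
  obtain ⟨R, hR⟩ : ∃ R : List (Fin k × ℕ × ℕ), ∀ x, x ∈ R ↔
      ∃ (i : Fin k) (e f : Fin r), M.rel i (ν.symm e) (ν.symm f) ∧ x = (i, (e : ℕ), (f : ℕ)) := by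
    refine ⟨((Finset.univ : Finset (Fin k × Fin r × Fin r)).filter fun x =>
      M.rel x.1 (ν.symm x.2.1) (ν.symm x.2.2)).toList.map
      fun x => (x.1, (x.2.1 : ℕ), (x.2.2 : ℕ)), fun x => ?_⟩
    rw [List.mem_map]
    constructor
    · rintro ⟨⟨i, e, f⟩, h1, rfl⟩
      rw [Finset.mem_toList, Finset.mem_filter] at h1
      exact ⟨i, e, f, h1.2, rfl⟩
    · rintro ⟨i, e, f, h1, rfl⟩
      refine ⟨(i, e, f), ?_, rfl⟩
      rw [Finset.mem_toList, Finset.mem_filter]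
      exact ⟨Finset.mem_univ _, h1⟩
  obtain ⟨V, hV⟩ : ∃ V : List (ℕ × ℕ), ∀ x, x ∈ V ↔
      ∃ (e : Fin r) (a : Fin m), M.val a (ν.symm e) ∧ x = ((e : ℕ), (a : ℕ)) := by
    refine ⟨((Finset.univ : Finset (Fin r × Fin m)).filter fun x =>
      M.val x.2 (ν.symm x.1)).toList.map fun x => ((x.1 : ℕ), (x.2 : ℕ)), fun x => ?_⟩
    rw [List.mem_map]
    constructor
    · rintro ⟨⟨e, a⟩, h1, rfl⟩
      rw [Finset.mem_toList, Finset.mem_filter] at h1
      exact ⟨e, a, h1.2, rfl⟩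
    · rintro ⟨e, a, h1, rfl⟩
      refine ⟨(e, a), ?_, rfl⟩
      rw [Finset.mem_toList, Finset.mem_filter]
      exact ⟨Finset.mem_univ _, h1⟩
  refine ⟨(r, R, V), ν.symm, ?_, ?_⟩
  · intro i (e : Fin r) (f : Fin r)
    change (i, (e : ℕ), (f : ℕ)) ∈ R ↔ _
    rw [hR]
    constructor
    · rintro ⟨i', e', f', h1, h2⟩
      simp only [Prod.mk.injEq] at h2
      obtain ⟨rfl, h3, h4⟩ := h2
      rw [Fin.ext h3, Fin.ext h4]
      exact h1
    · intro h
      exact ⟨i, e, f, h, rfl⟩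
  · intro a (e : Fin r)
    change ((e : ℕ), a) ∈ V ↔ _
    rw [hV]
    constructor
    · rintro ⟨e', a', h1, h2⟩
      simp only [Prod.mk.injEq] at h2
      obtain ⟨h3, rfl⟩ := h2
      rw [Fin.ext h3]
      exact h1
    · intro h
      have ha : a < m := by
        by_contra hcon
        exact hm a (not_lt.mp hcon) _ h
      exact ⟨e, ⟨a, ha⟩, h, rfl⟩

end Pool.Agent.Q206.UE
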