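import Pool.Agent.Q206.UE.Defs

/-!
# Update evolution: the lemmas

Each `S_*` is the statement of one lemma; the docstring has its proof.
-/

namespace Pool.Agent.Q206.UE

/-- JOB pre. The truth of the preconditions in the worlds of an explicit layer without the content
`h`. Proof: unfold; from the table `LRel`: `TIP` holds in the tip only, `LIV` in the tip and in
the cells `res p`, `PHI a` in the marks `st p` with `c p = a` only, `HALT h` nowhere. In `res p`:
`seen .L l` iff `l = if p = 0 then none else some (c (p - 1))`; `seen' q₀ .C b` iff `b = c p` (for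
`p = N` there is no mark, and `c N = q₀`); `seen' q₀ .R d` iff `d = c (p + 1)` (for `p + 1 ≥ N`
there is no mark, and `c (p + 1) = q₀`). So `RULE ρ q₀ a` holds in `res p` iff
`a = cstep ρ c p`. (Auxiliary facts: `ag (num i) = i`; a disjunction of a list holds iff a member
holds; `dia i φ` holds iff some `i`-successor satisfies `φ`.) -/
def S_pre : Prop :=
  ∀ (K : ℕ) (ρ : Option (Fin K) → Fin K → Fin K → Fin K) (q₀ h : Fin K) (c : ℕ → Fin K) (N : ℕ),
    (∀ p, N ≤ p → c p = q₀) → (∀ p < N, c p ≠ h) → ∀ w : (Lay c N).W,
    (Holds (Lay c N) ((act ρ q₀ h).pre .x) w ↔ w.1 = .tip) ∧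
    (Holds (Lay c N) ((act ρ q₀ h).pre .f) w ↔ w.1 = .tip) ∧
    (Holds (Lay c N) ((act ρ q₀ h).pre .y) w ↔ ∃ p, w.1 = .res p) ∧
    ∀ a, Holds (Lay c N) ((act ρ q₀ h).pre (.q a)) w ↔ ∃ p, w.1 = .res p ∧ a = cstep ρ c p

/-- JOB step. Proof: the worlds of the update are, by `S_pre`, `(tip, x)`, `(tip, f)`,
`(res p, y)`, `(res p, q (cstep ρ c p))` with `p ≤ N`; the isomorphism maps them to `tip`,
`res (N + 1)`, `res p`, `st p`. Compare the relations, case by case (`EvRel`, `LRel`), e.g. for `L`:
`(tip, x)` to `(tip, f)` is `tip` to `res (N + 1)`; `(tip, f)` to `(res N, y)` is `res (N + 1)` to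
`res N`; `(tip, f)` to `(res N, q _)` is `res (N + 1)` to `st N`; `(res (p + 1), y)` to `(res p, y)`
or `(res p, q _)`. All relations of both sides are listed in this way. -/
def S_step : Prop :=
  S_pre → ∀ (K : ℕ) (ρ : Option (Fin K) → Fin K → Fin K → Fin K) (q₀ h : Fin K) (c : ℕ → Fin K)
    (N : ℕ), (∀ p, N ≤ p → c p = q₀) → (∀ p < N, c p ≠ h) →
    Iso (upd (Lay c N) (act ρ q₀ h)) (Lay (cstep ρ c) (N + 1))

/-- JOB inf. Proof: let `ψ 0 = TIP`, `ψ (j + 1) = dia R (ψ j)`. In `Lay c N` the world `res 0`
satisfies `ψ (N + 1)` (path `res 0, …, res N, tip`) and not `ψ j` for `j ≤ N` (from `res p` the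
relation `R` leads to `res (p + 1)`, to `st (p + 1)`, and for `p = N` to the tip; from a mark it
leads nowhere; the tip is reached after `N + 1 - p` steps at the earliest). So the worlds of the
layers `n` and `n'` of the tree which correspond to `res 0` satisfy different formulas if
`n ≠ n'`, and are not bisimilar (truth of a formula in a world of the tree = truth in its layer;
bisimilar worlds satisfy the same formulas; bisimilarity is symmetric and transitive). Infinitely
many pairwise non-bisimilar worlds contradict `FinMod`. -/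
def S_inf : Prop :=
  ∀ (K m : ℕ) (c : ℕ → ℕ → Fin K) (M : Model (K + 6)) (A : Action (K + 6)),
    (∀ n, Iso (layer M A n) (Lay (c n) (m + n))) → ¬ FinMod (tree M A)

/-- JOB enc. Proof: number the worlds: `tip` is `0`, `res p` is `p + 1` (`p ≤ m`), `st p` is
`m + 2 + p` (`p < m`), where `m` is the length of the word; write down the lists of all triples
of `LRel` in this numbering, with `List.range` and `List.map` (and `flatMap` over the agents
`V a`), and show that the function is computable (`Primrec.list_range`, `Primrec.list_map`, …;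
functions on the finite types `Fin K` are primitive recursive, `Primrec.dom_finite`). No atoms. -/
def S_enc : Prop :=
  ∀ (K : ℕ) (q₀ : Fin K), ∃ D : List (Fin K) → FM (K + 6), Computable D ∧
    ∀ w, Iso (toModel (D w)) (Lay (conf q₀ w) w.length)

/-- JOB tmz. Proof: the `TM0` configuration with state `q` and tape `T` corresponds to
`⟨q, pos, t⟩` with `T.nth i = t (pos + i)` for all `i` (`Turing.Tape.nth`, `Tape.move_left_nth`,
`Tape.move_right_nth`, `Tape.write_nth`, `Tape.mk₁_nth` or similar for the start); `TM0.step` is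
`none` iff `znext` is. `StateTransition.eval` is defined iff some iterate of the step function is
`none`. -/
def S_tmz : Prop :=
  ∀ (Γ Λ : Type) [Inhabited Γ] [Inhabited Λ] (M : Turing.TM0.Machine Γ Λ) (l : List Γ),
    (StateTransition.eval (Turing.TM0.step M) (Turing.TM0.init l)).Dom ↔
      ∃ n, zrun M (zinit l : ZC Γ Λ) n = none

/-- JOB ca. Proof: let the contents be the elements of `Option (Γ × Γ × Option (Λ × Bool))`
(finite, so numbered by some `Fin K`); `none` is the content `h`; the cell `p` of a configuration
`⟨q, pos, t⟩` has the content `some (t p, t (-p - 1), s)` with `s = some (q, true)` if `pos = p`,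
`s = some (q, false)` if `pos = -p - 1`, and `s = none` otherwise. `q₀ = some (default, default,
none)`. The rule: if the cell has the head `(q, b)`, look at `M q γ`, `γ` the symbol on the side
`b`: `none` gives the content `h`; a written symbol is put on the side `b`, with the new state;
a move takes the head away, except from `0` to `-1` and from `-1` to `0`, where the head changes
the side in the cell `0` (the cell which has no left neighbour). A head which a neighbour sends
to this cell is received. So as long as the machine runs, the array shows its configurations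
(none of which has the content `h`), and when it stops, the content `h` appears.
`A γ` is `some (γ, default, some (default, true))`, `B γ` is `some (γ, default, none)`. -/
def S_ca : Prop :=
  ∀ (Γ Λ : Type) [Inhabited Γ] [Inhabited Λ] [Finite Γ] [Finite Λ]
    (M : Turing.TM0.Machine Γ Λ),
    ∃ (K : ℕ) (ρ : Option (Fin K) → Fin K → Fin K → Fin K) (q₀ h : Fin K) (A B : Γ → Fin K),
      q₀ ≠ h ∧ ρ (some q₀) q₀ q₀ = q₀ ∧ ∀ l : List Γ,
        ((∃ t p, (cstep ρ)^[t] (conf q₀ (A (l.getD 0 default) :: l.tail.map B)) p = h) ↔
          ∃ n, zrun M (zinit l : ZC Γ Λ) n = none)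

/-- JOB univ. Proof: `Pool.Agent.Helper450.NPM.Univ.exists_machine` (file
`Pool/Agent/Helper450/NP/Univ.lean`) gives a machine `M` whose halting on the words `l_n` is
`(u n).Dom`, `digits_computable` gives computable words. For an r.e. set `S`, `S n` iff
`(f n).Dom` with `f` partial recursive with code `d`; with `g n = encode (Code.curry d n)` (a
computable function) composed with a projection, `S n ↔ (u (g n)).Dom`. Take the words for
`M`, `S_tmz` and `S_ca`. -/
def S_univ : Prop :=
  S_tmz → S_ca → ∃ (K : ℕ) (ρ : Option (Fin K) → Fin K → Fin K → Fin K) (q₀ h : Fin K),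
    q₀ ≠ h ∧ ρ (some q₀) q₀ q₀ = q₀ ∧ ∀ S : ℕ → Prop, REPred S →
      ∃ f : ℕ → List (Fin K), Computable f ∧
        ∀ n, S n ↔ ∃ t p, (cstep ρ)^[t] (conf q₀ (f n)) p = h

/-! ### The upper bound -/

/-- JOB ub1. Proof: induction on the formula; `know i φ` holds in `w` iff `φ` holds in all `v < n`
with `(i, w, v)` in the list of triples. -/
def S_ub1 : Prop :=
  ∀ (k : ℕ) (φ : Fml k),
    PrimrecPred fun x : FM k × ℕ => ∃ hx : x.2 < x.1.1, Holds (toModel x.1) φ ⟨x.2, hx⟩

/-- JOB ub2. Proof: let `e : A.E ≃ Fin r`. List the pairs `(w, j)`, `w < n`, `j < r`, for which the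
precondition of the event number `j` holds in `w` (decidable, `S_ub1`; finitely many formulas, a
case distinction on `j`), number the worlds of the update by their places in this list, and write
down the lists of triples and atoms. -/
def S_ub2 : Prop :=
  S_ub1 → ∀ (k : ℕ) (A : Action k) [Finite A.E], ∃ U : FM k → FM k, Primrec U ∧
    ∀ D, Iso (toModel (U D)) (upd (toModel D) A)

/-- JOB ub3. Proof. Left to right: `N` is the largest layer of an element of the finite set.
Right to left: if `Z` is a bisimulation of the tree, then so is the set of the pairs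
`((w, e), (v, e))` with `Z w v` (the preconditions have the same truth value in `w` and `v`); so
`w ~ v` implies `(w, e) ~ (v, e)`. By induction on `n`, every world of every layer is bisimilar to
a world of a layer `≤ N`: for `(w, e)` with `w ~ v`, `v` in a layer `m ≤ N`, the world `(v, e)` is in
the layer `m + 1 ≤ N + 1`; if `m = N`, apply the hypothesis. The layers `≤ N` have finitely many
worlds. (In the statement, `Z` is a bisimulation between two models; the tree has no relations
between different layers, so bisimilar worlds of the tree are worlds related by a bisimulation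
between their layers.) -/
def S_ub3 : Prop :=
  ∀ (k : ℕ) (M : Model k) (A : Action k) [Finite M.W] [Finite A.E],
    FinMod (tree M A) ↔ ∃ N : ℕ, ∃ Z : ∀ m : ℕ, (layer M A (N + 1)).W → (layer M A m).W → Prop,
      (∀ m ≤ N, ∀ w v, Z m w v →
        (∀ a, (layer M A (N + 1)).val a w ↔ (layer M A m).val a v) ∧
        (∀ i w', (layer M A (N + 1)).rel i w w' → ∃ v', (layer M A m).rel i v v' ∧ Z m w' v') ∧
        ∀ i v', (layer M A m).rel i v v' → ∃ w', (layer M A (N + 1)).rel i w w' ∧ Z m w' v') ∧
      ∀ w, ∃ m ≤ N, ∃ v, Z m w v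

/-- The list `Z` of pairs is a bisimulation between the models given by `D` and `D'`. -/
def BisL {k : ℕ} (D D' : FM k) (Z : List (ℕ × ℕ)) : Prop :=
  ∀ z ∈ Z, z.1 < D.1 ∧ z.2 < D'.1 ∧
    (∀ x ∈ D.2.2, x.1 = z.1 → (z.2, x.2) ∈ D'.2.2) ∧
    (∀ x ∈ D'.2.2, x.1 = z.2 → (z.1, x.2) ∈ D.2.2) ∧
    (∀ x ∈ D.2.1, x.2.1 = z.1 → x.2.2 < D.1 →
      ∃ y ∈ D'.2.1, y.1 = x.1 ∧ y.2.1 = z.2 ∧ (x.2.2, y.2.2) ∈ Z) ∧
    ∀ y ∈ D'.2.1, y.2.1 = z.2 → y.2.2 < D'.1 →
      ∃ x ∈ D.2.1, x.1 = y.1 ∧ x.2.1 = z.1 ∧ (x.2.2, y.2.2) ∈ Z

/-- JOB ub4. Bounded quantifiers over lists (`PrimrecPred.forall_mem_list`,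
`PrimrecRel.exists_mem_list`, …), membership in a list of a `Primcodable` type with decidable
equality. -/
def S_ub4 : Prop :=
  ∀ k : ℕ, PrimrecPred fun x : (FM k × FM k) × List (ℕ × ℕ) => BisL x.1.1 x.1.2 x.2

end Pool.Agent.Q206.UE
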