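import Pool.Agent.Q206.UE.Hard

/-! # The upper bound: assembly -/

namespace Pool.Agent.Q206.UE

variable {k : ℕ}

theorem all_mem {α γ : Type} [Primcodable α] [Primcodable γ] {Q : α → γ → Prop}
    (hQ : PrimrecPred fun p : α × γ => Q p.1 p.2) {f : γ → List α} (hf : Primrec f) :
    PrimrecPred fun y => ∀ x ∈ f y, Q x y :=
  PrimrecRel.comp (PrimrecRel.forall_mem_list (show PrimrecRel Q from hQ)) hf Primrec.id

theorem ex_mem {α γ : Type} [Primcodable α] [Primcodable γ] {Q : α → γ → Prop}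
    (hQ : PrimrecPred fun p : α × γ => Q p.1 p.2) {f : γ → List α} (hf : Primrec f) :
    PrimrecPred fun y => ∃ x ∈ f y, Q x y :=
  PrimrecRel.comp (PrimrecRel.exists_mem_list (show PrimrecRel Q from hQ)) hf Primrec.id

theorem all_lt {γ : Type} [Primcodable γ] {Q : ℕ → γ → Prop}
    (hQ : PrimrecPred fun p : ℕ × γ => Q p.1 p.2) {f : γ → ℕ} (hf : Primrec f) :
    PrimrecPred fun y => ∀ x < f y, Q x y :=
  (all_mem hQ (Primrec.list_range.comp hf)).of_eq fun y => by simp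

theorem ex_lt {γ : Type} [Primcodable γ] {Q : ℕ → γ → Prop}
    (hQ : PrimrecPred fun p : ℕ × γ => Q p.1 p.2) {f : γ → ℕ} (hf : Primrec f) :
    PrimrecPred fun y => ∃ x < f y, Q x y :=
  (ex_mem hQ (Primrec.list_range.comp hf)).of_eq fun y => by simp

theorem re_exists {α β : Type} [Primcodable α] [Primcodable β] {P : α × β → Prop}
    (hP : PrimrecPred P) : REPred fun a => ∃ b, P (a, b) := by
  classical
  obtain ⟨_, hP⟩ := hP
  have hg : Computable₂ fun (a : α) (n : ℕ) =>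
      (Encodable.decode n : Option β).bind fun b => if P (a, b) then some () else none := by
    refine Primrec.to_comp ?_
    refine Primrec.option_bind (Primrec.decode.comp Primrec.snd) ?_
    refine Primrec.ite (c := fun x : (α × ℕ) × β => P (x.1.1, x.2)) ?_ (Primrec.const _)
      (Primrec.const _)
    exact PrimrecPred.comp ⟨_, hP⟩ ((Primrec.fst.comp Primrec.fst).pair Primrec.snd)
  refine (Partrec.rfindOpt hg).dom_re.of_eq fun a => ?_
  rw [Nat.rfindOpt_dom]
  constructor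
  · rintro ⟨n, x, hx⟩
    rw [Option.mem_def, Option.bind_eq_some_iff] at hx
    obtain ⟨b, -, hb⟩ := hx
    refine ⟨b, ?_⟩
    by_contra hcon
    rw [if_neg hcon] at hb
    exact absurd hb (by simp)
  · rintro ⟨b, hb⟩
    refine ⟨Encodable.encode b, (), ?_⟩
    rw [Encodable.encodek, Option.mem_def, Option.bind_some, if_pos hb]

/-- The number of a world. -/
def wn {D : FM k} (u : (toModel D).W) : ℕ := Fin.val (n := D.1) u

/-- The world with the given number. -/
def mw {D : FM k} (i : ℕ) (h : i < D.1) : (toModel D).W := (⟨i, h⟩ : Fin D.1)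

theorem wn_lt {D : FM k} (u : (toModel D).W) : wn u < D.1 := Fin.isLt (n := D.1) u

theorem wn_inj {D : FM k} {u v : (toModel D).W} (h : wn u = wn v) : u = v := Fin.ext h

/-- Bisimulations between two models. -/
def BisR (P P' : Model k) (Z : P.W → P'.W → Prop) : Prop :=
  ∀ w v, Z w v → (∀ a, P.val a w ↔ P'.val a v) ∧
    (∀ i w', P.rel i w w' → ∃ v', P'.rel i v v' ∧ Z w' v') ∧
    ∀ i v', P'.rel i v v' → ∃ w', P.rel i w w' ∧ Z w' v'

theorem bisR_of_bisL {D D' : FM k} {P P' : Model k} (e : (toModel D).W ≃ P.W)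
    (he : ∀ i u v, (toModel D).rel i u v ↔ P.rel i (e u) (e v))
    (hv : ∀ a u, (toModel D).val a u ↔ P.val a (e u)) (e' : (toModel D').W ≃ P'.W)
    (he' : ∀ i u v, (toModel D').rel i u v ↔ P'.rel i (e' u) (e' v))
    (hv' : ∀ a u, (toModel D').val a u ↔ P'.val a (e' u)) {Zl : List (ℕ × ℕ)}
    (hZ : BisL D D' Zl) :
    BisR P P' fun w v => (wn (e.symm w), wn (e'.symm v)) ∈ Zl := by
  intro w v hwv
  obtain ⟨h1, h2, h3, h4, h5, h6⟩ := hZ _ hwv
  obtain ⟨u, rfl⟩ := e.surjective w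
  obtain ⟨u', rfl⟩ := e'.surjective v
  simp only [Equiv.symm_apply_apply] at hwv h1 h2 h3 h4 h5 h6 ⊢
  refine ⟨fun a => ?_, ?_, ?_⟩
  · rw [← hv, ← hv']
    exact ⟨fun h => h3 _ h rfl, fun h => h4 _ h rfl⟩
  · intro i w' hw'
    obtain ⟨x, rfl⟩ := e.surjective w'
    rw [← he] at hw'
    obtain ⟨y, hy, hy1, hy2, hy3⟩ := h5 _ hw' rfl (wn_lt x)
    have hy4 := (hZ _ hy3).2.1
    obtain ⟨y1, y2, y3⟩ := y
    simp only at hy1 hy2 hy4 hy3
    subst hy1 hy2
    refine ⟨e' (mw y3 hy4), ?_, ?_⟩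
    · rw [← he']
      exact hy
    · rw [Equiv.symm_apply_apply, Equiv.symm_apply_apply]
      exact hy3
  · intro i v' hv'
    obtain ⟨x, rfl⟩ := e'.surjective v'
    rw [← he'] at hv'
    obtain ⟨y, hy, hy1, hy2, hy3⟩ := h6 _ hv' rfl (wn_lt x)
    have hy4 := (hZ _ hy3).1
    obtain ⟨y1, y2, y3⟩ := y
    simp only at hy1 hy2 hy4 hy3
    subst hy1 hy2
    refine ⟨e (mw y3 hy4), ?_, ?_⟩
    · rw [← he]
      exact hy
    · rw [Equiv.symm_apply_apply, Equiv.symm_apply_apply]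
      exact hy3

theorem bisL_of_bisR {D D' : FM k} {P P' : Model k} (e : (toModel D).W ≃ P.W)
    (he : ∀ i u v, (toModel D).rel i u v ↔ P.rel i (e u) (e v))
    (hv : ∀ a u, (toModel D).val a u ↔ P.val a (e u)) (e' : (toModel D').W ≃ P'.W)
    (he' : ∀ i u v, (toModel D').rel i u v ↔ P'.rel i (e' u) (e' v))
    (hv' : ∀ a u, (toModel D').val a u ↔ P'.val a (e' u)) {Z : P.W → P'.W → Prop}
    (hZ : BisR P P' Z) :
    ∃ Zl : List (ℕ × ℕ), BisL D D' Zl ∧ ∀ (u : (toModel D).W) (v : (toModel D').W),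
      (wn u, wn v) ∈ Zl ↔ Z (e u) (e' v) := by
  classical
  have hmem : ∀ z : ℕ × ℕ, z ∈ ((List.finRange D.1).flatMap fun u => (List.finRange D'.1).flatMap
      fun v => if Z (e u) (e' v) then [(Fin.val u, Fin.val v)] else []) ↔
      ∃ (u : (toModel D).W) (v : (toModel D').W), Z (e u) (e' v) ∧ z = (wn u, wn v) := by
    intro z
    rw [List.mem_flatMap]
    constructor
    · rintro ⟨u, -, h⟩
      rw [List.mem_flatMap] at h
      obtain ⟨v, -, h⟩ := h
      by_cases hZ : Z (e u) (e' v)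
      · rw [if_pos hZ, List.mem_singleton] at h
        exact ⟨u, v, hZ, h⟩
      · rw [if_neg hZ] at h
        exact absurd h (by simp)
    · rintro ⟨u, v, hZ, h⟩
      refine ⟨u, List.mem_finRange _, ?_⟩
      rw [List.mem_flatMap]
      refine ⟨v, List.mem_finRange _, ?_⟩
      rw [if_pos hZ, List.mem_singleton]
      exact h
  obtain ⟨Zl, hZl⟩ : ∃ Zl : List (ℕ × ℕ), ∀ z, z ∈ Zl ↔
      ∃ (u : (toModel D).W) (v : (toModel D').W), Z (e u) (e' v) ∧ z = (wn u, wn v) := ⟨_, hmem⟩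
  clear hmem
  have hmem := hZl
  refine ⟨Zl, ?_, fun u v => ?_⟩
  rotate_left
  · rw [hmem]
    constructor
    · rintro ⟨u', v', h1, h2⟩
      simp only [Prod.mk.injEq] at h2
      rw [wn_inj h2.1, wn_inj h2.2]
      exact h1
    · intro h
      exact ⟨u, v, h, rfl⟩
  · intro z hz
    rw [hmem] at hz
    obtain ⟨u, v, huv, rfl⟩ := hz
    obtain ⟨h1, h2, h3⟩ := hZ _ _ huv
    refine ⟨wn_lt u, wn_lt v, ?_, ?_, ?_, ?_⟩
    · rintro ⟨x1, x2⟩ hx hx1
      simp only at hx1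
      subst hx1
      have := (h1 x2)
      rw [← hv, ← hv'] at this
      exact this.mp hx
    · rintro ⟨x1, x2⟩ hx hx1
      simp only at hx1
      subst hx1
      have := (h1 x2)
      rw [← hv, ← hv'] at this
      exact this.mpr hx
    · rintro ⟨i, x1, x2⟩ hx hx1 hx2
      simp only at hx1 hx2
      subst hx1
      have h4 := (he i u (mw x2 hx2)).mp hx
      obtain ⟨v', hv1, hv2⟩ := h2 i _ h4
      obtain ⟨y, rfl⟩ := e'.surjective v'
      rw [← he'] at hv1
      refine ⟨_, hv1, rfl, rfl, ?_⟩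
      rw [hmem]
      exact ⟨_, _, hv2, rfl⟩
    · rintro ⟨i, x1, x2⟩ hx hx1 hx2
      simp only at hx1 hx2
      subst hx1
      have h4 := (he' i v (mw x2 hx2)).mp hx
      obtain ⟨v', hv1, hv2⟩ := h3 i _ h4
      obtain ⟨y, rfl⟩ := e.surjective v'
      rw [← he] at hv1
      refine ⟨_, hv1, rfl, rfl, ?_⟩
      rw [hmem]
      exact ⟨_, _, hv2, rfl⟩

theorem iso_iter {A : Action k} {U : FM k → FM k}
    (hU : ∀ D, Iso (toModel (U D)) (upd (toModel D) A)) (D : FM k) (n : ℕ) :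
    Iso (toModel (U^[n] D)) (layer (toModel D) A n) := by
  induction n with
  | zero => exact Iso.refl _
  | succ n ih =>
    rw [Function.iterate_succ_apply']
    exact (hU _).trans (ih.upd A)

/-- The certificate. -/
def Cert (U : FM k → FM k) (x : FM k × (ℕ × List (List (ℕ × ℕ)))) : Prop :=
  (∀ m < x.2.1 + 1, BisL (U^[x.2.1 + 1] x.1) (U^[m] x.1) (x.2.2.getD m [])) ∧
    ∀ w < (U^[x.2.1 + 1] x.1).1, ∃ m < x.2.1 + 1, ∃ z ∈ x.2.2.getD m [], z.1 = w

theorem cert_prim (hub4 : S_ub4) {U : FM k → FM k} (hU : Primrec U) :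
    PrimrecPred (Cert (k := k) U) := by
  have hN : Primrec fun x : FM k × (ℕ × List (List (ℕ × ℕ))) => x.2.1 + 1 :=
    Primrec.succ.comp (Primrec.fst.comp Primrec.snd)
  have hit : ∀ {γ : Type} [Primcodable γ] {f : γ → ℕ} {g : γ → FM k}, Primrec f → Primrec g →
      Primrec fun y => U^[f y] (g y) := fun hf hg =>
    Primrec.nat_iterate hf hg (hU.comp Primrec.snd)
  have hZ : ∀ {γ : Type} [Primcodable γ] {f : γ → ℕ} {g : γ → List (List (ℕ × ℕ))}, Primrec f →
      Primrec g → Primrec fun y => (g y).getD (f y) [] := fun hf hg =>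
    (Primrec.list_getD []).comp hg hf
  refine PrimrecPred.and ?_ ?_
  · refine all_lt (Q := fun m (x : FM k × (ℕ × List (List (ℕ × ℕ)))) =>
      BisL (U^[x.2.1 + 1] x.1) (U^[m] x.1) (x.2.2.getD m [])) ?_ hN
    have h1 : Primrec fun p : ℕ × (FM k × (ℕ × List (List (ℕ × ℕ)))) =>
        ((U^[p.2.2.1 + 1] p.2.1, U^[p.1] p.2.1), p.2.2.2.getD p.1 []) :=
      Primrec.pair (Primrec.pair (hit (hN.comp Primrec.snd) (Primrec.fst.comp Primrec.snd))
        (hit Primrec.fst (Primrec.fst.comp Primrec.snd)))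
        (hZ Primrec.fst (Primrec.snd.comp (Primrec.snd.comp Primrec.snd)))
    exact (hub4 k).comp h1
  · refine all_lt (Q := fun w (x : FM k × (ℕ × List (List (ℕ × ℕ)))) =>
      ∃ m < x.2.1 + 1, ∃ z ∈ x.2.2.getD m [], z.1 = w) ?_
      (Primrec.fst.comp (hit hN Primrec.fst))
    refine ex_lt (γ := ℕ × (FM k × (ℕ × List (List (ℕ × ℕ))))) (f := fun q => q.2.2.1 + 1)
      (Q := fun m q => ∃ z ∈ q.2.2.2.getD m [], z.1 = q.1) ?_ (hN.comp Primrec.snd)
    refine ex_mem (γ := ℕ × ℕ × (FM k × (ℕ × List (List (ℕ × ℕ)))))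
      (f := fun q => q.2.2.2.2.getD q.1 []) (Q := fun z q => z.1 = q.2.1) ?_
      (hZ Primrec.fst (Primrec.snd.comp (Primrec.snd.comp (Primrec.snd.comp Primrec.snd))))
    exact Primrec.eq.comp (Primrec.fst.comp Primrec.fst)
      (Primrec.fst.comp (Primrec.snd.comp Primrec.snd))

theorem upper (hub1 : S_ub1) (hub2 : S_ub2) (hub3 : S_ub3) (hub4 : S_ub4) (A : Action k)
    [Finite A.E] : REPred fun D : FM k => FinMod (tree (toModel D) A) := by
  classical
  obtain ⟨U, hU, hiso⟩ := hub2 hub1 k A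
  refine (re_exists (cert_prim hub4 hU)).of_eq fun D => ?_
  rw [hub3 k (toModel D) A]
  have hi := fun n => iso_iter hiso D n
  choose e he hv using hi
  constructor
  · rintro ⟨⟨N, Zs⟩, h1, h2⟩
    simp only at h1 h2
    refine ⟨N, fun m w v => (wn ((e (N + 1)).symm w), wn ((e m).symm v)) ∈ Zs.getD m [],
      fun m hm => ?_, fun w => ?_⟩
    · exact bisR_of_bisL (e (N + 1)) (he (N + 1)) (hv (N + 1)) (e m) (he m) (hv m)
        (h1 m (by omega))
    · obtain ⟨m, hm, z, hz, hz1⟩ := h2 (wn ((e (N + 1)).symm w)) (wn_lt _)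
      have hz2 := ((h1 m hm) z hz).2.1
      refine ⟨m, by omega, e m (mw z.2 hz2), ?_⟩
      change (wn ((e (N + 1)).symm w), wn ((e m).symm (e m (mw z.2 hz2)))) ∈ Zs.getD m []
      rw [Equiv.symm_apply_apply, ← hz1]
      exact hz
  · rintro ⟨N, Z, h1, h2⟩
    have h3 : ∀ m : ℕ, ∃ Zl : List (ℕ × ℕ), m ≤ N → (BisL (U^[N + 1] D) (U^[m] D) Zl ∧
        ∀ (u : (toModel (U^[N + 1] D)).W) (v : (toModel (U^[m] D)).W),
          (wn u, wn v) ∈ Zl ↔ Z m (e (N + 1) u) (e m v)) := by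
      intro m
      by_cases hm : m ≤ N
      · obtain ⟨Zl, h4⟩ := bisL_of_bisR (e (N + 1)) (he (N + 1)) (hv (N + 1)) (e m) (he m) (hv m)
          (h1 m hm)
        exact ⟨Zl, fun _ => h4⟩
      · exact ⟨[], fun h => absurd h hm⟩
    choose Zl hZl using h3
    have hget : ∀ m, m ≤ N → ((List.range (N + 1)).map Zl).getD m [] = Zl m := by
      intro m hm
      rw [List.getD_eq_getElem?_getD, List.getElem?_map, List.getElem?_range (by omega)]
      rfl
    refine ⟨⟨N, (List.range (N + 1)).map Zl⟩, ?_, ?_⟩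
    · intro m hm
      change m < N + 1 at hm
      change BisL _ _ (((List.range (N + 1)).map Zl).getD m [])
      rw [hget m (by omega)]
      exact (hZl m (by omega)).1
    · intro w hw
      change w < (U^[N + 1] D).1 at hw
      obtain ⟨m, hm, v, hmv⟩ := h2 (e (N + 1) (mw w hw))
      obtain ⟨v', rfl⟩ := (e m).surjective v
      refine ⟨m, Nat.lt_succ_of_le hm, (w, wn v'), ?_, rfl⟩
      change _ ∈ ((List.range (N + 1)).map Zl).getD m []
      rw [hget m hm]
      exact ((hZl m hm).2 (mw w hw) v').mpr hmv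

end Pool.Agent.Q206.UE
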