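import Pool.Agent.Q206.UE.Upper
import Pool.Agent.Q206.UE.Uni

/-! # The upper bound uniformly in the action model: assembly -/

namespace Pool.Agent.Q206.UE

variable {k : ℕ}

/-- One update, the action model is kept. -/
def st2 (U : FM k × FA k → FM k) (p : FM k × FA k) : FM k × FA k := (U p, p.2)

theorem st2_snd (U : FM k × FA k → FM k) (p : FM k × FA k) (n : ℕ) : ((st2 U)^[n] p).2 = p.2 := by
  induction n with
  | zero => rfl
  | succ n ih =>
    rw [Function.iterate_succ_apply']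
    exact ih

theorem iso_iter2 {U : FM k × FA k → FM k}
    (hU : ∀ D α, Iso (toModel (U (D, α))) (upd (toModel D) (toAction α))) (p : FM k × FA k)
    (n : ℕ) : Iso (toModel ((st2 U)^[n] p).1) (layer (toModel p.1) (toAction p.2) n) := by
  induction n with
  | zero => exact Iso.refl _
  | succ n ih =>
    rw [Function.iterate_succ_apply']
    have h1 := hU ((st2 U)^[n] p).1 ((st2 U)^[n] p).2
    rw [Prod.mk.eta] at h1
    have h2 := st2_snd U p n
    have h3 : Iso (upd (toModel ((st2 U)^[n] p).1) (toAction ((st2 U)^[n] p).2))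
        (upd (layer (toModel p.1) (toAction p.2) n) (toAction p.2)) := by
      rw [h2]
      exact ih.upd _
    exact h1.trans h3

/-- The certificate. -/
def Cert2 (U : FM k × FA k → FM k) (x : (FM k × FA k) × (ℕ × List (List (ℕ × ℕ)))) : Prop :=
  (∀ m < x.2.1 + 1, BisL ((st2 U)^[x.2.1 + 1] x.1).1 ((st2 U)^[m] x.1).1 (x.2.2.getD m [])) ∧
    ∀ w < ((st2 U)^[x.2.1 + 1] x.1).1.1, ∃ m < x.2.1 + 1, ∃ z ∈ x.2.2.getD m [], z.1 = w

theorem cert_prim2 (hub4 : S_ub4) {U : FM k × FA k → FM k} (hU : Primrec U) :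
    PrimrecPred (Cert2 (k := k) U) := by
  have hst : Primrec (st2 U) := Primrec.pair hU Primrec.snd
  have hN : Primrec fun x : (FM k × FA k) × (ℕ × List (List (ℕ × ℕ))) => x.2.1 + 1 :=
    Primrec.succ.comp (Primrec.fst.comp Primrec.snd)
  have hit : ∀ {γ : Type} [Primcodable γ] {f : γ → ℕ} {g : γ → FM k × FA k}, Primrec f →
      Primrec g → Primrec fun y => ((st2 U)^[f y] (g y)).1 := fun hf hg =>
    Primrec.fst.comp (Primrec.nat_iterate hf hg (hst.comp Primrec.snd))
  have hZ : ∀ {γ : Type} [Primcodable γ] {f : γ → ℕ} {g : γ → List (List (ℕ × ℕ))}, Primrec f →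
      Primrec g → Primrec fun y => (g y).getD (f y) [] := fun hf hg =>
    (Primrec.list_getD []).comp hg hf
  refine PrimrecPred.and ?_ ?_
  · refine all_lt (Q := fun m (x : (FM k × FA k) × (ℕ × List (List (ℕ × ℕ)))) =>
      BisL ((st2 U)^[x.2.1 + 1] x.1).1 ((st2 U)^[m] x.1).1 (x.2.2.getD m [])) ?_ hN
    have h1 : Primrec fun p : ℕ × ((FM k × FA k) × (ℕ × List (List (ℕ × ℕ)))) =>
        ((((st2 U)^[p.2.2.1 + 1] p.2.1).1, ((st2 U)^[p.1] p.2.1).1), p.2.2.2.getD p.1 []) :=
      Primrec.pair (Primrec.pair (hit (hN.comp Primrec.snd) (Primrec.fst.comp Primrec.snd))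
        (hit Primrec.fst (Primrec.fst.comp Primrec.snd)))
        (hZ Primrec.fst (Primrec.snd.comp (Primrec.snd.comp Primrec.snd)))
    exact (hub4 k).comp h1
  · refine all_lt (Q := fun w (x : (FM k × FA k) × (ℕ × List (List (ℕ × ℕ)))) =>
      ∃ m < x.2.1 + 1, ∃ z ∈ x.2.2.getD m [], z.1 = w) ?_
      (Primrec.fst.comp (hit hN Primrec.fst))
    refine ex_lt (γ := ℕ × ((FM k × FA k) × (ℕ × List (List (ℕ × ℕ))))) (f := fun q => q.2.2.1 + 1)
      (Q := fun m q => ∃ z ∈ q.2.2.2.getD m [], z.1 = q.1) ?_ (hN.comp Primrec.snd)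
    refine ex_mem (γ := ℕ × ℕ × ((FM k × FA k) × (ℕ × List (List (ℕ × ℕ)))))
      (f := fun q => q.2.2.2.2.getD q.1 []) (Q := fun z q => z.1 = q.2.1) ?_
      (hZ Primrec.fst (Primrec.snd.comp (Primrec.snd.comp (Primrec.snd.comp Primrec.snd))))
    exact Primrec.eq.comp (Primrec.fst.comp Primrec.fst)
      (Primrec.fst.comp (Primrec.snd.comp Primrec.snd))

instance (α : FA k) : Finite (toAction α).E := inferInstanceAs (Finite (Fin α.1.length))

theorem upper2 (hv1 : S_v1) (hv2 : S_v2) (hub3 : S_ub3) (hub4 : S_ub4) (k : ℕ) :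
    REPred fun p : FM k × FA k => FinMod (tree (toModel p.1) (toAction p.2)) := by
  classical
  obtain ⟨U, hU, hiso⟩ := hv2 hv1 k
  refine (re_exists (cert_prim2 hub4 hU)).of_eq fun D => ?_
  rw [hub3 k (toModel D.1) (toAction D.2)]
  have hi := fun n => iso_iter2 hiso D n
  choose e he hv using hi
  constructor
  · rintro ⟨⟨N, Zs⟩, h1, h2⟩
    simp only at h1 h2
    refine ⟨N, fun m w v => (wn ((e (N + 1)).symm w), wn ((e m).symm v)) ∈ Zs.getD m [],
      fun m hm => ?_, fun w => ?_⟩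
    · exact bisR_of_bisL (e (N + 1)) (he (N + 1)) (hv (N + 1)) (e m) (he m) (hv m)
        (h1 m (by omega))
    · obtain ⟨m, hm, z, hz, hz1⟩ := h2 (wn ((e (N + 1)).symm w)) (wn_lt _)
      have hz2 := ((h1 m hm) z hz).2.1
      refine ⟨m, by omega, e m (mw z.2 hz2), ?_⟩
      change (wn ((e (N + 1)).symm w), wn ((e m).symm (e m (mw z.2 hz2)))) ∈ Zs.getD m []
      rw [Equiv.symm_apply_apply, ← hz1]
      exact hz
  · rintro ⟨N, Z, h1, h2⟩
    have h3 : ∀ m : ℕ, ∃ Zl : List (ℕ × ℕ), m ≤ N → (BisL ((st2 U)^[N + 1] D).1 ((st2 U)^[m] D).1 Zl ∧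
        ∀ (u : (toModel ((st2 U)^[N + 1] D).1).W) (v : (toModel ((st2 U)^[m] D).1).W),
          (wn u, wn v) ∈ Zl ↔ Z m (e (N + 1) u) (e m v)) := by
      intro m
      by_cases hm : m ≤ N
      · obtain ⟨Zl, h4⟩ := bisL_of_bisR (e (N + 1)) (he (N + 1)) (hv (N + 1)) (e m) (he m) (hv m)
          (h1 m hm)
        exact ⟨Zl, fun _ => h4⟩
      · exact ⟨[], fun h => absurd h hm⟩
    choose Zl hZl using h3
    have hget : ∀ m, m ≤ N → ((List.range (N + 1)).map Zl).getD m [] = Zl m := by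
      intro m hm
      rw [List.getD_eq_getElem?_getD, List.getElem?_map, List.getElem?_range (by omega)]
      rfl
    refine ⟨⟨N, (List.range (N + 1)).map Zl⟩, ?_, ?_⟩
    · intro m hm
      change m < N + 1 at hm
      change BisL _ _ (((List.range (N + 1)).map Zl).getD m [])
      rw [hget m (by omega)]
      exact (hZl m (by omega)).1
    · intro w hw
      change w < ((st2 U)^[N + 1] D).1.1 at hw
      obtain ⟨m, hm, v, hmv⟩ := h2 (e (N + 1) (mw w hw))
      obtain ⟨v', rfl⟩ := (e m).surjective v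
      refine ⟨m, Nat.lt_succ_of_le hm, (w, wn v'), ?_, rfl⟩
      change _ ∈ ((List.range (N + 1)).map Zl).getD m []
      rw [hget m hm]
      exact ((hZl m hm).2 (mw w hw) v').mpr hmv

end Pool.Agent.Q206.UE
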